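import Pool.Agent.Lib_helper17.Rogers.Nbr

set_option autoImplicit false

open Finset

namespace Pool.Agent.Lib_helper17.Rogers

attribute [local irreducible] MM BB HH OFF

lemma pts_update (w : Fin 6 → E5) (x : Fin 6 → Fin 6 → ℤ) (i : Fin 6) (v : Fin 6 → ℤ) :
    pts w (Function.update x i (lc v x)) =
      Function.update (pts w x) i (∑ k, (v k : ℝ) • pts w x k) := by
  funext k
  by_cases hk : k = i
  · subst hk
    rw [Function.update_self, pts, Function.update_self]
    unfold pts lc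
    simp only [Finset.smul_sum, smul_smul]
    rw [Finset.sum_comm]
    refine Finset.sum_congr rfl fun l _ => ?_
    push_cast
    rw [Finset.sum_smul]
  · rw [Function.update_of_ne hk]
    unfold pts
    rw [Function.update_of_ne hk]

lemma DelP_update {L : AddSubgroup E5} {w : Fin 6 → E5} {x : Fin 6 → Fin 6 → ℤ}
    (hx : DelP L w x) {i : Fin 6} {v : Fin 6 → ℤ} {z : E5}
    (hz : IsDel L (Function.update (pts w x) i z))
    (hv : hom z = ∑ k, (v k : ℝ) • hom (pts w x k)) :
    DelP L w (Function.update x i (lc v x)) := by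
  obtain ⟨h1, h2⟩ := hom_add_sub_smul z (fun k => (v k : ℝ)) (pts w x) hv
  refine ⟨fun k => ?_, ?_⟩
  · by_cases hk : k = i
    · subst hk
      rw [Function.update_self, lc_sum hx.1]
      exact_mod_cast h2
    · rw [Function.update_of_ne hk]
      exact hx.1 k
  · rw [pts_update, ← h1]
    exact hz

/-- six digits -/
def enc6 (a b c d e f : ℕ) : ℕ :=
  a + (b * 4096 + (c * 16777216 + (d * 68719476736 + (e * 281474976710656 +
    f * 1152921504606846976))))

lemma wt_enc6 {a b c d e f : ℕ} (ha : a < 4096) (hb : b < 4096) (hc : c < 4096) (hd : d < 4096)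
    (he : e < 4096) (hf : f < 4096) : wt (enc6 a b c d e f) =
      ![(a : ℤ) - 2048, (b : ℤ) - 2048, (c : ℤ) - 2048, (d : ℤ) - 2048, (e : ℤ) - 2048,
        (f : ℤ) - 2048] := by
  have h0 : enc6 a b c d e f / 1 % 4096 = a := by unfold enc6; omega
  have h1 : enc6 a b c d e f / 4096 % 4096 = b := by unfold enc6; omega
  have h2 : enc6 a b c d e f / 16777216 % 4096 = c := by unfold enc6; omega
  have h3 : enc6 a b c d e f / 68719476736 % 4096 = d := by unfold enc6; omega
  have h4 : enc6 a b c d e f / 281474976710656 % 4096 = e := by unfold enc6; omega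
  have h5 : enc6 a b c d e f / 1152921504606846976 % 4096 = f := by unfold enc6; omega
  generalize enc6 a b c d e f = n at *
  have key : ∀ i : Fin 6, ∀ q v : ℕ, 2 ^ (12 * (i : ℕ)) = q → n / q % 4096 = v →
      wt n i = (v : ℤ) - 2048 := by
    intro i q v hq hv
    unfold wt
    rw [Nat.shiftRight_eq_div_pow, hq, hv]
  funext i
  fin_cases i
  · exact key 0 1 a (by norm_num) h0
  · exact key 1 4096 b (by norm_num) h1
  · exact key 2 16777216 c (by norm_num) h2
  · exact key 3 68719476736 d (by norm_num) h3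
  · exact key 4 281474976710656 e (by norm_num) h4
  · exact key 5 1152921504606846976 f (by norm_num) h5

lemma enc5_eq (a b c d e : ℕ) : ApexData.enc5 a b c d e =
    enc6 2047 (a + 2041) (b + 2041) (c + 2041) (d + 2041) (e + 2041) := rfl

lemma wt_enc5 {a b c d e : ℕ} (ha : a ≤ 14) (hb : b ≤ 14) (hc : c ≤ 14) (hd : d ≤ 14)
    (he : e ≤ 14) : wt (ApexData.enc5 a b c d e) =
      ![-1, (a : ℤ) - 7, (b : ℤ) - 7, (c : ℤ) - 7, (d : ℤ) - 7, (e : ℤ) - 7] := by
  rw [enc5_eq, wt_enc6 (by norm_num) (by omega) (by omega) (by omega) (by omega) (by omega)]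
  have h : ∀ x : ℕ, ((x + 2041 : ℕ) : ℤ) - 2048 = (x : ℤ) - 7 := by intro x; push_cast; ring
  rw [h a, h b, h c, h d, h e]
  norm_num

lemma cover_spec {a b c d e : ℕ} (hab : a ≤ b) (hbc : b ≤ c) (hcd : c ≤ d) (hde : d ≤ e)
    (he : e ≤ 14) (hs : a + (b + (c + (d + e))) = 37) :
    (6 ≤ a ∧ e ≤ 8) ∨ ∃ q ∈ ApexData.apexCerts, q.1 = ApexData.enc5 a b c d e := by
  have h := ApexData.apex_cover
  have h1 := List.all_eq_true.1 h a (List.mem_range.2 (by omega))
  have h2 := List.all_eq_true.1 h1 b (List.mem_range.2 (by omega))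
  rw [Nat.ble_eq_true_of_le hab] at h2
  have h3 := List.all_eq_true.1 h2 c (List.mem_range.2 (by omega))
  rw [Nat.ble_eq_true_of_le hbc] at h3
  have h4 := List.all_eq_true.1 h3 d (List.mem_range.2 (by omega))
  rw [Nat.ble_eq_true_of_le hcd] at h4
  have h5 := List.all_eq_true.1 h4 e (List.mem_range.2 (by omega))
  rw [Nat.ble_eq_true_of_le hde] at h5
  have h6 : Nat.beq (Nat.add a (Nat.add b (Nat.add c (Nat.add d e)))) 37 = true := beq_true hs
  rw [h6] at h5
  simp only [Bool.not_true, Bool.false_or] at h5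
  rcases Bool.or_eq_true _ _ ▸ h5 with h7 | h7
  · left
    obtain ⟨h8, h9⟩ := (Bool.and_eq_true _ _ ▸ h7 : _ ∧ _)
    exact ⟨Nat.le_of_ble_eq_true h8, Nat.le_of_ble_eq_true h9⟩
  · right
    obtain ⟨q, hq1, hq2⟩ := List.any_eq_true.1 h7
    exact ⟨q, hq1, Nat.eq_of_beq_eq_true hq2⟩

lemma apex_contra {L : AddSubgroup E5} (hL : Lat L) {w : Fin 6 → E5} (hw : IsDel L w)
    {q : ℕ × List ℕ} (hq : q ∈ ApexData.apexCerts)
    (hb : ∀ k, |wt q.1 k| ≤ 7)
    (hD : DelP L w (Function.update idm 0 (lc (wt q.1) idm))) : False := by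
  obtain ⟨m, hm⟩ : ∃ m, m = MM := ⟨_, rfl⟩
  have h := List.all_eq_true.1 ApexData.apex_ok q hq
  have hbase : Good m (DelP L w) (2 ^ 28) PS.base := by
    refine ⟨idm, base_rep hm, DelP_idm hw, fun i k => ?_⟩
    unfold idm
    split_ifs <;> norm_num
  refine chkCert_sound (Ctx_of hL hw) hm [PS.base.upd 0 q.1, PS.base] ?_ q.2 h
  intro X hX
  rcases List.mem_cons.1 hX with rfl | hX
  · refine ⟨Function.update idm 0 (lc (wt q.1) idm), upd_rep hm (base_rep hm) 0 q.1, hD, ?_⟩
    intro i k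
    by_cases hi : i = 0
    · subst hi
      rw [Function.update_self]
      have : lc (wt q.1) idm k = wt q.1 k := by
        unfold lc idm; simp
      rw [this]
      exact (hb k).trans (by norm_num)
    · rw [Function.update_of_ne hi]
      unfold idm
      split_ifs <;> norm_num
  · rcases List.mem_cons.1 hX with rfl | hX
    · exact hbase
    · simp at hX

/-- sorted apex coordinates are small -/
lemma apex_sorted {L : AddSubgroup E5} (hL : LatB L) {w : Fin 6 → E5} (hw : IsDel L w) {z : E5}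
    (hz : IsDel L (Function.update w 0 z)) {a : Fin 6 → ℤ}
    (ha : hom z = ∑ k, (a k : ℝ) • hom (w k)) (ha0 : a 0 = -1)
    (h12 : a 1 ≤ a 2) (h23 : a 2 ≤ a 3) (h34 : a 3 ≤ a 4) (h45 : a 4 ≤ a 5) :
    ∀ j, |a j| ≤ 1 := by
  have hb := coord_bound hL hw hz ha
  have hsum := (hom_add_sub_smul z (fun k => (a k : ℝ)) w ha).2
  have hsum' : ∑ k, a k = 1 := by exact_mod_cast hsum
  rw [Fin.sum_univ_six, ha0] at hsum'
  have b1 := abs_le.1 (hb 1); have b2 := abs_le.1 (hb 2); have b3 := abs_le.1 (hb 3)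
  have b4 := abs_le.1 (hb 4); have b5 := abs_le.1 (hb 5)
  rcases cover_spec (a := (a 1 + 7).toNat) (b := (a 2 + 7).toNat) (c := (a 3 + 7).toNat)
    (d := (a 4 + 7).toNat) (e := (a 5 + 7).toNat) (by omega) (by omega) (by omega) (by omega)
    (by omega) (by omega) with h | ⟨q, hq, hq2⟩
  · intro j
    fin_cases j
    · simp [ha0]
    all_goals (simp only [abs_le]; simp; omega)
  · exfalso
    have hwt : wt q.1 = a := by
      rw [hq2, wt_enc5 (by omega) (by omega) (by omega) (by omega) (by omega),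
        Int.toNat_of_nonneg (by omega), Int.toNat_of_nonneg (by omega),
        Int.toNat_of_nonneg (by omega), Int.toNat_of_nonneg (by omega),
        Int.toNat_of_nonneg (by omega)]
      funext i
      fin_cases i <;> simp [ha0]
    have hx := DelP_idm hw
    refine apex_contra hL.lat hw hq (by rw [hwt]; exact hb) ?_
    rw [hwt]
    refine DelP_update hx (z := z) ?_ ?_
    · rw [pts_idm]; exact hz
    · rw [pts_idm]; exact ha

/-- a permutation sorting all the values except the one at `i` -/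
lemma exists_sort (a : Fin 6 → ℤ) (i : Fin 6) : ∃ σ : Equiv.Perm (Fin 6), σ 0 = i ∧
    a (σ 1) ≤ a (σ 2) ∧ a (σ 2) ≤ a (σ 3) ∧ a (σ 3) ≤ a (σ 4) ∧ a (σ 4) ≤ a (σ 5) := by
  let γ : Fin 5 → ℤ := fun x => a (Equiv.swap 0 i x.succ)
  let τ := Tuple.sort γ
  have hm : Monotone (γ ∘ τ) := Tuple.monotone_sort γ
  let σ : Equiv.Perm (Fin 6) := Equiv.Perm.decomposeFin.symm (i, τ)
  have h1 : ∀ x : Fin 5, a (σ x.succ) = (γ ∘ τ) x := by
    intro x
    simp [σ, γ]
  refine ⟨σ, by simp [σ], ?_, ?_, ?_, ?_⟩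
  · exact (h1 0).trans_le ((hm (by decide : (0 : Fin 5) ≤ 1)).trans_eq (h1 1).symm)
  · exact (h1 1).trans_le ((hm (by decide : (1 : Fin 5) ≤ 2)).trans_eq (h1 2).symm)
  · exact (h1 2).trans_le ((hm (by decide : (2 : Fin 5) ≤ 3)).trans_eq (h1 3).symm)
  · exact (h1 3).trans_le ((hm (by decide : (3 : Fin 5) ≤ 4)).trans_eq (h1 4).symm)

lemma update_perm (w : Fin 6 → E5) (σ : Equiv.Perm (Fin 6)) (z : E5) :
    Function.update (w ∘ σ) 0 z = Function.update w (σ 0) z ∘ σ := by
  funext k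
  by_cases hk : k = 0
  · subst hk; simp
  · have : σ k ≠ σ 0 := fun h => hk (σ.injective h)
    simp [hk, this]

lemma hom_perm {z : E5} {a : Fin 6 → ℤ} {w : Fin 6 → E5} (σ : Equiv.Perm (Fin 6))
    (h : hom z = ∑ k, (a k : ℝ) • hom (w k)) :
    hom z = ∑ k, ((a ∘ σ) k : ℝ) • hom ((w ∘ σ) k) := by
  rw [h]
  exact (Equiv.sum_comp σ (fun k => (a k : ℝ) • hom (w k))).symm

/-- apex coordinates are small -/
lemma apex_small {L : AddSubgroup E5} (hL : LatB L) {w : Fin 6 → E5} (hw : IsDel L w) {i : Fin 6}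
    {z : E5} (hz : IsDel L (Function.update w i z)) {a : Fin 6 → ℤ}
    (ha : hom z = ∑ k, (a k : ℝ) • hom (w k)) (hai : a i = -1) : ∀ j, |a j| ≤ 1 := by
  obtain ⟨σ, hσ, h12, h23, h34, h45⟩ := exists_sort a i
  have h := apex_sorted hL (hw.perm σ) (z := z) (by
    rw [update_perm, hσ]
    exact hz.perm σ) (a := a ∘ σ) (hom_perm σ ha) (by simp [hσ, hai]) h12 h23 h34 h45
  intro j
  have := h (σ.symm j)
  simpa using this

/-- completeness of the list of apices -/
def complete6 : Bool :=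
  (List.range 6).all fun i => (List.range 3).all fun a => (List.range 3).all fun b =>
    (List.range 3).all fun c => (List.range 3).all fun d => (List.range 3).all fun e =>
    (List.range 3).all fun f =>
      (!(Nat.beq (Nat.add a (Nat.add b (Nat.add c (Nat.add d (Nat.add e f))))) 7)) ||
      ((!(Nat.beq ([a, b, c, d, e, f].getD i 0) 0)) ||
        ((alphas i).any fun n => Nat.beq n (enc6 (Nat.add a 2047) (Nat.add b 2047)
          (Nat.add c 2047) (Nat.add d 2047) (Nat.add e 2047) (Nat.add f 2047))))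

lemma complete6_ok : complete6 = true := by decide +kernel

lemma complete_spec {i a b c d e f : ℕ} (hi : i < 6) (ha : a < 3) (hb : b < 3) (hc : c < 3)
    (hd : d < 3) (he : e < 3) (hf : f < 3) (hs : a + (b + (c + (d + (e + f)))) = 7)
    (h0 : [a, b, c, d, e, f].getD i 0 = 0) :
    enc6 (a + 2047) (b + 2047) (c + 2047) (d + 2047) (e + 2047) (f + 2047) ∈ alphas i := by
  have h := complete6_ok
  unfold complete6 at h
  have h1 := List.all_eq_true.1 h i (List.mem_range.2 hi)
  have h2 := List.all_eq_true.1 h1 a (List.mem_range.2 ha)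
  have h3 := List.all_eq_true.1 h2 b (List.mem_range.2 hb)
  have h4 := List.all_eq_true.1 h3 c (List.mem_range.2 hc)
  have h5 := List.all_eq_true.1 h4 d (List.mem_range.2 hd)
  have h6 := List.all_eq_true.1 h5 e (List.mem_range.2 he)
  have h7 := List.all_eq_true.1 h6 f (List.mem_range.2 hf)
  rw [beq_true h0, beq_true (a := Nat.add a (Nat.add b (Nat.add c (Nat.add d (Nat.add e f)))))
    (b := 7) hs] at h7
  simp only [Bool.not_true, Bool.false_or] at h7
  obtain ⟨q, hq1, hq2⟩ := List.any_eq_true.1 h7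
  have := Nat.eq_of_beq_eq_true hq2
  rw [this] at hq1
  exact hq1

lemma alphas_mem {i : Fin 6} {a : Fin 6 → ℤ} (ha : ∀ j, |a j| ≤ 1) (hs : ∑ k, a k = 1)
    (hi : a i = -1) : ∃ n ∈ alphas i, wt n = a := by
  have hb : ∀ j, -1 ≤ a j ∧ a j ≤ 1 := fun j => abs_le.1 (ha j)
  have hc : ∀ j, ∃ c : ℕ, c < 3 ∧ (c : ℤ) = a j + 1 := by
    intro j
    have := hb j
    exact ⟨(a j + 1).toNat, by omega, by omega⟩
  choose c hc3 hc using hc
  rw [Fin.sum_univ_six] at hs
  have hci : c i = 0 := by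
    have := hc i
    rw [hi] at this
    omega
  have c0 := hc 0; have c1 := hc 1; have c2 := hc 2; have c3 := hc 3; have c4 := hc 4
  have c5 := hc 5
  have hget : [c 0, c 1, c 2, c 3, c 4, c 5].getD i 0 = 0 := by
    rw [← hci]
    fin_cases i <;> rfl
  refine ⟨_, complete_spec i.2 (hc3 0) (hc3 1) (hc3 2) (hc3 3) (hc3 4) (hc3 5) (by omega) hget, ?_⟩
  have l0 := hc3 0; have l1 := hc3 1; have l2 := hc3 2; have l3 := hc3 3; have l4 := hc3 4
  have l5 := hc3 5
  rw [wt_enc6 (by omega) (by omega) (by omega) (by omega) (by omega) (by omega)]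
  have h : ∀ j, ((c j + 2047 : ℕ) : ℤ) - 2048 = a j := by
    intro j; have := hc j; push_cast; linarith
  rw [h, h, h, h, h, h]
  funext k
  fin_cases k <;> rfl

lemma Nb_of {L : AddSubgroup E5} (hL : LatB L) (w : Fin 6 → E5) : Nb (DelP L w) := by
  intro x hx i
  obtain ⟨z, hz1, hz2, a, ha, hai⟩ := neighbour_int hL hx.2 i
  have hsmall := apex_small hL hx.2 hz2 ha hai
  have hsum := (hom_add_sub_smul z (fun k => (a k : ℝ)) _ ha).2
  have hsum' : ∑ k, a k = 1 := by exact_mod_cast hsum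
  obtain ⟨n, hn, hn2⟩ := alphas_mem hsmall hsum' hai
  refine ⟨n, hn, ?_⟩
  rw [hn2]
  exact DelP_update hx hz2 ha

end Pool.Agent.Lib_helper17.Rogers
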