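import Mathlib

set_option autoImplicit false

/-!
# A certificate checker

An integer `6 × 6` matrix `A` with small entries is represented by the residue modulo
`MM = BB ^ 36` of the integer `∑ A k l * BB ^ (k + 6 * l)`, where `BB = 2 ^ 128`.
All computations are done with natural numbers.
-/

namespace Pool.Agent.Lib_helper17.Rogers

/-- six natural numbers and a seventh one derived from them -/
structure N6 where
  (a b c d e f s : Nat)

/-- A simplex in packed form: `P i = ∑_k x_{ik} BB^k`, `Q i = ∑_k x_{ik} BB^{6k}`,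
`R i = P i Q i`, everything modulo `MM`. -/
structure PS where
  (P Q R : N6)

/-- the base -/
def BB : Nat := Nat.pow 2 128

/-- the modulus -/
def MM : Nat := Nat.pow 2 4608

/-- six numbers together with `- 2048` times their sum -/
def mk6 (a b c d e f : Nat) : N6 :=
  ⟨a, b, c, d, e, f, Nat.mod (Nat.mul (Nat.sub MM 2048)
    (Nat.add (Nat.add (Nat.add (Nat.add (Nat.add a b) c) d) e) f)) MM⟩

/-- the base simplex -/
def PS.base : PS :=
  ⟨mk6 1 BB (Nat.pow BB 2) (Nat.pow BB 3) (Nat.pow BB 4) (Nat.pow BB 5),
   mk6 1 (Nat.pow BB 6) (Nat.pow BB 12) (Nat.pow BB 18) (Nat.pow BB 24) (Nat.pow BB 30),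
   mk6 1 (Nat.pow BB 7) (Nat.pow BB 14) (Nat.pow BB 21) (Nat.pow BB 28) (Nat.pow BB 35)⟩

/-- replace an entry -/
def N6.set : N6 → Nat → Nat → N6
  | ⟨_, b, c, d, e, f, _⟩, 0, z => mk6 z b c d e f
  | ⟨a, _, c, d, e, f, _⟩, 1, z => mk6 a z c d e f
  | ⟨a, b, _, d, e, f, _⟩, 2, z => mk6 a b z d e f
  | ⟨a, b, c, _, e, f, _⟩, 3, z => mk6 a b c z e f
  | ⟨a, b, c, d, _, f, _⟩, 4, z => mk6 a b c d z f
  | ⟨a, b, c, d, e, _, _⟩, _, z => mk6 a b c d e z

/-- Dot product with the weights encoded in `n`: the base `4096` digits of `n`, decreased by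
`2048`. -/
def dotw (n : Nat) : N6 → Nat
  | ⟨a, b, c, d, e, f, s⟩ =>
    Nat.mod (Nat.add (Nat.add (Nat.add (Nat.add (Nat.add (Nat.add s
      (Nat.mul (Nat.mod n 4096) a))
      (Nat.mul (Nat.mod (Nat.shiftRight n 12) 4096) b))
      (Nat.mul (Nat.mod (Nat.shiftRight n 24) 4096) c))
      (Nat.mul (Nat.mod (Nat.shiftRight n 36) 4096) d))
      (Nat.mul (Nat.mod (Nat.shiftRight n 48) 4096) e))
      (Nat.mul (Nat.mod (Nat.shiftRight n 60) 4096) f)) MM

/-- the sum of the six digits, i.e. the sum of the weights plus `12288` -/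
def sumw (n : Nat) : Nat :=
  Nat.add (Nat.add (Nat.add (Nat.add (Nat.add (Nat.mod n 4096)
    (Nat.mod (Nat.shiftRight n 12) 4096)) (Nat.mod (Nat.shiftRight n 24) 4096))
    (Nat.mod (Nat.shiftRight n 36) 4096)) (Nat.mod (Nat.shiftRight n 48) 4096))
    (Nat.mod (Nat.shiftRight n 60) 4096)

/-- minus the sum of the weights, modulo `MM` -/
def negW (n : Nat) : Nat := Nat.sub (Nat.add MM 12288) (sumw n)

/-- replace the vertex at position `i` by the combination of the vertices encoded by `n` -/
def PS.upd : PS → Nat → Nat → PS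
  | ⟨P, Q, R⟩, i, n =>
    ⟨P.set i (dotw n P), Q.set i (dotw n Q),
      R.set i (Nat.mod (Nat.mul (dotw n P) (dotw n Q)) MM)⟩

/-- the packed matrix attached to a simplex and weights -/
def rowN : PS → Nat → Nat
  | ⟨P, Q, R⟩, n => Nat.add (Nat.mul (dotw n P) (dotw n Q)) (Nat.mul (negW n) (dotw n R))

/-- absolute value of the sum of the weights -/
def absW (n : Nat) : Nat := Nat.add (Nat.sub (sumw n) 12288) (Nat.sub 12288 (sumw n))

/-- right hand side, positive part -/
def rhsP (n : Nat) : Nat :=
  bif Nat.beq (sumw n) 12289 then 0 else Nat.mul 38 (Nat.mul (absW n) (absW n))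

/-- right hand side, negative part -/
def rhsN (n : Nat) : Nat :=
  bif Nat.beq (sumw n) 12288 then
    (bif Nat.beq (Nat.mod n 0x1000000000000000000) 0x800800800800800800 then 0 else 75)
  else 0

/-- multiplier of an item -/
def lamN (n : Nat) : Nat := Nat.mod (Nat.shiftRight n 76) 4294967296

/-- run through the items of a certificate -/
def runItems (K : List PS) : List Nat → Nat → Nat → Nat → Option (Nat × Nat × Nat)
  | [], S, p, q => some (S, p, q)
  | n :: ns, S, p, q =>
    match K[Nat.mod (Nat.shiftRight n 72) 16]? with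
    | none => none
    | some X =>
      runItems K ns (Nat.add S (Nat.mul (lamN n) (rowN X n)))
        (Nat.add p (Nat.mul (lamN n) (rhsP n))) (Nat.add q (Nat.mul (lamN n) (rhsN n)))

/-- half the base -/
def HH : Nat := Nat.pow 2 127

/-- the sum of `HH * BB ^ j`, `j < 36` -/
def OFF : Nat := Nat.mul HH (Nat.div (Nat.sub MM 1) (Nat.sub BB 1))

/-- add up the contributions of the digits at the places `j` in the list;
`p` collects 75 times the positive, `q` 152 times the negative ones. -/
def lowD (D : Nat) : List Nat → Nat → Nat → Nat × Nat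
  | [], p, q => (p, q)
  | j :: js, p, q =>
    bif Nat.ble HH (Nat.mod (Nat.shiftRight D (Nat.mul 128 j)) BB) then
      lowD D js (Nat.add p
        (Nat.mul 75 (Nat.sub (Nat.mod (Nat.shiftRight D (Nat.mul 128 j)) BB) HH))) q
    else
      lowD D js p (Nat.add q
        (Nat.mul 152 (Nat.sub HH (Nat.mod (Nat.shiftRight D (Nat.mul 128 j)) BB))))

/-- the places `k + 6 l`, `k < l` -/
def places : List Nat := [6, 12, 13, 18, 19, 20, 24, 25, 26, 27, 30, 31, 32, 33, 34]

/-- the final comparison of a certificate -/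
def fin4 (D p q : Nat) : Bool :=
  match lowD D places 0 0 with
  | (p', q') => Nat.blt (Nat.add p q') (Nat.add p' q)

/-- the final comparison of a certificate -/
def finO : Option (Nat × Nat × Nat) → Bool
  | none => false
  | some (S, p, q) => fin4 (Nat.mod (Nat.add S OFF) MM) p q

/-- check a certificate -/
def chkCert (K : List PS) (c : List Nat) : Bool :=
  bif Nat.ble c.length 32 then finO (runItems K c 0 0 0) else false

/-- the weights encoding the possible apices opposite to the vertex `i` -/
def alphas : Nat → List Nat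
  | 0 => [0x8018018018007ff7ff, 0x8018018008017ff7ff, 0x8018008018017ff7ff, 0x8008018018017ff7ff,
    0x8018018017ff8007ff, 0x8018018008008007ff, 0x8018008018008007ff, 0x8008018018008007ff,
    0x8018017ff8018007ff, 0x8018008008018007ff, 0x8008018008018007ff, 0x8017ff8018018007ff,
    0x8008008018018007ff, 0x7ff8018018018007ff, 0x8018018007ff8017ff, 0x8018008017ff8017ff,
    0x8008018017ff8017ff, 0x8018017ff8008017ff, 0x8018008008008017ff, 0x8008018008008017ff,
    0x8017ff8018008017ff, 0x8008008018008017ff, 0x7ff8018018008017ff, 0x8018007ff8018017ff,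
    0x8008017ff8018017ff, 0x8017ff8008018017ff, 0x8008008008018017ff, 0x7ff8018008018017ff,
    0x8007ff8018018017ff, 0x7ff8008018018017ff]
  | 1 => [0x8018018018007ff7ff, 0x8018018008017ff7ff, 0x8018008018017ff7ff, 0x8008018018017ff7ff,
    0x8018018017ff7ff800, 0x8018018008007ff800, 0x8018008018007ff800, 0x8008018018007ff800,
    0x8018017ff8017ff800, 0x8018008008017ff800, 0x8008018008017ff800, 0x8017ff8018017ff800,
    0x8008008018017ff800, 0x7ff8018018017ff800, 0x8018018007ff7ff801, 0x8018008017ff7ff801,
    0x8008018017ff7ff801, 0x8018017ff8007ff801, 0x8018008008007ff801, 0x8008018008007ff801,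
    0x8017ff8018007ff801, 0x8008008018007ff801, 0x7ff8018018007ff801, 0x8018007ff8017ff801,
    0x8008017ff8017ff801, 0x8017ff8008017ff801, 0x8008008008017ff801, 0x7ff8018008017ff801,
    0x8007ff8018017ff801, 0x7ff8008018017ff801]
  | 2 => [0x8018018017ff8007ff, 0x8018018007ff8017ff, 0x8018008017ff8017ff, 0x8008018017ff8017ff,
    0x8018018017ff7ff800, 0x8018018007ff800800, 0x8018008017ff800800, 0x8008018017ff800800,
    0x8018017ff7ff801800, 0x8018008007ff801800, 0x8008018007ff801800, 0x8017ff8017ff801800,
    0x8008008017ff801800, 0x7ff8018017ff801800, 0x8018018007ff7ff801, 0x8018008017ff7ff801,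
    0x8008018017ff7ff801, 0x8018017ff7ff800801, 0x8018008007ff800801, 0x8008018007ff800801,
    0x8017ff8017ff800801, 0x8008008017ff800801, 0x7ff8018017ff800801, 0x8018007ff7ff801801,
    0x8008017ff7ff801801, 0x8017ff8007ff801801, 0x8008008007ff801801, 0x7ff8018007ff801801,
    0x8007ff8017ff801801, 0x7ff8008017ff801801]
  | 3 => [0x8018017ff8018007ff, 0x8018017ff8008017ff, 0x8018007ff8018017ff, 0x8008017ff8018017ff,
    0x8018017ff8017ff800, 0x8018017ff800800800, 0x8018007ff801800800, 0x8008017ff801800800,
    0x8018017ff7ff801800, 0x8018007ff800801800, 0x8008017ff800801800, 0x8017ff7ff801801800,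
    0x8008007ff801801800, 0x7ff8017ff801801800, 0x8018017ff8007ff801, 0x8018007ff8017ff801,
    0x8008017ff8017ff801, 0x8018017ff7ff800801, 0x8018007ff800800801, 0x8008017ff800800801,
    0x8017ff7ff801800801, 0x8008007ff801800801, 0x7ff8017ff801800801, 0x8018007ff7ff801801,
    0x8008017ff7ff801801, 0x8017ff7ff800801801, 0x8008007ff800801801, 0x7ff8017ff800801801,
    0x8007ff7ff801801801, 0x7ff8007ff801801801]
  | 4 => [0x8017ff8018018007ff, 0x8017ff8018008017ff, 0x8017ff8008018017ff, 0x8007ff8018018017ff,
    0x8017ff8018017ff800, 0x8017ff801800800800, 0x8017ff800801800800, 0x8007ff801801800800,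
    0x8017ff8017ff801800, 0x8017ff800800801800, 0x8007ff801800801800, 0x8017ff7ff801801800,
    0x8007ff800801801800, 0x7ff7ff801801801800, 0x8017ff8018007ff801, 0x8017ff8008017ff801,
    0x8007ff8018017ff801, 0x8017ff8017ff800801, 0x8017ff800800800801, 0x8007ff801800800801,
    0x8017ff7ff801800801, 0x8007ff800801800801, 0x7ff7ff801801800801, 0x8017ff8007ff801801,
    0x8007ff8017ff801801, 0x8017ff7ff800801801, 0x8007ff800800801801, 0x7ff7ff801800801801,
    0x8007ff7ff801801801, 0x7ff7ff800801801801]
  | _ => [0x7ff8018018018007ff, 0x7ff8018018008017ff, 0x7ff8018008018017ff, 0x7ff8008018018017ff,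
    0x7ff8018018017ff800, 0x7ff801801800800800, 0x7ff801800801800800, 0x7ff800801801800800,
    0x7ff8018017ff801800, 0x7ff801800800801800, 0x7ff800801800801800, 0x7ff8017ff801801800,
    0x7ff800800801801800, 0x7ff7ff801801801800, 0x7ff8018018007ff801, 0x7ff8018008017ff801,
    0x7ff8008018017ff801, 0x7ff8018017ff800801, 0x7ff801800800800801, 0x7ff800801800800801,
    0x7ff8017ff801800801, 0x7ff800800801800801, 0x7ff7ff801801800801, 0x7ff8018007ff801801,
    0x7ff8008017ff801801, 0x7ff8017ff800801801, 0x7ff800800800801801, 0x7ff7ff801800801801,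
    0x7ff8007ff801801801, 0x7ff7ff800801801801]

/-- A tree of case distinctions: a list of siblings, each excluded either by a certificate or by
an expansion at the facet opposite to vertex `i` of the `k`-th simplex. -/
inductive Tr where
  | nil : Tr
  | cert : List Nat → Tr → Tr
  | node : Nat → Nat → Tr → Tr → Tr

/-- check a tree -/
def chkT : Tr → List PS → PS → Nat → List Nat → Bool
  | .nil, _, _, _, al => al.isEmpty
  | .cert _ _, _, _, _, [] => false
  | .cert c rest, K, X, i, a :: as =>
    match chkCert (X.upd i a :: K) c with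
    | true => chkT rest K X i as
    | false => false
  | .node _ _ _ _, _, _, _, [] => false
  | .node k j ch rest, K, X, i, a :: as =>
    match (X.upd i a :: K)[k]?, Nat.blt j 6, Nat.ble K.length 10 with
    | some Y, true, true =>
      match chkT ch (X.upd i a :: K) Y j (alphas j) with
      | true => chkT rest K X i as
      | false => false
    | _, _, _ => false

end Pool.Agent.Lib_helper17.Rogers
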