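import Pool.Agent.Lib_helper17.Rogers.Chk

set_option autoImplicit false

open Finset

namespace Pool.Agent.Lib_helper17.Rogers

lemma MM_eq : MM = 2 ^ 4608 := rfl

lemma BB_eq : BB = 2 ^ 128 := rfl

lemma HH_eq : HH = 2 ^ 127 := rfl

lemma BB_pow : BB ^ 36 = MM := by
  rw [BB_eq, MM_eq, ← pow_mul]

lemma le_MM : 20000000 ≤ MM := by
  rw [MM_eq]
  calc 20000000 ≤ 2 ^ 25 := by norm_num
    _ ≤ 2 ^ 4608 := Nat.pow_le_pow_right (by norm_num) (by norm_num)

attribute [local irreducible] MM BB HH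

lemma nmod (a b : ℕ) : Nat.mod a b = a % b := (rfl)
lemma nshr (a b : ℕ) : Nat.shiftRight a b = a >>> b := (rfl)
lemma nadd (a b : ℕ) : Nat.add a b = a + b := (rfl)
lemma nmul (a b : ℕ) : Nat.mul a b = a * b := (rfl)
lemma nsub (a b : ℕ) : Nat.sub a b = a - b := (rfl)
lemma npow (a b : ℕ) : Nat.pow a b = a ^ b := (rfl)
lemma ndiv (a b : ℕ) : Nat.div a b = a / b := (rfl)

/-- the weights encoded by `n` -/
def wt (n : ℕ) (i : Fin 6) : ℤ := ((n >>> (12 * (i : ℕ))) % 4096 : ℕ) - 2048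

lemma wt_bound (n : ℕ) (i : Fin 6) : |wt n i| ≤ 2048 := by
  unfold wt
  have h : (n >>> (12 * (i : ℕ))) % 4096 < 4096 := Nat.mod_lt _ (by norm_num)
  rw [abs_le]
  constructor <;> omega

/-- packing of a vector with steps `1` -/
def pkv (y : Fin 6 → ℤ) : ℤ := ∑ k : Fin 6, y k * (BB : ℤ) ^ (k : ℕ)

/-- packing of a vector with steps `6` -/
def qkv (y : Fin 6 → ℤ) : ℤ := ∑ k : Fin 6, y k * (BB : ℤ) ^ (6 * (k : ℕ))

/-- packing of a matrix -/
def pkm (A : Fin 6 → Fin 6 → ℤ) : ℤ :=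
  ∑ k : Fin 6, ∑ l : Fin 6, A k l * (BB : ℤ) ^ ((k : ℕ) + 6 * (l : ℕ))

/-- linear combination of the rows of `x` -/
def lc (w : Fin 6 → ℤ) (x : Fin 6 → Fin 6 → ℤ) : Fin 6 → ℤ := fun k => ∑ i, w i * x i k

/-- the matrix attached to a simplex and weights -/
def Mat (x : Fin 6 → Fin 6 → ℤ) (w : Fin 6 → ℤ) : Fin 6 → Fin 6 → ℤ := fun k l =>
  lc w x k * lc w x l - (∑ i, w i) * ∑ i, w i * (x i k * x i l)

lemma pkv_lc (w : Fin 6 → ℤ) (x : Fin 6 → Fin 6 → ℤ) : pkv (lc w x) = ∑ i, w i * pkv (x i) := by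
  unfold pkv lc
  simp only [Finset.sum_mul, Finset.mul_sum]
  rw [Finset.sum_comm]
  simp only [mul_assoc]

lemma qkv_lc (w : Fin 6 → ℤ) (x : Fin 6 → Fin 6 → ℤ) : qkv (lc w x) = ∑ i, w i * qkv (x i) := by
  unfold qkv lc
  simp only [Finset.sum_mul, Finset.mul_sum]
  rw [Finset.sum_comm]
  simp only [mul_assoc]

lemma pkm_outer (y z : Fin 6 → ℤ) : pkm (fun k l => y k * z l) = pkv y * qkv z := by
  unfold pkm pkv qkv
  rw [Finset.sum_mul_sum]
  refine Finset.sum_congr rfl fun k _ => Finset.sum_congr rfl fun l _ => ?_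
  rw [pow_add]; ring

lemma pkm_add (A A' : Fin 6 → Fin 6 → ℤ) : pkm (fun k l => A k l + A' k l) = pkm A + pkm A' := by
  unfold pkm
  simp only [add_mul, Finset.sum_add_distrib]

lemma pkm_smul (c : ℤ) (A : Fin 6 → Fin 6 → ℤ) : pkm (fun k l => c * A k l) = c * pkm A := by
  unfold pkm
  simp only [Finset.mul_sum, mul_assoc]

lemma pkm_sum (A : Fin 6 → Fin 6 → Fin 6 → ℤ) :
    pkm (fun k l => ∑ i, A i k l) = ∑ i, pkm (A i) := by
  unfold pkm
  simp only [Finset.sum_mul]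
  calc ∑ k, ∑ l, ∑ i, A i k l * (BB : ℤ) ^ ((k : ℕ) + 6 * (l : ℕ))
      = ∑ k, ∑ i, ∑ l, A i k l * (BB : ℤ) ^ ((k : ℕ) + 6 * (l : ℕ)) :=
        Finset.sum_congr rfl fun k _ => Finset.sum_comm
    _ = _ := Finset.sum_comm

lemma pkm_Mat (x : Fin 6 → Fin 6 → ℤ) (w : Fin 6 → ℤ) :
    pkm (Mat x w) = (∑ i, w i * pkv (x i)) * (∑ i, w i * qkv (x i)) -
      (∑ i, w i) * ∑ i, w i * (pkv (x i) * qkv (x i)) := by
  have e : Mat x w = fun k l => (fun k l => lc w x k * lc w x l) k l +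
      (fun k l => (-(∑ i, w i)) * (fun k l => ∑ i, (fun i k l => w i * (x i k * x i l)) i k l) k l)
        k l := by
    funext k l
    simp only [Mat]; ring
  rw [e, pkm_add, pkm_smul, pkm_sum, pkm_outer, pkv_lc, qkv_lc]
  have e2 : ∀ i, pkm (fun k l => w i * (x i k * x i l)) = w i * (pkv (x i) * qkv (x i)) := by
    intro i
    rw [pkm_smul (w i) (fun k l => x i k * x i l), pkm_outer]
  simp only [e2]
  ring

/-- six residues represent six integers -/
structure RepN (m : ℕ) (P : N6) (p : Fin 6 → ℤ) : Prop where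
  a : (P.a : ZMod m) = p 0
  b : (P.b : ZMod m) = p 1
  c : (P.c : ZMod m) = p 2
  d : (P.d : ZMod m) = p 3
  e : (P.e : ZMod m) = p 4
  f : (P.f : ZMod m) = p 5
  s : (P.s : ZMod m) = -2048 * (p 0 + p 1 + p 2 + p 3 + p 4 + p 5)

lemma cast_MM {m : ℕ} (hm : m = MM) : ((MM : ℕ) : ZMod m) = 0 := by
  rw [← hm]; exact ZMod.natCast_self m

lemma cast_mod {m : ℕ} (hm : m = MM) (a : ℕ) : ((a % MM : ℕ) : ZMod m) = a := by
  rw [← hm]; exact ZMod.natCast_mod a m

lemma mk6_rep {m : ℕ} (hm : m = MM) {a b c d e f : ℕ} {p : Fin 6 → ℤ} (ha : (a : ZMod m) = p 0)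
    (hb : (b : ZMod m) = p 1) (hc : (c : ZMod m) = p 2) (hd : (d : ZMod m) = p 3)
    (he : (e : ZMod m) = p 4) (hf : (f : ZMod m) = p 5) : RepN m (mk6 a b c d e f) p := by
  refine ⟨ha, hb, hc, hd, he, hf, ?_⟩
  simp only [mk6, nmod, nadd, nmul, nsub]
  rw [cast_mod hm, Nat.cast_mul, Nat.cast_sub (by have := le_MM; omega), cast_MM hm]
  push_cast
  rw [ha, hb, hc, hd, he, hf]
  ring

lemma set_rep {m : ℕ} (hm : m = MM) {P : N6} {p : Fin 6 → ℤ} (h : RepN m P p) (i : Fin 6) {z : ℕ} {ζ : ℤ}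
    (hz : (z : ZMod m) = ζ) : RepN m (P.set i z) (Function.update p i ζ) := by
  obtain ⟨a, b, c, d, e, f, s⟩ := P
  obtain ⟨ha, hb, hc, hd, he, hf, hs⟩ := h
  fin_cases i
  · exact mk6_rep hm (by simpa using hz) (by simpa using hb) (by simpa using hc) (by simpa using hd)
      (by simpa using he) (by simpa using hf)
  · exact mk6_rep hm (by simpa using ha) (by simpa using hz) (by simpa using hc) (by simpa using hd)
      (by simpa using he) (by simpa using hf)
  · exact mk6_rep hm (by simpa using ha) (by simpa using hb) (by simpa using hz) (by simpa using hd)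
      (by simpa using he) (by simpa using hf)
  · exact mk6_rep hm (by simpa using ha) (by simpa using hb) (by simpa using hc) (by simpa using hz)
      (by simpa using he) (by simpa using hf)
  · exact mk6_rep hm (by simpa using ha) (by simpa using hb) (by simpa using hc) (by simpa using hd)
      (by simpa using hz) (by simpa using hf)
  · exact mk6_rep hm (by simpa using ha) (by simpa using hb) (by simpa using hc) (by simpa using hd)
      (by simpa using he) (by simpa using hz)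

lemma dotw_rep {m : ℕ} (hm : m = MM) {P : N6} {p : Fin 6 → ℤ} (h : RepN m P p) (n : ℕ) :
    (dotw n P : ZMod m) = ((∑ i, wt n i * p i : ℤ) : ZMod m) := by
  obtain ⟨a, b, c, d, e, f, s⟩ := P
  obtain ⟨ha, hb, hc, hd, he, hf, hs⟩ := h
  simp only at ha hb hc hd he hf hs
  simp only [dotw, nmod, nadd, nmul, nshr]
  have w0 : wt n 0 = ((n % 4096 : ℕ) : ℤ) - 2048 := by simp [wt]
  have w1 : wt n 1 = (((n >>> 12) % 4096 : ℕ) : ℤ) - 2048 := by simp [wt]
  have w2 : wt n 2 = (((n >>> 24) % 4096 : ℕ) : ℤ) - 2048 := by simp [wt]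
  have w3 : wt n 3 = (((n >>> 36) % 4096 : ℕ) : ℤ) - 2048 := by simp [wt]
  have w4 : wt n 4 = (((n >>> 48) % 4096 : ℕ) : ℤ) - 2048 := by simp [wt]
  have w5 : wt n 5 = (((n >>> 60) % 4096 : ℕ) : ℤ) - 2048 := by simp [wt]
  rw [cast_mod hm, Fin.sum_univ_six, w0, w1, w2, w3, w4, w5]
  generalize n % 4096 = u0
  generalize (n >>> 12) % 4096 = u1
  generalize (n >>> 24) % 4096 = u2
  generalize (n >>> 36) % 4096 = u3
  generalize (n >>> 48) % 4096 = u4
  generalize (n >>> 60) % 4096 = u5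
  push_cast
  rw [ha, hb, hc, hd, he, hf, hs]
  ring

/-- a packed simplex represents an integer matrix -/
structure RepS (m : ℕ) (X : PS) (x : Fin 6 → Fin 6 → ℤ) : Prop where
  P : RepN m X.P (fun i => pkv (x i))
  Q : RepN m X.Q (fun i => qkv (x i))
  R : RepN m X.R (fun i => pkv (x i) * qkv (x i))

/-- the identity matrix -/
def idm : Fin 6 → Fin 6 → ℤ := fun i k => if k = i then 1 else 0

lemma pkv_idm (i : Fin 6) : pkv (idm i) = (BB : ℤ) ^ (i : ℕ) := by
  simp [pkv, idm]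

lemma qkv_idm (i : Fin 6) : qkv (idm i) = (BB : ℤ) ^ (6 * (i : ℕ)) := by
  simp [qkv, idm]

lemma base_rep {m : ℕ} (hm : m = MM) : RepS m PS.base idm := by
  have h1 : RepN m (mk6 1 BB (Nat.pow BB 2) (Nat.pow BB 3) (Nat.pow BB 4) (Nat.pow BB 5))
      (fun i => pkv (idm i)) := by
    apply mk6_rep hm <;> simp only [pkv_idm, npow] <;> push_cast <;> simp
  have h2 : RepN m (mk6 1 (Nat.pow BB 6) (Nat.pow BB 12) (Nat.pow BB 18) (Nat.pow BB 24)
      (Nat.pow BB 30)) (fun i => qkv (idm i)) := by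
    apply mk6_rep hm <;> simp only [qkv_idm, npow] <;> push_cast <;> simp
  have h3 : RepN m (mk6 1 (Nat.pow BB 7) (Nat.pow BB 14) (Nat.pow BB 21) (Nat.pow BB 28)
      (Nat.pow BB 35)) (fun i => pkv (idm i) * qkv (idm i)) := by
    apply mk6_rep hm <;> simp only [pkv_idm, qkv_idm, npow, ← pow_add] <;> push_cast <;> simp
  unfold PS.base
  exact ⟨h1, h2, h3⟩

lemma upd_rep {m : ℕ} (hm : m = MM) {X : PS} {x : Fin 6 → Fin 6 → ℤ} (h : RepS m X x) (i : Fin 6) (n : ℕ) :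
    RepS m (X.upd i n) (Function.update x i (lc (wt n) x)) := by
  obtain ⟨P, Q, R⟩ := X
  obtain ⟨hP, hQ, hR⟩ := h
  have e1 : (fun j => pkv (Function.update x i (lc (wt n) x) j)) =
      Function.update (fun j => pkv (x j)) i (pkv (lc (wt n) x)) := by
    funext j; by_cases hj : j = i
    · subst hj; simp
    · simp [Function.update_of_ne hj]
  have e2 : (fun j => qkv (Function.update x i (lc (wt n) x) j)) =
      Function.update (fun j => qkv (x j)) i (qkv (lc (wt n) x)) := by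
    funext j; by_cases hj : j = i
    · subst hj; simp
    · simp [Function.update_of_ne hj]
  have e3 : (fun j => pkv (Function.update x i (lc (wt n) x) j) *
      qkv (Function.update x i (lc (wt n) x) j)) =
      Function.update (fun j => pkv (x j) * qkv (x j)) i
        (pkv (lc (wt n) x) * qkv (lc (wt n) x)) := by
    funext j; by_cases hj : j = i
    · subst hj; simp
    · simp [Function.update_of_ne hj]
  have d1 : (dotw n P : ZMod m) = ((pkv (lc (wt n) x) : ℤ) : ZMod m) := by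
    rw [dotw_rep hm hP n, pkv_lc]
  have d2 : (dotw n Q : ZMod m) = ((qkv (lc (wt n) x) : ℤ) : ZMod m) := by
    rw [dotw_rep hm hQ n, qkv_lc]
  refine ⟨?_, ?_, ?_⟩
  · rw [e1]; exact set_rep hm hP i d1
  · rw [e2]; exact set_rep hm hQ i d2
  · rw [e3]
    apply set_rep hm hR i
    simp only [nmod, nmul]
    rw [cast_mod hm]
    push_cast
    rw [d1, d2]

lemma sumw_eq (n : ℕ) : (sumw n : ℤ) = (∑ i, wt n i) + 12288 := by
  rw [Fin.sum_univ_six]
  simp only [sumw, nmod, nadd, nshr]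
  simp [wt]
  ring

lemma sumw_le (n : ℕ) : sumw n ≤ 24576 := by
  simp only [sumw, nmod, nadd, nshr]
  omega

lemma negW_rep {m : ℕ} (hm : m = MM) (n : ℕ) : (negW n : ZMod m) = ((-(∑ i, wt n i) : ℤ) : ZMod m) := by
  have h := sumw_eq n
  have h2 := sumw_le n
  have h3 : ((MM + 12288 - sumw n : ℕ) : ℤ) = (MM : ℤ) - ∑ i, wt n i := by
    have := le_MM
    omega
  simp only [negW, nadd, nsub]
  have h4 : ((MM + 12288 - sumw n : ℕ) : ZMod m) =
    (((MM + 12288 - sumw n : ℕ) : ℤ) : ZMod m) := by push_cast; rfl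
  rw [h4, h3]
  push_cast
  rw [cast_MM hm]
  ring

lemma rowN_rep {m : ℕ} (hm : m = MM) {X : PS} {x : Fin 6 → Fin 6 → ℤ} (h : RepS m X x) (n : ℕ) :
    (rowN X n : ZMod m) = ((pkm (Mat x (wt n)) : ℤ) : ZMod m) := by
  obtain ⟨P, Q, R⟩ := X
  obtain ⟨hP, hQ, hR⟩ := h
  simp only [rowN, nadd, nmul]
  rw [pkm_Mat]
  push_cast
  rw [dotw_rep hm hP n, dotw_rep hm hQ n, dotw_rep hm hR n, negW_rep hm]
  push_cast
  ring

end Pool.Agent.Lib_helper17.Rogers
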