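import Pool.Agent.Lib_helper17.Rogers.ChkSound

set_option autoImplicit false

open Finset

namespace Pool.Agent.Lib_helper17.Rogers

attribute [local irreducible] MM BB HH

/-! ### digits -/

lemma digit_extract {B : ℕ} (hB : 0 < B) : ∀ (i n : ℕ) (E : ℕ → ℕ), (∀ j, E j < B) → i < n →
    (∑ j ∈ range n, E j * B ^ j) / B ^ i % B = E i := by
  intro i
  induction i with
  | zero =>
    intro n E hE hi
    obtain ⟨n, rfl⟩ : ∃ k, n = k + 1 := ⟨n - 1, by omega⟩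
    rw [sum_range_succ', pow_zero, Nat.div_one, mul_one]
    have : ∑ j ∈ range n, E (j + 1) * B ^ (j + 1) = B * ∑ j ∈ range n, E (j + 1) * B ^ j := by
      rw [mul_sum]; exact sum_congr rfl fun j _ => by ring
    rw [this, Nat.mul_add_mod, Nat.mod_eq_of_lt (hE 0)]
  | succ i ih =>
    intro n E hE hi
    obtain ⟨n, rfl⟩ : ∃ k, n = k + 1 := ⟨n - 1, by omega⟩
    have : ∑ j ∈ range n, E (j + 1) * B ^ (j + 1) = B * ∑ j ∈ range n, E (j + 1) * B ^ j := by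
      rw [mul_sum]; exact sum_congr rfl fun j _ => by ring
    rw [sum_range_succ', this, pow_zero, mul_one, pow_succ', ← Nat.div_div_eq_div_mul,
      Nat.mul_add_div hB, Nat.div_eq_of_lt (hE 0), add_zero]
    exact ih n (fun j => E (j + 1)) (fun j => hE (j + 1)) (by omega)

lemma sum_digits_lt {B : ℕ} (hB : 0 < B) (n : ℕ) (E : ℕ → ℕ) (hE : ∀ j, E j < B) :
    ∑ j ∈ range n, E j * B ^ j < B ^ n := by
  induction n with
  | zero => simp
  | succ n ih =>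
    rw [sum_range_succ, pow_succ]
    have h1 : E n * B ^ n ≤ (B - 1) * B ^ n := Nat.mul_le_mul_right _ (by have := hE n; omega)
    have h2 : B ^ n * B = (B - 1) * B ^ n + B ^ n := by
      obtain ⟨b, rfl⟩ : ∃ b, B = b + 1 := ⟨B - 1, by omega⟩
      simp; ring
    omega

lemma OFF_eq : OFF = ∑ j ∈ range 36, HH * BB ^ j := by
  rw [← mul_sum, Nat.geomSum_eq (by rw [BB_eq]; norm_num), BB_pow]
  unfold OFF
  simp only [nmul, ndiv, nsub]

/-- the digit function of a matrix -/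
def Edig (A : Fin 6 → Fin 6 → ℤ) (j : ℕ) : ℕ :=
  if h : j < 36 then
    (A ⟨j % 6, Nat.mod_lt _ (by norm_num)⟩ ⟨j / 6, by omega⟩ + (HH : ℤ)).toNat else 0

lemma Edig_cast {A : Fin 6 → Fin 6 → ℤ} (hA : ∀ k l, |A k l| < (HH : ℤ)) (k l : Fin 6) :
    (Edig A ((k : ℕ) + 6 * (l : ℕ)) : ℤ) = A k l + HH := by
  have h : (k : ℕ) + 6 * (l : ℕ) < 36 := by omega
  have h1 : (⟨((k : ℕ) + 6 * (l : ℕ)) % 6, Nat.mod_lt _ (by norm_num)⟩ : Fin 6) = k := by
    apply Fin.ext; simp only []; omega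
  have h2 : (⟨((k : ℕ) + 6 * (l : ℕ)) / 6, by omega⟩ : Fin 6) = l := by
    apply Fin.ext; simp only []; omega
  unfold Edig
  rw [dif_pos h, h1, h2, Int.toNat_of_nonneg]
  have := (abs_lt.1 (hA k l)).1
  linarith

lemma BB_HH : BB = 2 * HH := by rw [BB_eq, HH_eq]; norm_num

lemma Edig_lt {A : Fin 6 → Fin 6 → ℤ} (hA : ∀ k l, |A k l| < (HH : ℤ)) (j : ℕ) :
    Edig A j < BB := by
  unfold Edig
  split_ifs with h
  · have h1 := abs_lt.1 (hA ⟨j % 6, Nat.mod_lt _ (by norm_num)⟩ ⟨j / 6, by omega⟩)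
    rw [BB_HH]
    omega
  · rw [BB_eq]; norm_num

lemma sum_fin_range (f : ℕ → ℤ) :
    ∑ k : Fin 6, ∑ l : Fin 6, f ((k : ℕ) + 6 * (l : ℕ)) = ∑ j ∈ range 36, f j := by
  simp only [Fin.sum_univ_six, sum_range_succ, sum_range_zero]
  simp
  ring

lemma pkm_add_OFF {A : Fin 6 → Fin 6 → ℤ} (hA : ∀ k l, |A k l| < (HH : ℤ)) :
    pkm A + (OFF : ℤ) = ((∑ j ∈ range 36, Edig A j * BB ^ j : ℕ) : ℤ) := by
  have h1 : ((∑ j ∈ range 36, Edig A j * BB ^ j : ℕ) : ℤ) =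
      ∑ k : Fin 6, ∑ l : Fin 6, (A k l + HH) * (BB : ℤ) ^ ((k : ℕ) + 6 * (l : ℕ)) := by
    push_cast
    rw [← sum_fin_range (fun j => (Edig A j : ℤ) * (BB : ℤ) ^ j)]
    refine sum_congr rfl fun k _ => sum_congr rfl fun l _ => ?_
    rw [Edig_cast hA]
  have h2 : (OFF : ℤ) = ∑ k : Fin 6, ∑ l : Fin 6, (HH : ℤ) * (BB : ℤ) ^ ((k : ℕ) + 6 * (l : ℕ)) := by
    rw [OFF_eq]
    push_cast
    rw [← sum_fin_range (fun j => (HH : ℤ) * (BB : ℤ) ^ j)]
  rw [h1, h2, pkm, ← sum_add_distrib]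
  refine sum_congr rfl fun k _ => ?_
  rw [← sum_add_distrib]
  exact sum_congr rfl fun l _ => by ring

lemma digit_of {m : ℕ} (hm : m = MM) {A : Fin 6 → Fin 6 → ℤ} (hA : ∀ k l, |A k l| < (HH : ℤ))
    {S : ℕ} (hS : (S : ZMod m) = ((pkm A : ℤ) : ZMod m)) (k l : Fin 6) :
    ((((S + OFF) % MM) >>> (128 * ((k : ℕ) + 6 * (l : ℕ))) % BB : ℕ) : ℤ) = A k l + HH := by
  have hBpos : 0 < BB := by rw [BB_eq]; norm_num
  have hlt : ∑ j ∈ range 36, Edig A j * BB ^ j < MM := by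
    rw [← BB_pow]; exact sum_digits_lt hBpos 36 _ (Edig_lt hA)
  have hD : (S + OFF) % MM = ∑ j ∈ range 36, Edig A j * BB ^ j := by
    have h1 : (((S + OFF : ℕ) : ℤ) : ZMod m) =
        (((∑ j ∈ range 36, Edig A j * BB ^ j : ℕ) : ℤ) : ZMod m) := by
      rw [← pkm_add_OFF hA]
      push_cast
      rw [hS]
    rw [ZMod.intCast_eq_intCast_iff] at h1
    have h2 := (Int.natCast_modEq_iff (a := S + OFF)
      (b := ∑ j ∈ range 36, Edig A j * BB ^ j) (n := m)).1 h1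
    rw [hm] at h2
    rw [h2, Nat.mod_eq_of_lt hlt]
  rw [hD, Nat.shiftRight_eq_div_pow, pow_mul, ← BB_eq,
    digit_extract hBpos _ 36 _ (Edig_lt hA) (by omega), Edig_cast hA]

/-! ### the final comparison -/

/-- 75 times the minimum of `t x` over `1 ≤ x ≤ 152/75` -/
def lowv (t : ℤ) : ℤ := if 0 ≤ t then 75 * t else 152 * t

lemma lowv_le {t : ℤ} {x : ℝ} (h1 : 1 ≤ x) (h2 : x ≤ 152 / 75) : (lowv t : ℝ) ≤ 75 * (t * x) := by
  unfold lowv
  split_ifs with h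
  · have : (0 : ℝ) ≤ t := by exact_mod_cast h
    push_cast
    nlinarith
  · have : (t : ℝ) ≤ 0 := by exact_mod_cast (not_le.1 h).le
    push_cast
    nlinarith

lemma lowD_eq (D : ℕ) (js : List ℕ) : ∀ p q : ℕ,
    (((lowD D js p q).1 : ℕ) : ℤ) - ((lowD D js p q).2 : ℕ) =
      (p : ℤ) - q + (js.map fun j => lowv (((D >>> (128 * j) % BB : ℕ) : ℤ) - HH)).sum := by
  induction js with
  | nil => intro p q; simp [lowD]
  | cons j js ih =>
    intro p q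
    simp only [lowD, nmod, nshr, nmul, nsub, nadd, List.map_cons, List.sum_cons]
    rcases hb : Nat.ble HH (D >>> (128 * j) % BB) with _ | _
    · have h : ¬ HH ≤ D >>> (128 * j) % BB := by
        intro h; rw [Nat.ble_eq_true_of_le h] at hb; exact Bool.noConfusion hb
      simp only [cond_false]
      rw [ih, lowv, if_neg (by omega)]
      omega
    · have h : HH ≤ D >>> (128 * j) % BB := Nat.le_of_ble_eq_true hb
      simp only [cond_true]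
      rw [ih, lowv, if_pos (by omega)]
      omega

/-- the linear form of a matrix -/
noncomputable def Phi (d : Fin 6 → Fin 6 → ℝ) (A : Fin 6 → Fin 6 → ℤ) : ℝ :=
  A 0 1 * d 0 1 + A 0 2 * d 0 2 + A 1 2 * d 1 2 + A 0 3 * d 0 3 + A 1 3 * d 1 3 + A 2 3 * d 2 3 +
  A 0 4 * d 0 4 + A 1 4 * d 1 4 + A 2 4 * d 2 4 + A 3 4 * d 3 4 + A 0 5 * d 0 5 + A 1 5 * d 1 5 +
  A 2 5 * d 2 5 + A 3 5 * d 3 5 + A 4 5 * d 4 5

lemma Phi_lower_aux {d : Fin 6 → Fin 6 → ℝ} (lo : ∀ k l, k < l → 1 ≤ d k l)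
    (hi : ∀ k l, k < l → d k l ≤ 152 / 75) {A : Fin 6 → Fin 6 → ℤ} {D : ℕ}
    (hd : ∀ k l : Fin 6, ((D >>> (128 * ((k : ℕ) + 6 * (l : ℕ))) % BB : ℕ) : ℤ) = A k l + HH) :
    (((lowD D places 0 0).1 : ℕ) : ℝ) - ((lowD D places 0 0).2 : ℕ) ≤ 75 * Phi d A := by
  have h := lowD_eq D places 0 0
  have f : ∀ (k l : Fin 6) (j : ℕ), j = (k : ℕ) + 6 * (l : ℕ) →
      lowv (((D >>> (128 * j) % BB : ℕ) : ℤ) - HH) = lowv (A k l) := by
    intro k l j hj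
    rw [hj, hd k l, add_sub_cancel_right]
  have e : (places.map fun j => lowv (((D >>> (128 * j) % BB : ℕ) : ℤ) - HH)).sum =
      lowv (A 0 1) + lowv (A 0 2) + lowv (A 1 2) + lowv (A 0 3) + lowv (A 1 3) + lowv (A 2 3) +
      lowv (A 0 4) + lowv (A 1 4) + lowv (A 2 4) + lowv (A 3 4) + lowv (A 0 5) + lowv (A 1 5) +
      lowv (A 2 5) + lowv (A 3 5) + lowv (A 4 5) := by
    simp only [places, List.map_cons, List.map_nil, List.sum_cons, List.sum_nil]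
    rw [f 0 1 6 rfl, f 0 2 12 rfl, f 1 2 13 rfl, f 0 3 18 rfl, f 1 3 19 rfl, f 2 3 20 rfl,
      f 0 4 24 rfl, f 1 4 25 rfl, f 2 4 26 rfl, f 3 4 27 rfl, f 0 5 30 rfl, f 1 5 31 rfl,
      f 2 5 32 rfl, f 3 5 33 rfl, f 4 5 34 rfl]
    ring
  rw [e] at h
  have hR : (((lowD D places 0 0).1 : ℕ) : ℝ) - ((lowD D places 0 0).2 : ℕ) =
      ((lowv (A 0 1) + lowv (A 0 2) + lowv (A 1 2) + lowv (A 0 3) + lowv (A 1 3) + lowv (A 2 3) +
      lowv (A 0 4) + lowv (A 1 4) + lowv (A 2 4) + lowv (A 3 4) + lowv (A 0 5) + lowv (A 1 5) +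
      lowv (A 2 5) + lowv (A 3 5) + lowv (A 4 5) : ℤ) : ℝ) := by
    have : (((lowD D places 0 0).1 : ℕ) : ℤ) - ((lowD D places 0 0).2 : ℕ) =
      (lowv (A 0 1) + lowv (A 0 2) + lowv (A 1 2) + lowv (A 0 3) + lowv (A 1 3) + lowv (A 2 3) +
      lowv (A 0 4) + lowv (A 1 4) + lowv (A 2 4) + lowv (A 3 4) + lowv (A 0 5) + lowv (A 1 5) +
      lowv (A 2 5) + lowv (A 3 5) + lowv (A 4 5)) := by rw [h]; simp
    rw [← this]; push_cast; ring
  rw [hR]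
  push_cast
  have g : ∀ k l : Fin 6, k < l → (lowv (A k l) : ℝ) ≤ 75 * (A k l * d k l) :=
    fun k l hkl => lowv_le (lo k l hkl) (hi k l hkl)
  have g01 := g 0 1 (by decide); have g02 := g 0 2 (by decide); have g12 := g 1 2 (by decide)
  have g03 := g 0 3 (by decide); have g13 := g 1 3 (by decide); have g23 := g 2 3 (by decide)
  have g04 := g 0 4 (by decide); have g14 := g 1 4 (by decide); have g24 := g 2 4 (by decide)
  have g34 := g 3 4 (by decide); have g05 := g 0 5 (by decide); have g15 := g 1 5 (by decide)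
  have g25 := g 2 5 (by decide); have g35 := g 3 5 (by decide); have g45 := g 4 5 (by decide)
  unfold Phi
  linarith

lemma Phi_lower {d : Fin 6 → Fin 6 → ℝ} (lo : ∀ k l, k < l → 1 ≤ d k l)
    (hi : ∀ k l, k < l → d k l ≤ 152 / 75) {m : ℕ} (hm : m = MM) {A : Fin 6 → Fin 6 → ℤ}
    (hA : ∀ k l, |A k l| < (HH : ℤ)) {S : ℕ} (hS : (S : ZMod m) = ((pkm A : ℤ) : ZMod m)) :
    (((lowD ((S + OFF) % MM) places 0 0).1 : ℕ) : ℝ) -
      ((lowD ((S + OFF) % MM) places 0 0).2 : ℕ) ≤ 75 * Phi d A :=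
  Phi_lower_aux lo hi (digit_of hm hA hS)

lemma Phi_addmul (d : Fin 6 → Fin 6 → ℝ) (A A' : Fin 6 → Fin 6 → ℤ) (c : ℤ) :
    Phi d (fun k l => A k l + c * A' k l) = Phi d A + c * Phi d A' := by
  unfold Phi; push_cast; ring

/-! ### bounds -/

lemma abs_sum6 {f : Fin 6 → ℤ} {C : ℤ} (h : ∀ i, |f i| ≤ C) : |∑ i, f i| ≤ 6 * C := by
  calc |∑ i, f i| ≤ ∑ i, |f i| := Finset.abs_sum_le_sum_abs _ _
    _ ≤ ∑ _i : Fin 6, C := Finset.sum_le_sum fun i _ => h i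
    _ = 6 * C := by simp

lemma Mat_bound {x : Fin 6 → Fin 6 → ℤ} {w : Fin 6 → ℤ} (hx : ∀ i k, |x i k| ≤ 2 ^ 28)
    (hw : ∀ i, |w i| ≤ 2048) (k l : Fin 6) : |Mat x w k l| ≤ 2 * 12288 ^ 2 * 2 ^ 56 := by
  have h1 : ∀ k, |lc w x k| ≤ 6 * (2048 * 2 ^ 28) := by
    intro k
    apply abs_sum6
    intro i
    rw [abs_mul]
    exact mul_le_mul (hw i) (hx i k) (abs_nonneg _) (by norm_num)
  have h2 : |∑ i, w i| ≤ 6 * 2048 := abs_sum6 hw
  have h3 : |∑ i, w i * (x i k * x i l)| ≤ 6 * (2048 * (2 ^ 28 * 2 ^ 28)) := by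
    apply abs_sum6
    intro i
    rw [abs_mul, abs_mul]
    exact mul_le_mul (hw i) (mul_le_mul (hx i k) (hx i l) (abs_nonneg _) (by norm_num))
      (by positivity) (by norm_num)
  unfold Mat
  calc |lc w x k * lc w x l - (∑ i, w i) * ∑ i, w i * (x i k * x i l)|
      ≤ |lc w x k * lc w x l| + |(∑ i, w i) * ∑ i, w i * (x i k * x i l)| := abs_sub _ _
    _ ≤ (6 * (2048 * 2 ^ 28)) * (6 * (2048 * 2 ^ 28)) +
        (6 * 2048) * (6 * (2048 * (2 ^ 28 * 2 ^ 28))) := by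
      rw [abs_mul, abs_mul]
      exact add_le_add (mul_le_mul (h1 k) (h1 l) (abs_nonneg _) (by norm_num))
        (mul_le_mul h2 h3 (abs_nonneg _) (by norm_num))
    _ ≤ _ := by norm_num

end Pool.Agent.Lib_helper17.Rogers
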