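import Pool.Agent.Lib_helper17.Rogers.ChkSound2

set_option autoImplicit false

open Finset

namespace Pool.Agent.Lib_helper17.Rogers

attribute [local irreducible] MM BB HH OFF

/-- 75 times the right hand side belonging to weights -/
def rhsR (w : Fin 6 → ℤ) : ℤ :=
  if ∑ i, w i = 0 then (if w = 0 then 0 else -75) else
    if ∑ i, w i = 1 then 0 else 38 * (∑ i, w i) ^ 2

lemma wt_eq_zero {n : ℕ} (h : wt n = 0) :
    n % 0x1000000000000000000 = 0x800800800800800800 := by
  have h0 := congrFun h 0
  have h1 := congrFun h 1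
  have h2 := congrFun h 2
  have h3 := congrFun h 3
  have h4 := congrFun h 4
  have h5 := congrFun h 5
  simp only [wt, Pi.zero_apply, Nat.shiftRight_eq_div_pow] at h0 h1 h2 h3 h4 h5
  norm_num at h0 h1 h2 h3 h4 h5
  omega

lemma beq_true {a b : ℕ} (h : a = b) : Nat.beq a b = true := by
  subst h; exact Nat.beq_refl a

lemma beq_false {a b : ℕ} (h : a ≠ b) : Nat.beq a b = false := by
  rcases hb : Nat.beq a b with _ | _
  · rfl
  · exact absurd (Nat.eq_of_beq_eq_true hb) h

lemma absW_eq (n : ℕ) : (absW n : ℤ) = |∑ i, wt n i| := by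
  have hs := sumw_eq n
  simp only [absW, nadd, nsub]
  rcases le_total (∑ i, wt n i) 0 with h | h
  · rw [abs_of_nonpos h]; omega
  · rw [abs_of_nonneg h]; omega

lemma rhs1 (n : ℕ) (h : sumw n = 12288) : (rhsP n : ℤ) = 0 := by
  have e3 : absW n = 0 := by
    simp only [absW, nadd, nsub, h]
  unfold rhsP
  rw [beq_false (show sumw n ≠ 12289 by omega), cond_false, e3]
  simp

lemma rhs2 (n : ℕ) (h : sumw n = 12288)
    (h2 : n % 0x1000000000000000000 = 0x800800800800800800) : (rhsN n : ℤ) = 0 := by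
  unfold rhsN
  rw [beq_true h, cond_true, nmod, beq_true h2, cond_true]
  rfl

lemma rhs3 (n : ℕ) (h : sumw n = 12288)
    (h2 : n % 0x1000000000000000000 ≠ 0x800800800800800800) : (rhsN n : ℤ) = 75 := by
  unfold rhsN
  rw [beq_true h, cond_true, nmod, beq_false h2, cond_false]
  rfl

lemma rhs4 (n : ℕ) (h : sumw n ≠ 12288) : (rhsN n : ℤ) = 0 := by
  unfold rhsN
  rw [beq_false h, cond_false]
  rfl

lemma rhs5 (n : ℕ) (h : sumw n = 12289) : (rhsP n : ℤ) = 0 := by
  unfold rhsP
  rw [beq_true h, cond_true]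
  rfl

lemma rhs6 (n : ℕ) (h : sumw n ≠ 12289) : (rhsP n : ℤ) = 38 * (absW n * absW n) := by
  unfold rhsP
  rw [beq_false h, cond_false, nmul, nmul]
  push_cast
  rfl

lemma rhs_le (n : ℕ) : rhsR (wt n) ≤ (rhsP n : ℤ) - rhsN n := by
  have hs := sumw_eq n
  have habs := absW_eq n
  unfold rhsR
  by_cases h0 : ∑ i, wt n i = 0
  · rw [if_pos h0, rhs1 n (by omega)]
    by_cases h : n % 0x1000000000000000000 = 0x800800800800800800
    · rw [rhs2 n (by omega) h]
      split_ifs <;> simp
    · rw [rhs3 n (by omega) h, if_neg (fun hw => h (wt_eq_zero hw))]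
      simp
  · rw [if_neg h0, rhs4 n (by omega)]
    by_cases h1 : ∑ i, wt n i = 1
    · rw [if_pos h1, rhs5 n (by omega)]
      simp
    · rw [if_neg h1, rhs6 n (by omega), habs, abs_mul_abs_self, sq]
      simp

/-- the data extracted from the geometric situation -/
structure Ctx (d : Fin 6 → Fin 6 → ℝ) (Del : (Fin 6 → Fin 6 → ℤ) → Prop) : Prop where
  lo : ∀ k l, k < l → 1 ≤ d k l
  hi : ∀ k l, k < l → d k l ≤ 152 / 75
  item : ∀ x, Del x → ∀ w, 75 * Phi d (Mat x w) ≤ rhsR w

/-- there are admissible neighbours everywhere -/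
def Nb (Del : (Fin 6 → Fin 6 → ℤ) → Prop) : Prop :=
  ∀ x, Del x → ∀ i : Fin 6, ∃ n ∈ alphas i, Del (Function.update x i (lc (wt n) x))

/-- the simplices in a list are good -/
def Good (m : ℕ) (Del : (Fin 6 → Fin 6 → ℤ) → Prop) (b : ℤ) (X : PS) : Prop :=
  ∃ x, RepS m X x ∧ Del x ∧ ∀ i k, |x i k| ≤ b

lemma runItems_sound {d : Fin 6 → Fin 6 → ℝ} {Del : (Fin 6 → Fin 6 → ℤ) → Prop} (C : Ctx d Del)
    {m : ℕ} (hm : m = MM) (K : List PS) (hK : ∀ X ∈ K, Good m Del (2 ^ 28) X)
    (ns : List ℕ) : ∀ (S p q S' p' q' : ℕ) (s : ℕ), runItems K ns S p q = some (S', p', q') →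
    (∃ A : Fin 6 → Fin 6 → ℤ, (S : ZMod m) = ((pkm A : ℤ) : ZMod m) ∧
      (∀ k l, |A k l| ≤ s * (2 ^ 32 * (2 * 12288 ^ 2 * 2 ^ 56))) ∧
      75 * Phi d A ≤ (p : ℝ) - q) →
    (∃ A : Fin 6 → Fin 6 → ℤ, (S' : ZMod m) = ((pkm A : ℤ) : ZMod m) ∧
      (∀ k l, |A k l| ≤ (s + ns.length : ℕ) * (2 ^ 32 * (2 * 12288 ^ 2 * 2 ^ 56))) ∧
      75 * Phi d A ≤ (p' : ℝ) - q') := by
  induction ns with
  | nil =>
    intro S p q S' p' q' s h hA
    simp only [runItems, Option.some.injEq, Prod.mk.injEq] at h
    obtain ⟨rfl, rfl, rfl⟩ := h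
    simpa using hA
  | cons n ns ih =>
    intro S p q S' p' q' s h hA
    obtain ⟨A, hA1, hA2, hA3⟩ := hA
    simp only [runItems] at h
    rcases hX : K[Nat.mod (Nat.shiftRight n 72) 16]? with _ | X
    · rw [hX] at h; simp at h
    · rw [hX] at h
      simp only at h
      have hmem : X ∈ K := List.mem_of_getElem? hX
      obtain ⟨x, hx, hDel, hb⟩ := hK X hmem
      have hlam : (lamN n : ℤ) < 2 ^ 32 := by
        have : lamN n < 2 ^ 32 := Nat.mod_lt _ (by norm_num)
        exact_mod_cast this
      have h' := ih _ _ _ S' p' q' (s + 1) h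
        ⟨fun k l => A k l + (lamN n : ℤ) * Mat x (wt n) k l, ?_, ?_, ?_⟩
      · obtain ⟨A', h1, h2, h3⟩ := h'
        refine ⟨A', h1, ?_, h3⟩
        intro k l
        have := h2 k l
        rw [List.length_cons]
        rwa [show s + (ns.length + 1) = s + 1 + ns.length by ring]
      · simp only [nadd, nmul]
        rw [pkm_add A (fun k l => (lamN n : ℤ) * Mat x (wt n) k l), pkm_smul]
        push_cast
        rw [hA1, rowN_rep hm hx n]
      · intro k l
        have hM := Mat_bound (w := wt n) hb (wt_bound n) k l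
        have hlam0 : (0 : ℤ) ≤ (lamN n : ℤ) := Int.natCast_nonneg _
        calc |A k l + (lamN n : ℤ) * Mat x (wt n) k l|
            ≤ |A k l| + |(lamN n : ℤ) * Mat x (wt n) k l| := abs_add_le _ _
          _ ≤ s * (2 ^ 32 * (2 * 12288 ^ 2 * 2 ^ 56)) + 2 ^ 32 * (2 * 12288 ^ 2 * 2 ^ 56) := by
              rw [abs_mul, abs_of_nonneg hlam0]
              exact add_le_add (hA2 k l) (mul_le_mul hlam.le hM (abs_nonneg _) (by norm_num))
          _ = _ := by push_cast; ring
      · rw [Phi_addmul]
        have h1 := C.item x hDel (wt n)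
        have h2 : ((rhsR (wt n) : ℤ) : ℝ) ≤ (rhsP n : ℝ) - rhsN n := by
          have := rhs_le n
          have h3 : ((rhsR (wt n) : ℤ) : ℝ) ≤ (((rhsP n : ℤ) - rhsN n : ℤ) : ℝ) := by
            exact_mod_cast this
          push_cast at h3
          exact h3
        have hlam0 : (0 : ℝ) ≤ (lamN n : ℝ) := Nat.cast_nonneg _
        simp only [nadd, nmul]
        push_cast
        nlinarith

lemma final_aux {p q D : ℕ} {F : ℝ}
    (h4 : (((lowD D places 0 0).1 : ℕ) : ℝ) - ((lowD D places 0 0).2 : ℕ) ≤ F)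
    (hc : fin4 D p q = true)
    (h3 : F ≤ (p : ℝ) - q) : False := by
  unfold fin4 at hc
  generalize lowD D places 0 0 = r at h4 hc
  obtain ⟨p', q'⟩ := r
  simp only [nadd] at h4 hc
  have h5 : p + q' < p' + q := Nat.le_of_ble_eq_true hc
  have h6 : (p : ℝ) + q' < p' + q := by exact_mod_cast h5
  linarith

lemma mod_conv (S : ℕ) : Nat.mod (Nat.add S OFF) MM = (S + OFF) % MM := by
  rw [nadd, nmod]

lemma finO_some (S p q : ℕ) : finO (some (S, p, q)) = fin4 ((S + OFF) % MM) p q := by
  rw [← mod_conv]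
  rfl

lemma chkCert_cases {K : List PS} {c : List ℕ} (hc : chkCert K c = true) :
    c.length ≤ 32 ∧ ∃ S p q, runItems K c 0 0 0 = some (S, p, q) ∧
      fin4 ((S + OFF) % MM) p q = true := by
  unfold chkCert at hc
  rcases hl : Nat.ble c.length 32 with _ | _
  · rw [hl, cond_false] at hc; exact Bool.noConfusion hc
  · rw [hl, cond_true] at hc
    refine ⟨Nat.le_of_ble_eq_true hl, ?_⟩
    rcases hr : runItems K c 0 0 0 with _ | ⟨S, p, q⟩
    · rw [hr] at hc; exact Bool.noConfusion hc
    · rw [hr, finO_some] at hc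
      exact ⟨S, p, q, rfl, hc⟩

lemma chkCert_sound {d : Fin 6 → Fin 6 → ℝ} {Del : (Fin 6 → Fin 6 → ℤ) → Prop} (C : Ctx d Del)
    {m : ℕ} (hm : m = MM) (K : List PS) (hK : ∀ X ∈ K, Good m Del (2 ^ 28) X)
    (c : List ℕ) (hc : chkCert K c = true) : False := by
  obtain ⟨hl', S, p, q, hr, hc⟩ := chkCert_cases hc
  obtain ⟨A, hA1, hA2, hA3⟩ := runItems_sound C hm K hK c 0 0 0 S p q 0 hr
    ⟨fun _ _ => 0, by simp [pkm], by simp, by simp [Phi]⟩
  have hA : ∀ k l, |A k l| < (HH : ℤ) := by
    intro k l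
    have h1 := hA2 k l
    have h2 : ((0 + c.length : ℕ) : ℤ) ≤ 32 := by simpa using hl'
    have h3 : (HH : ℤ) = 2 ^ 127 := by rw [HH_eq]; norm_num
    rw [h3]
    calc |A k l| ≤ _ := h1
      _ ≤ 32 * (2 ^ 32 * (2 * 12288 ^ 2 * 2 ^ 56)) :=
        mul_le_mul_of_nonneg_right h2 (by norm_num)
      _ < 2 ^ 127 := by norm_num
  exact final_aux (Phi_lower C.lo C.hi hm hA hA1) hc hA3

/-- bounds for the entries -/
def bd : ℕ → ℤ
  | 0 => 1
  | 1 => 1
  | n + 2 => 26 * 5 ^ n

lemma bd_le {L : ℕ} (h : L ≤ 12) : bd L ≤ 2 ^ 28 := by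
  interval_cases L <;> norm_num [bd]

lemma bd_pos (L : ℕ) : 0 < bd L := by
  rcases L with _ | _ | n
  · norm_num [bd]
  · norm_num [bd]
  · simp only [bd]; positivity

lemma bd_mono (L : ℕ) : bd L ≤ bd (L + 1) := by
  rcases L with _ | _ | n
  · norm_num [bd]
  · norm_num [bd]
  · simp only [bd]
    rw [pow_succ]
    have : (0 : ℤ) < 5 ^ n := by positivity
    linarith

lemma alphas_sum : ∀ i : Fin 6, ∀ n ∈ alphas i, ∑ j, |wt n j| ≤ 5 := by
  decide +kernel

lemma lc_bound {x : Fin 6 → Fin 6 → ℤ} {w : Fin 6 → ℤ} {b : ℤ} (hx : ∀ i k, |x i k| ≤ b)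
    (k : Fin 6) : |lc w x k| ≤ (∑ i, |w i|) * b := by
  unfold lc
  calc |∑ i, w i * x i k| ≤ ∑ i, |w i * x i k| := Finset.abs_sum_le_sum_abs _ _
    _ ≤ ∑ i, |w i| * b := by
      refine Finset.sum_le_sum fun i _ => ?_
      rw [abs_mul]
      exact mul_le_mul_of_nonneg_left (hx i k) (abs_nonneg _)
    _ = _ := by rw [Finset.sum_mul]

lemma Good_mono {m : ℕ} {Del : (Fin 6 → Fin 6 → ℤ) → Prop} {b b' : ℤ} (h : b ≤ b') {X : PS}
    (hX : Good m Del b X) : Good m Del b' X := by
  obtain ⟨x, h1, h2, h3⟩ := hX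
  exact ⟨x, h1, h2, fun i k => (h3 i k).trans h⟩

theorem chkT_sound {d : Fin 6 → Fin 6 → ℝ} {Del : (Fin 6 → Fin 6 → ℤ) → Prop} (C : Ctx d Del)
    (hnb : Nb Del)
    {m : ℕ} (hm : m = MM) (t : Tr) : ∀ (K : List PS) (X : PS) (i : ℕ) (al : List ℕ),
    chkT t K X i al = true → 1 ≤ K.length → K.length ≤ 11 →
    (∀ Y ∈ K, Good m Del (bd K.length) Y) →
    (∀ n ∈ al, (∑ j, |wt n j|) * bd K.length ≤ bd (K.length + 1)) →
    ∀ (x : Fin 6 → Fin 6 → ℤ), RepS m X x → Del x → (∀ i k, |x i k| ≤ bd K.length) →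
    ∀ hi : i < 6, ∀ n ∈ al, ¬ Del (Function.update x ⟨i, hi⟩ (lc (wt n) x)) := by
  induction t with
  | nil =>
    intro K X i al h _ _ _ _ x _ _ _ _ n hn
    simp only [chkT, List.isEmpty_iff] at h
    subst h
    simp at hn
  | cert c rest ih =>
    intro K X i al h hL1 hL2 hK hal x hx hDx hbx hi n hn
    rcases al with _ | ⟨a, as⟩
    · simp at hn
    · simp only [chkT] at h
      rcases hc : chkCert (X.upd i a :: K) c with _ | _
      · rw [hc] at h; simp at h
      · rw [hc] at h
        simp only at h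
        rcases List.mem_cons.1 hn with rfl | hn
        · intro hD
          refine chkCert_sound C hm (X.upd i n :: K) ?_ c hc
          intro Y hY
          rcases List.mem_cons.1 hY with rfl | hY
          · refine ⟨_, upd_rep hm hx ⟨i, hi⟩ n, hD, ?_⟩
            intro j k
            by_cases hj : j = ⟨i, hi⟩
            · subst hj
              rw [Function.update_self]
              exact ((lc_bound hbx k).trans (hal n (by simp))).trans (bd_le (by omega))
            · rw [Function.update_of_ne hj]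
              exact (hbx j k).trans (bd_le (by omega))
          · exact Good_mono (bd_le (by omega)) (hK Y hY)
        · exact ih K X i as h hL1 hL2 hK (fun n hn => hal n (by simp [hn])) x hx hDx hbx hi n hn
  | node k j ch rest ihc ihr =>
    intro K X i al h hL1 hL2 hK hal x hx hDx hbx hi n hn
    rcases al with _ | ⟨a, as⟩
    · simp at hn
    · simp only [chkT] at h
      rcases hY : (X.upd i a :: K)[k]? with _ | Y
      · rw [hY] at h; simp at h
      · rw [hY] at h
        rcases hj : Nat.blt j 6 with _ | _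
        · rw [hj] at h; simp at h
        · rw [hj] at h
          rcases hlen : Nat.ble K.length 10 with _ | _
          · rw [hlen] at h; simp at h
          · rw [hlen] at h
            simp only at h
            rcases hch : chkT ch (X.upd i a :: K) Y j (alphas j) with _ | _
            · rw [hch] at h; simp at h
            · rw [hch] at h
              simp only at h
              have hj6 : j < 6 := Nat.le_of_ble_eq_true hj
              have hlen' : K.length ≤ 10 := Nat.le_of_ble_eq_true hlen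
              rcases List.mem_cons.1 hn with rfl | hn
              · intro hD
                have hgood : ∀ Z ∈ (X.upd i n :: K), Good m Del (bd (K.length + 1)) Z := by
                  intro Z hZ
                  rcases List.mem_cons.1 hZ with rfl | hZ
                  · refine ⟨_, upd_rep hm hx ⟨i, hi⟩ n, hD, ?_⟩
                    intro j k
                    by_cases hj : j = ⟨i, hi⟩
                    · subst hj
                      rw [Function.update_self]
                      exact (lc_bound hbx k).trans (hal n (by simp))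
                    · rw [Function.update_of_ne hj]
                      exact (hbx j k).trans (bd_mono _)
                  · exact Good_mono (bd_mono _) (hK Z hZ)
                obtain ⟨y, hy1, hy2, hy3⟩ := hgood Y (List.mem_of_getElem? hY)
                obtain ⟨n', hn', hD'⟩ := hnb y hy2 ⟨j, hj6⟩
                refine ihc (X.upd i n :: K) Y j (alphas j) hch (by simp) (by simp; omega)
                  (by simpa using hgood) ?_ y hy1 hy2 (by simpa using hy3) hj6 n' hn' hD'
                intro n'' hn''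
                have h5 := alphas_sum ⟨j, hj6⟩ n'' hn''
                simp only [List.length_cons]
                obtain ⟨L, hL⟩ : ∃ L, K.length = L + 1 := ⟨K.length - 1, by omega⟩
                rw [hL]
                simp only [bd]
                rw [pow_succ]
                have h6 : (0 : ℤ) < 5 ^ L := by positivity
                nlinarith
              · exact ihr K X i as h hL1 hL2 hK (fun n hn => hal n (by simp [hn])) x hx hDx hbx hi n
                  hn

end Pool.Agent.Lib_helper17.Rogers
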