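import Mathlib

open Metric Set

namespace Pool.Agent.Lib_helper17.Rogers

variable {E : Type*} [NormedAddCommGroup E] [NormedSpace ℝ E]

/-- The family of translates `a + C`, `a ∈ Λ`, is a packing: distinct translates have
disjoint interiors. -/
def IsPacking (C Λ : Set E) : Prop :=
  Λ.Pairwise fun a b =>
    Disjoint (interior ((fun x => a + x) '' C)) (interior ((fun x => b + x) '' C))

/-- The translates `a + r • C`, `a ∈ Λ`, cover the whole space. -/
def IsCovering (C Λ : Set E) (r : ℝ) : Prop :=
  (⋃ a ∈ Λ, (fun x => a + r • x) '' C) = Set.univ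

/-- The simultaneous packing and covering constant `γ(C)` of a convex body `C`. -/
noncomputable def packCover (C : Set E) : ℝ :=
  sInf {r : ℝ | 0 < r ∧ ∃ Λ : Set E, IsPacking C Λ ∧ IsCovering C Λ r}

/-- The lattice version `γ*(C)`: the set of translation vectors is a lattice, i.e. a discrete
additive subgroup. -/
noncomputable def packCoverLattice (C : Set E) : ℝ :=
  sInf {r : ℝ | 0 < r ∧ ∃ L : AddSubgroup E, DiscreteTopology L ∧
    IsPacking C (L : Set E) ∧ IsCovering C (L : Set E) r}

omit [NormedSpace ℝ E] in
lemma image_closedBall (a : E) :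
    (fun x => a + x) '' closedBall (0 : E) 1 = closedBall a 1 := by
  ext y
  constructor
  · rintro ⟨x, hx, rfl⟩
    simpa [dist_eq_norm] using hx
  · intro hy
    refine ⟨y - a, ?_, by simp⟩
    simpa [dist_eq_norm] using hy

lemma image_smul_closedBall (a : E) {r : ℝ} (hr : 0 < r) :
    (fun x => a + r • x) '' closedBall (0 : E) 1 = closedBall a r := by
  ext y
  constructor
  · rintro ⟨x, hx, rfl⟩
    have hx' : ‖x‖ ≤ 1 := by simpa using hx
    simp only [mem_closedBall, dist_eq_norm, add_sub_cancel_left, norm_smul, Real.norm_eq_abs,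
      abs_of_pos hr]
    nlinarith
  · intro hy
    refine ⟨r⁻¹ • (y - a), ?_, ?_⟩
    · simp only [mem_closedBall, dist_zero_right, norm_smul, norm_inv, Real.norm_eq_abs,
        abs_of_pos hr]
      have : ‖y - a‖ ≤ r := by simpa [dist_eq_norm] using hy
      rw [inv_mul_le_iff₀ hr]
      simpa using this
    · simp [smul_smul, hr.ne']

lemma isPacking_iff (Λ : Set E) :
    IsPacking (closedBall (0 : E) 1) Λ ↔ Λ.Pairwise fun a b => 2 ≤ dist a b := by
  unfold IsPacking
  constructor
  · intro h a ha b hb hab
    have := h ha hb hab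
    simp only [image_closedBall] at this
    rw [interior_closedBall _ one_ne_zero, interior_closedBall _ one_ne_zero] at this
    have h2 := (disjoint_ball_ball_iff one_pos one_pos).1 this
    linarith
  · intro h a ha b hb hab
    have := h ha hb hab
    simp only [image_closedBall]
    rw [interior_closedBall _ one_ne_zero, interior_closedBall _ one_ne_zero]
    exact ball_disjoint_ball (by linarith)

lemma isCovering_iff (Λ : Set E) {r : ℝ} (hr : 0 < r) :
    IsCovering (closedBall (0 : E) 1) Λ r ↔ ∀ x : E, ∃ a ∈ Λ, dist x a ≤ r := by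
  unfold IsCovering
  simp only [image_smul_closedBall _ hr]
  rw [Set.eq_univ_iff_forall]
  simp

end Pool.Agent.Lib_helper17.Rogers
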