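import Mathlib

set_option autoImplicit false

open Finset

namespace Pool.Agent.Lib_helper17.Rogers

/-- five-dimensional Euclidean space -/
abbrev E5 := EuclideanSpace ℝ (Fin 5)

/-- homogeneous coordinates -/
def hom (y : E5) : Fin 6 → ℝ := Fin.cons 1 (fun j => y j)

/-- the matrix of homogeneous coordinates of six points -/
def Hm (w : Fin 6 → E5) : Matrix (Fin 6) (Fin 6) ℝ := Matrix.of fun i => hom (w i)

/-- an empty sphere simplex with vertices in `L` -/
structure IsDel (L : AddSubgroup E5) (w : Fin 6 → E5) : Prop where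
  mem : ∀ i, w i ∈ L
  det : (Hm w).det ≠ 0
  sphere : ∃ (c : E5) (ρ : ℝ), (∀ i, ‖w i - c‖ ^ 2 = ρ) ∧ ∀ y ∈ L, ρ ≤ ‖y - c‖ ^ 2

/-- the properties of the lattice which we use -/
structure Lat (L : AddSubgroup E5) : Prop where
  fin : ∀ R : ℝ, {y : E5 | y ∈ L ∧ ‖y‖ ≤ R}.Finite
  min : ∀ y ∈ L, y ≠ 0 → 2 ≤ ‖y‖
  cov : ∀ x : E5, ∃ y ∈ L, ‖x - y‖ ^ 2 ≤ 152 / 75

lemma hom_zero' (y : E5) : hom y 0 = 1 := rfl

lemma hom_succ (y : E5) (j : Fin 5) : hom y j.succ = y j := rfl

lemma power_identity (y c u : E5) (t ρ τ : ℝ) :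
    ‖y - (c + t • u)‖ ^ 2 - (ρ + 2 * t * (inner ℝ c u + τ) + t ^ 2 * ‖u‖ ^ 2) =
      (‖y - c‖ ^ 2 - ρ) - 2 * t * (inner ℝ y u + τ) := by
  have h : y - (c + t • u) = (y - c) - t • u := by abel
  rw [h, norm_sub_sq_real, norm_smul, inner_smul_right, inner_sub_left, mul_pow,
    Real.norm_eq_abs, sq_abs]
  ring

lemma grow {L : AddSubgroup E5} (hfin : ∀ R : ℝ, {y : E5 | y ∈ L ∧ ‖y‖ ≤ R}.Finite)
    (c u : E5) (ρ τ : ℝ) (hemp : ∀ y ∈ L, ρ ≤ ‖y - c‖ ^ 2)
    (hex : ∃ z ∈ L, 0 < inner ℝ z u + τ) :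
    ∃ (c' : E5) (ρ' : ℝ) (z : E5), z ∈ L ∧ 0 < inner ℝ z u + τ ∧ ‖z - c'‖ ^ 2 = ρ' ∧
      (∀ y ∈ L, ρ' ≤ ‖y - c'‖ ^ 2) ∧
      ∀ y : E5, ‖y - c‖ ^ 2 = ρ → inner ℝ y u + τ = 0 → ‖y - c'‖ ^ 2 = ρ' := by
  obtain ⟨z0, hz0, hg0⟩ := hex
  let g : E5 → ℝ := fun y => inner ℝ y u + τ
  let f : E5 → ℝ := fun y => ‖y - c‖ ^ 2 - ρ
  have hf : ∀ y ∈ L, 0 ≤ f y := fun y hy => sub_nonneg.2 (hemp y hy)
  let t : E5 → ℝ := fun y => f y / (2 * g y)
  have ht : ∀ y, 0 < g y → f y = 2 * t y * g y := by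
    intro y hy
    simp only [t]
    field_simp
  have hpow : ∀ (y : E5) (s : ℝ), ‖y - (c + s • u)‖ ^ 2 -
      (ρ + 2 * s * (inner ℝ c u + τ) + s ^ 2 * ‖u‖ ^ 2) = f y - 2 * s * g y :=
    fun y s => power_identity y c u s ρ τ
  let S : Set E5 := {y | y ∈ L ∧ 0 < g y ∧ f y ≤ 2 * t z0 * g y}
  have hSfin : S.Finite := by
    obtain ⟨R, hR⟩ : ∃ R : ℝ, ∀ y ∈ S, ‖y‖ ≤ R := by
      refine ⟨1 + |ρ + 2 * t z0 * (inner ℝ c u + τ) + t z0 ^ 2 * ‖u‖ ^ 2| + ‖c + t z0 • u‖, ?_⟩
      intro y hy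
      obtain ⟨-, hy2, hy3⟩ := hy
      have h1 := hpow y (t z0)
      have h2 : ‖y - (c + t z0 • u)‖ ^ 2 ≤
          |ρ + 2 * t z0 * (inner ℝ c u + τ) + t z0 ^ 2 * ‖u‖ ^ 2| := by
        refine le_trans ?_ (le_abs_self _)
        linarith
      have h3 : ‖y - (c + t z0 • u)‖ ≤
          1 + |ρ + 2 * t z0 * (inner ℝ c u + τ) + t z0 ^ 2 * ‖u‖ ^ 2| := by
        have := abs_nonneg (ρ + 2 * t z0 * (inner ℝ c u + τ) + t z0 ^ 2 * ‖u‖ ^ 2)
        nlinarith [norm_nonneg (y - (c + t z0 • u))]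
      have h4 : ‖y‖ ≤ ‖y - (c + t z0 • u)‖ + ‖c + t z0 • u‖ := by
        have := norm_add_le (y - (c + t z0 • u)) (c + t z0 • u)
        simpa using this
      linarith
    exact (hfin R).subset fun y hy => ⟨hy.1, hR y hy⟩
  have hSne : S.Nonempty := ⟨z0, hz0, hg0, (ht z0 hg0).le⟩
  obtain ⟨z, hzS, hzmin⟩ := Set.exists_min_image S t hSfin hSne
  obtain ⟨hzL, hgz, hfz⟩ := hzS
  have ht0 : 0 ≤ t z := div_nonneg (hf z hzL) (by positivity)
  have htz0 : t z ≤ t z0 := hzmin z0 ⟨hz0, hg0, (ht z0 hg0).le⟩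
  refine ⟨c + t z • u, ρ + 2 * t z * (inner ℝ c u + τ) + t z ^ 2 * ‖u‖ ^ 2, z, hzL, hgz, ?_, ?_, ?_⟩
  · have h1 := hpow z (t z)
    have h2 := ht z hgz
    linarith
  · intro y hy
    have h1 := hpow y (t z)
    have h2 := hf y hy
    have h3 : 0 ≤ f y - 2 * t z * g y := by
      rcases le_or_gt (g y) 0 with hg | hg
      · nlinarith
      · by_cases h : f y ≤ 2 * t z0 * g y
        · have h4 := hzmin y ⟨hy, hg, h⟩
          have h5 := ht y hg
          nlinarith
        · push Not at h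
          nlinarith
    linarith
  · intro y hy1 hy2
    have h1 := hpow y (t z)
    have h2 : f y = 0 := sub_eq_zero.2 hy1
    have h3 : g y = 0 := hy2
    rw [h2, h3] at h1
    linarith

/-- an affine function in terms of homogeneous coordinates -/
lemma aff_eq (y u : E5) (τ : ℝ) : inner ℝ y u + τ = hom y ⬝ᵥ (Fin.cons τ (fun j => u j)) := by
  rw [dotProduct, Fin.sum_univ_succ]
  simp only [hom_zero', hom_succ, Fin.cons_zero, Fin.cons_succ, one_mul]
  rw [add_comm]
  congr 1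
  rw [PiLp.inner_apply]
  refine Finset.sum_congr rfl fun i _ => ?_
  simp [mul_comm]

/-- every functional on homogeneous coordinates is of this form -/
lemma aff_of (h : Fin 6 → ℝ) : ∃ (u : E5) (τ : ℝ), ∀ y, inner ℝ y u + τ = hom y ⬝ᵥ h := by
  refine ⟨WithLp.toLp 2 (fun j => h j.succ), h 0, fun y => ?_⟩
  rw [aff_eq]
  congr 1
  funext i
  refine Fin.cases ?_ (fun j => ?_) i <;> simp

/-- an affine function vanishing on `L` has no linear part -/
lemma vanish {L : AddSubgroup E5} (hL : Lat L) (u : E5) (τ : ℝ)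
    (h : ∀ y ∈ L, inner ℝ y u + τ = 0) : u = 0 := by
  have hτ : τ = 0 := by simpa using h 0 L.zero_mem
  subst hτ
  by_contra hu
  have hu' : 0 < ‖u‖ := norm_pos_iff.2 hu
  obtain ⟨y, hy, hy2⟩ := hL.cov ((2 / ‖u‖) • u)
  have h1 : inner ℝ y u = (0 : ℝ) := by simpa using h y hy
  have h2 : ‖(2 / ‖u‖) • u - y‖ ^ 2 = 4 + ‖y‖ ^ 2 := by
    rw [norm_sub_sq_real, norm_smul, real_inner_smul_left, real_inner_comm, h1, mul_pow,
      Real.norm_eq_abs, sq_abs]
    field_simp
    ring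
  rw [h2] at hy2
  nlinarith [sq_nonneg ‖y‖]

lemma exists_del_aux {L : AddSubgroup E5} (hL : Lat L) (k : ℕ) (hk : k ≤ 5) :
    ∃ x : Fin (k + 1) → E5, (∀ i, x i ∈ L) ∧ LinearIndependent ℝ (fun i => hom (x i)) ∧
      ∃ (c : E5) (ρ : ℝ), (∀ i, ‖x i - c‖ ^ 2 = ρ) ∧ ∀ y ∈ L, ρ ≤ ‖y - c‖ ^ 2 := by
  induction k with
  | zero =>
    refine ⟨fun _ => 0, fun _ => L.zero_mem, ?_, 0, 0, ?_, ?_⟩
    · have : Unique (Fin (0 + 1)) := inferInstanceAs (Unique (Fin 1))
      rw [linearIndependent_unique_iff]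
      intro h
      have := congrFun h 0
      simp [hom_zero'] at this
    · simp
    · intro y _; positivity
  | succ k ih =>
    obtain ⟨x, hx1, hx2, c, ρ, hx3, hx4⟩ := ih (by omega)
    -- a functional vanishing on the span
    have hspan : Submodule.span ℝ (Set.range fun i => hom (x i)) ≠ ⊤ := by
      intro htop
      have h1 := linearIndependent_iff_card_eq_finrank_span.1 hx2
      rw [Set.finrank, htop, finrank_top] at h1
      simp at h1
      omega
    obtain ⟨φ, hφ, hφ2⟩ := Submodule.exists_dual_map_eq_bot_of_lt_top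
      (lt_top_iff_ne_top.2 hspan) inferInstance
    have hφ3 : ∀ v ∈ Submodule.span ℝ (Set.range fun i => hom (x i)), φ v = 0 := by
      intro v hv
      have : φ v ∈ Submodule.map φ (Submodule.span ℝ (Set.range fun i => hom (x i))) :=
        Submodule.mem_map_of_mem hv
      rw [hφ2] at this
      simpa using this
    -- coordinates of the functional
    let h : Fin 6 → ℝ := fun i => φ (Pi.single i 1)
    have hφh : ∀ v : Fin 6 → ℝ, φ v = v ⬝ᵥ h := by
      intro v
      conv_lhs => rw [← Finset.univ_sum_single v]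
      rw [map_sum, dotProduct]
      refine Finset.sum_congr rfl fun i _ => ?_
      have : (Pi.single i (v i) : Fin 6 → ℝ) = v i • Pi.single i 1 := by
        rw [← Pi.single_smul]; simp
      rw [this, map_smul, smul_eq_mul]
    obtain ⟨u, τ, huτ⟩ := aff_of h
    have hex : ∃ z ∈ L, inner ℝ z u + τ ≠ 0 := by
      by_contra hcon
      push Not at hcon
      have hu := vanish hL u τ hcon
      have hτ : τ = 0 := by simpa using hcon 0 L.zero_mem
      apply hφ
      apply LinearMap.ext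
      intro v
      rw [hφh]
      have h0 : h = 0 := by
        have h2 : ∀ y : E5, hom y ⬝ᵥ h = 0 := by
          intro y; rw [← huτ, hu, hτ]; simp
        have h3 := h2 0
        have h4 : h 0 = 0 := by
          rw [dotProduct, Fin.sum_univ_succ] at h3
          simpa [hom_zero', hom_succ] using h3
        funext i
        refine Fin.cases h4 (fun j => ?_) i
        have h5 := h2 (EuclideanSpace.single j 1)
        rw [dotProduct, Fin.sum_univ_succ] at h5
        simpa [hom_zero', hom_succ, h4, PiLp.single_apply] using h5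
      simp [h0]
    have hstep : ∃ (u : E5) (τ : ℝ), (∀ i, inner ℝ (x i) u + τ = 0) ∧
        ∃ z ∈ L, 0 < inner ℝ z u + τ := by
      obtain ⟨z, hz, hz2⟩ := hex
      have hx0 : ∀ i, inner ℝ (x i) u + τ = 0 := by
        intro i
        rw [huτ, ← hφh]
        exact hφ3 _ (Submodule.subset_span ⟨i, rfl⟩)
      rcases lt_or_gt_of_ne hz2 with hlt | hgt
      · refine ⟨-u, -τ, fun i => ?_, z, hz, ?_⟩
        · rw [inner_neg_right]; linarith [hx0 i]
        · rw [inner_neg_right]; linarith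
      · exact ⟨u, τ, hx0, z, hz, hgt⟩
    obtain ⟨u, τ, hx0, hex⟩ := hstep
    obtain ⟨c', ρ', z, hz1, hz2, hz3, hz4, hz5⟩ := grow hL.fin c u ρ τ hx4 hex
    refine ⟨Fin.snoc x z, ?_, ?_, c', ρ', ?_, hz4⟩
    · intro i
      refine Fin.lastCases ?_ (fun j => ?_) i
      · simpa using hz1
      · simpa using hx1 j
    · have e : (fun i => hom ((Fin.snoc x z : Fin (k + 1 + 1) → E5) i)) =
          Fin.snoc (fun i => hom (x i)) (hom z) := by
        funext i
        refine Fin.lastCases ?_ (fun j => ?_) i <;> simp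
      rw [e, linearIndependent_finSnoc]
      refine ⟨hx2, fun hmem => ?_⟩
      have h6 : ∀ v ∈ Submodule.span ℝ (Set.range fun i => hom (x i)),
          v ⬝ᵥ (Fin.cons τ (fun j => u j) : Fin 6 → ℝ) = 0 := by
        intro v hv
        induction hv using Submodule.span_induction with
        | mem v hv =>
          obtain ⟨i, rfl⟩ := hv
          simp only
          rw [← aff_eq]
          exact hx0 i
        | zero => simp
        | add a b _ _ ha hb => rw [add_dotProduct, ha, hb, add_zero]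
        | smul a v _ hv => rw [smul_dotProduct, hv, smul_zero]
      have h7 := h6 _ hmem
      rw [← aff_eq] at h7
      linarith
    · intro i
      refine Fin.lastCases ?_ (fun j => ?_) i
      · simpa using hz3
      · simpa using hz5 (x j) (hx3 j) (hx0 j)

/-- there is an empty sphere simplex -/
theorem exists_del {L : AddSubgroup E5} (hL : Lat L) : ∃ w, IsDel L w := by
  obtain ⟨x, hx1, hx2, hx3⟩ := exists_del_aux hL 5 le_rfl
  refine ⟨x, hx1, ?_, hx3⟩
  have h : LinearIndependent ℝ (Hm x).row := hx2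
  rw [Matrix.linearIndependent_rows_iff_isUnit, Matrix.isUnit_iff_isUnit_det] at h
  exact h.ne_zero

end Pool.Agent.Lib_helper17.Rogers
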