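import Pool.Agent.Lib_helper17.Rogers.Geo1

set_option autoImplicit false

open Finset

namespace Pool.Agent.Lib_helper17.Rogers

/-- Hadamard's inequality -/
lemma hadamard6 (M : Matrix (Fin 6) (Fin 6) ℝ) : M.det ^ 2 ≤ ∏ i, ∑ j, M i j ^ 2 := by
  have : Fact (Module.finrank ℝ (EuclideanSpace ℝ (Fin 6)) = 6) := ⟨by simp⟩
  let b := EuclideanSpace.basisFun (Fin 6) ℝ
  let o := b.toBasis.orientation
  let v : Fin 6 → EuclideanSpace ℝ (Fin 6) := fun i => WithLp.toLp 2 (M i)
  have h1 := o.abs_volumeForm_apply_le v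
  rw [o.volumeForm_robust' b v] at h1
  have h2 : b.toBasis.det v = M.det := by
    rw [Module.Basis.det_apply, ← Matrix.det_transpose M]
    congr 1
  rw [h2] at h1
  have h3 : ∀ i, ‖v i‖ ^ 2 = ∑ j, M i j ^ 2 := by
    intro i
    rw [EuclideanSpace.norm_sq_eq]
    simp [v]
  calc M.det ^ 2 = |M.det| ^ 2 := (sq_abs _).symm
    _ ≤ (∏ i, ‖v i‖) ^ 2 := pow_le_pow_left₀ (abs_nonneg _) h1 2
    _ = ∏ i, ‖v i‖ ^ 2 := (Finset.prod_pow _ _ _).symm
    _ = _ := Finset.prod_congr rfl fun i _ => h3 i

/-- the unipotent matrix of a translation -/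
def Um (m : E5) : Matrix (Fin 6) (Fin 6) ℝ :=
  Matrix.of (Fin.cons (Fin.cons 1 (fun j => m j)) (fun i => Fin.cons 0 (fun j => if i = j then 1 else 0)))

lemma Um_det (m : E5) : (Um m).det = 1 := by
  have h : (Um m).BlockTriangular id := by
    intro i j hij
    simp only [id] at hij
    induction i using Fin.cases with
    | zero => exact absurd hij (Fin.not_lt_zero _)
    | succ i =>
      induction j using Fin.cases with
      | zero => simp [Um]
      | succ j =>
        have : i ≠ j := fun h => by subst h; exact lt_irrefl _ hij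
        simp [Um, this]
  rw [Matrix.det_of_isUpperTriangular h, Fin.prod_univ_succ]
  simp [Um]

lemma hom_sub (y m : E5) : hom y = Matrix.vecMul (hom (y - m)) (Um m) := by
  funext i
  rw [Matrix.vecMul, dotProduct, Fin.sum_univ_succ]
  refine Fin.cases ?_ (fun j => ?_) i
  · simp [hom_zero', hom_succ, Um]
  · simp [hom_zero', hom_succ, Um]

lemma Hm_det_sub (w : Fin 6 → E5) (m : E5) : (Hm w).det = (Hm fun i => w i - m).det := by
  have : Hm w = Hm (fun i => w i - m) * Um m := by
    ext i j
    have := congrFun (hom_sub (w i) m) j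
    simpa [Hm, Matrix.mul_apply, Matrix.vecMul, dotProduct] using this
  rw [this, Matrix.det_mul, Um_det, mul_one]

lemma Hm_det_bound (w : Fin 6 → E5) (m : E5) :
    (Hm w).det ^ 2 ≤ 2 * ∏ i, (‖w i - m‖ ^ 2 + 1 / 2) := by
  rw [Hm_det_sub w m]
  generalize hx : (fun i => w i - m) = x
  have e : ∀ i, ‖w i - m‖ ^ 2 = ‖x i‖ ^ 2 := by intro i; rw [← hx]
  simp only [e]
  clear e hx
  let t : ℝ := Real.sqrt (1 / 2)
  have ht : t ^ 2 = 1 / 2 := Real.sq_sqrt (by norm_num)
  let M : Matrix (Fin 6) (Fin 6) ℝ := (Hm x).updateCol 0 (fun i => t * Hm x i 0)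
  have h1 : M.det = t * (Hm x).det := by
    have : (fun i => t * Hm x i 0) = t • (fun i => Hm x i 0) := rfl
    simp only [M]
    rw [this, Matrix.det_updateCol_smul, Matrix.updateCol_eq_self]
  have h2 : ∀ i, ∑ j, M i j ^ 2 = ‖x i‖ ^ 2 + 1 / 2 := by
    intro i
    rw [Fin.sum_univ_succ, EuclideanSpace.norm_sq_eq, add_comm]
    congr 1
    · refine Finset.sum_congr rfl fun j _ => ?_
      have : M i j.succ = x i j := by
        simp only [M]
        rw [Matrix.updateCol_ne (Fin.succ_ne_zero j)]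
        rfl
      rw [this, Real.norm_eq_abs, sq_abs]
    · have : M i 0 = t := by
        simp only [M]
        rw [Matrix.updateCol_self]
        simp [Hm, hom_zero']
      rw [this, ht]
  have h3 := hadamard6 M
  rw [h1, mul_pow, ht] at h3
  simp only [h2] at h3
  linarith

/-! ### Minkowski -/

lemma gamma_val : Real.Gamma ((5 : ℝ) / 2 + 1) = 15 / 8 * Real.sqrt Real.pi := by
  rw [Real.Gamma_add_one (by norm_num), show (5 : ℝ) / 2 = 3 / 2 + 1 by norm_num,
    Real.Gamma_add_one (by norm_num), show (3 : ℝ) / 2 = 1 / 2 + 1 by norm_num,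
    Real.Gamma_add_one (by norm_num), Real.Gamma_one_half_eq]
  ring

lemma vol_ball_two : MeasureTheory.volume (Metric.ball (0 : E5) 2) =
    ENNReal.ofReal (32 * (8 * Real.pi ^ 2 / 15)) := by
  rw [EuclideanSpace.volume_ball]
  simp only [Fintype.card_fin]
  rw [← ENNReal.ofReal_pow (by norm_num), ← ENNReal.ofReal_mul (by positivity)]
  congr 1
  push_cast
  rw [gamma_val]
  have hs : 0 < Real.sqrt Real.pi := Real.sqrt_pos.2 Real.pi_pos
  have h2 : Real.sqrt Real.pi ^ 2 = Real.pi := Real.sq_sqrt Real.pi_pos.le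
  rw [show Real.sqrt Real.pi ^ 5 = (Real.sqrt Real.pi ^ 2) ^ 2 * Real.sqrt Real.pi by ring, h2]
  field_simp
  ring

/-- the determinant of a family of five vectors -/
noncomputable def D5 (b : Fin 5 → E5) : ℝ := (Matrix.of fun i j => b i j).det

lemma volume_fd (b : Module.Basis (Fin 5) ℝ E5) :
    MeasureTheory.volume (ZSpan.fundamentalDomain b) = ENNReal.ofReal |D5 b| := by
  let b0 := EuclideanSpace.basisFun (Fin 5) ℝ
  rw [ZSpan.measure_fundamentalDomain b MeasureTheory.volume b0.toBasis]
  have h1 : MeasureTheory.volume (ZSpan.fundamentalDomain b0.toBasis) = 1 := by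
    rw [MeasureTheory.measure_congr
      (ZSpan.fundamentalDomain_ae_parallelepiped b0.toBasis MeasureTheory.volume)]
    rw [OrthonormalBasis.coe_toBasis]
    exact b0.volume_parallelepiped
  have h2 : b0.toBasis.det b = D5 b := by
    rw [Module.Basis.det_apply, D5, ← Matrix.det_transpose]
    congr 1
  rw [h1, h2, mul_one]

lemma minkowski {L : AddSubgroup E5} (hmin : ∀ y ∈ L, y ≠ 0 → 2 ≤ ‖y‖)
    (b : Module.Basis (Fin 5) ℝ E5)
    (hb : (Submodule.span ℤ (Set.range b)).toAddSubgroup = L) : 26 / 5 ≤ |D5 b| := by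
  by_contra hcon
  push Not at hcon
  have hfd := ZSpan.isAddFundamentalDomain' b (MeasureTheory.volume : MeasureTheory.Measure E5)
  have hlt : MeasureTheory.volume (ZSpan.fundamentalDomain b) * 2 ^ Module.finrank ℝ E5 <
      MeasureTheory.volume (Metric.ball (0 : E5) 2) := by
    rw [volume_fd, vol_ball_two]
    have : (2 : ENNReal) ^ Module.finrank ℝ E5 = ENNReal.ofReal 32 := by
      rw [finrank_euclideanSpace_fin]
      norm_num
    rw [this, ← ENNReal.ofReal_mul (abs_nonneg _)]
    apply (ENNReal.ofReal_lt_ofReal_iff (by positivity)).2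
    have hpi := Real.pi_gt_d2
    nlinarith
  have : Countable (Submodule.span ℤ (Set.range b)).toAddSubgroup :=
    inferInstanceAs (Countable (Submodule.span ℤ (Set.range b)))
  obtain ⟨x, hx0, hx⟩ :=
    MeasureTheory.exists_ne_zero_mem_lattice_of_measure_mul_two_pow_lt_measure hfd
      (fun y hy => by simpa using hy) (convex_ball _ _) hlt
  have h1 : (x : E5) ∈ L := by rw [← hb]; exact x.2
  have h2 : (x : E5) ≠ 0 := by simpa using hx0
  have h3 := hmin _ h1 h2
  have h4 : ‖(x : E5)‖ < 2 := by simpa using hx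
  linarith

/-- a lattice has a basis -/
lemma exists_basis {L : AddSubgroup E5} (hd : DiscreteTopology L) (hL : Lat L) :
    ∃ b : Module.Basis (Fin 5) ℝ E5,
      (Submodule.span ℤ (Set.range b)).toAddSubgroup = L := by
  let L' : Submodule ℤ E5 := AddSubgroup.toIntSubmodule L
  have : DiscreteTopology L' := hd
  have hspan : Submodule.span ℝ (L' : Set E5) = ⊤ := by
    by_contra hne
    obtain ⟨φ, hφ, hφ2⟩ := Submodule.exists_dual_map_eq_bot_of_lt_top
      (lt_top_iff_ne_top.2 hne) inferInstance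
    have hφ3 : ∀ v ∈ Submodule.span ℝ (L' : Set E5), φ v = 0 := by
      intro v hv
      have : φ v ∈ Submodule.map φ (Submodule.span ℝ (L' : Set E5)) :=
        Submodule.mem_map_of_mem hv
      rw [hφ2] at this
      simpa using this
    let u : E5 := (InnerProductSpace.toDual ℝ E5).symm (LinearMap.toContinuousLinearMap φ)
    have hu : ∀ y, inner ℝ u y = φ y := by
      intro y
      simp [u]
    have hu0 : u = 0 := by
      apply vanish hL u 0
      intro y hy
      rw [real_inner_comm, hu, hφ3 y (Submodule.subset_span hy), add_zero]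
    apply hφ
    apply LinearMap.ext
    intro y
    rw [← hu, hu0]
    simp
  have : IsZLattice ℝ L' := ⟨hspan⟩
  have : Module.Free ℤ L' := ZLattice.module_free ℝ L'
  have : Module.Finite ℤ L' := ZLattice.module_finite ℝ L'
  have hrank : Module.finrank ℤ L' = 5 := by
    rw [ZLattice.rank ℝ L']; simp
  let bz : Module.Basis (Fin 5) ℤ L' := Module.finBasisOfFinrankEq ℤ L' hrank
  refine ⟨bz.ofZLatticeBasis ℝ L', ?_⟩
  have := bz.ofZLatticeBasis_span ℝ L'
  rw [this]
  rfl

end Pool.Agent.Lib_helper17.Rogers
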