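import Pool.Agent.Lib_helper17.Rogers.Geo2
import Pool.Agent.Lib_helper17.Rogers.ChkTree

set_option autoImplicit false

open Finset

namespace Pool.Agent.Lib_helper17.Rogers

/-- a quarter of the squared distances -/
noncomputable def dd (w : Fin 6 → E5) (k l : Fin 6) : ℝ := ‖w k - w l‖ ^ 2 / 4

/-- affine combinations of the vertices of `w` -/
noncomputable def pts (w : Fin 6 → E5) (x : Fin 6 → Fin 6 → ℤ) : Fin 6 → E5 :=
  fun i => ∑ k, (x i k : ℝ) • w k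

lemma Phi_half {d : Fin 6 → Fin 6 → ℝ} (hd0 : ∀ k, d k k = 0) (hds : ∀ k l, d k l = d l k)
    {A : Fin 6 → Fin 6 → ℤ} (hA : ∀ k l, A k l = A l k) :
    Phi d A = (1 / 2) * ∑ k, ∑ l, (A k l : ℝ) * d k l := by
  simp only [Fin.sum_univ_six, hd0]
  rw [hA 1 0, hA 2 0, hA 2 1, hA 3 0, hA 3 1, hA 3 2, hA 4 0, hA 4 1, hA 4 2, hA 4 3,
    hA 5 0, hA 5 1, hA 5 2, hA 5 3, hA 5 4,
    hds 1 0, hds 2 0, hds 2 1, hds 3 0, hds 3 1, hds 3 2, hds 4 0, hds 4 1, hds 4 2, hds 4 3,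
    hds 5 0, hds 5 1, hds 5 2, hds 5 3, hds 5 4]
  unfold Phi
  ring

lemma norm_sq_sum (a : Fin 6 → ℝ) (u : Fin 6 → E5) :
    ‖∑ k, a k • u k‖ ^ 2 = ∑ k, ∑ l, a k * a l * inner ℝ (u k) (u l) := by
  rw [← real_inner_self_eq_norm_sq, sum_inner]
  refine Finset.sum_congr rfl fun k _ => ?_
  rw [inner_sum]
  refine Finset.sum_congr rfl fun l _ => ?_
  rw [real_inner_smul_left, real_inner_smul_right]
  ring

lemma sum_Mat_inner (x : Fin 6 → Fin 6 → ℤ) (v : Fin 6 → ℤ) (u : Fin 6 → E5) :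
    ∑ k, ∑ l, (Mat x v k l : ℝ) * inner ℝ (u k) (u l) =
      ‖∑ k, (lc v x k : ℝ) • u k‖ ^ 2 -
        ((∑ i, v i : ℤ) : ℝ) * ∑ i, (v i : ℝ) * ‖∑ k, (x i k : ℝ) • u k‖ ^ 2 := by
  simp only [norm_sq_sum]
  have h1 : ∑ i, (v i : ℝ) * ∑ k, ∑ l, (x i k : ℝ) * (x i l : ℝ) * inner ℝ (u k) (u l) =
      ∑ k, ∑ l, (∑ i, (v i : ℝ) * ((x i k : ℝ) * (x i l : ℝ))) * inner ℝ (u k) (u l) := by
    simp only [Finset.mul_sum, Finset.sum_mul]
    rw [Finset.sum_comm]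
    refine Finset.sum_congr rfl fun k _ => ?_
    rw [Finset.sum_comm]
    refine Finset.sum_congr rfl fun l _ => ?_
    refine Finset.sum_congr rfl fun i _ => ?_
    ring
  rw [h1, Finset.mul_sum, ← Finset.sum_sub_distrib]
  refine Finset.sum_congr rfl fun k _ => ?_
  rw [Finset.mul_sum, ← Finset.sum_sub_distrib]
  refine Finset.sum_congr rfl fun l _ => ?_
  unfold Mat
  push_cast
  ring

lemma lc_sum {x : Fin 6 → Fin 6 → ℤ} (hx : ∀ i, ∑ k, x i k = 1) (v : Fin 6 → ℤ) :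
    ∑ k, lc v x k = ∑ i, v i := by
  unfold lc
  rw [Finset.sum_comm]
  refine Finset.sum_congr rfl fun i _ => ?_
  rw [← Finset.mul_sum, hx i, mul_one]

lemma Mat_row {x : Fin 6 → Fin 6 → ℤ} (hx : ∀ i, ∑ k, x i k = 1) (v : Fin 6 → ℤ) (k : Fin 6) :
    ∑ l, Mat x v k l = 0 := by
  unfold Mat
  rw [Finset.sum_sub_distrib, ← Finset.mul_sum, lc_sum hx, ← Finset.mul_sum, Finset.sum_comm]
  have : ∑ i, ∑ l, v i * (x i k * x i l) = lc v x k := by
    unfold lc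
    refine Finset.sum_congr rfl fun i _ => ?_
    rw [← Finset.mul_sum, ← Finset.mul_sum, hx i, mul_one]
  rw [this]
  ring

lemma Mat_symm (x : Fin 6 → Fin 6 → ℤ) (v : Fin 6 → ℤ) (k l : Fin 6) :
    Mat x v k l = Mat x v l k := by
  unfold Mat
  rw [mul_comm (lc v x k)]
  congr 1
  congr 1
  refine Finset.sum_congr rfl fun i _ => ?_
  ring

lemma sum_dist {A : Fin 6 → Fin 6 → ℤ} (hA : ∀ k l, A k l = A l k) (hr : ∀ k, ∑ l, A k l = 0)
    (u : Fin 6 → E5) :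
    ∑ k, ∑ l, (A k l : ℝ) * ‖u k - u l‖ ^ 2 = -2 * ∑ k, ∑ l, (A k l : ℝ) * inner ℝ (u k) (u l) := by
  have hr' : ∀ k, ∑ l, (A k l : ℝ) = 0 := by
    intro k
    have := hr k
    exact_mod_cast this
  have h1 : ∑ k, ∑ l, (A k l : ℝ) * ‖u k - u l‖ ^ 2 =
      ∑ k, ∑ l, ((A k l : ℝ) * ‖u k‖ ^ 2 + (A k l : ℝ) * ‖u l‖ ^ 2 -
        2 * ((A k l : ℝ) * inner ℝ (u k) (u l))) := by
    refine Finset.sum_congr rfl fun k _ => Finset.sum_congr rfl fun l _ => ?_
    rw [norm_sub_sq_real]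
    ring
  rw [h1]
  simp only [Finset.sum_sub_distrib, Finset.sum_add_distrib]
  have h2 : ∑ k, ∑ l, (A k l : ℝ) * ‖u k‖ ^ 2 = 0 := by
    refine Finset.sum_eq_zero fun k _ => ?_
    rw [← Finset.sum_mul, hr' k, zero_mul]
  have h3 : ∑ k, ∑ l, (A k l : ℝ) * ‖u l‖ ^ 2 = 0 := by
    rw [Finset.sum_comm]
    refine Finset.sum_eq_zero fun k _ => ?_
    rw [← Finset.sum_mul]
    have : ∑ l, (A l k : ℝ) = ∑ l, (A k l : ℝ) := Finset.sum_congr rfl fun l _ => by rw [hA]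
    rw [this, hr' k, zero_mul]
  rw [h2, h3]
  simp only [← Finset.mul_sum]
  ring

lemma sum_smul_sub {a : Fin 6 → ℤ} (w : Fin 6 → E5) (c : E5) :
    ∑ k, (a k : ℝ) • (w k - c) = ∑ k, (a k : ℝ) • w k - ((∑ k, a k : ℤ) : ℝ) • c := by
  simp only [smul_sub, Finset.sum_sub_distrib]
  rw [← Finset.sum_smul]
  push_cast
  rfl

/-- the main identity -/
lemma Phi_Mat (w : Fin 6 → E5) (c : E5) {x : Fin 6 → Fin 6 → ℤ} (hx : ∀ i, ∑ k, x i k = 1)
    (v : Fin 6 → ℤ) :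
    Phi (dd w) (Mat x v) = (((∑ i, v i : ℤ) : ℝ) * ∑ i, (v i : ℝ) * ‖pts w x i - c‖ ^ 2 -
      ‖∑ i, (v i : ℝ) • (pts w x i - c)‖ ^ 2) / 4 := by
  rw [Phi_half (fun k => by simp [dd]) (fun k l => by simp [dd, norm_sub_rev]) (Mat_symm x v)]
  have h1 : ∑ k, ∑ l, (Mat x v k l : ℝ) * dd w k l =
      (1 / 4) * ∑ k, ∑ l, (Mat x v k l : ℝ) * ‖(w k - c) - (w l - c)‖ ^ 2 := by
    rw [Finset.mul_sum]
    refine Finset.sum_congr rfl fun k _ => ?_
    rw [Finset.mul_sum]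
    refine Finset.sum_congr rfl fun l _ => ?_
    rw [dd, sub_sub_sub_cancel_right]
    ring
  rw [h1, sum_dist (Mat_symm x v) (Mat_row hx v) (fun k => w k - c),
    sum_Mat_inner x v (fun k => w k - c)]
  have h2 : ∀ i, ∑ k, (x i k : ℝ) • (w k - c) = pts w x i - c := by
    intro i
    rw [sum_smul_sub, hx i]
    simp [pts]
  simp only [h2]
  have h3 : ∑ k, (lc v x k : ℝ) • (w k - c) = ∑ i, (v i : ℝ) • (pts w x i - c) := by
    simp only [← h2]
    simp only [Finset.smul_sum, smul_smul]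
    rw [Finset.sum_comm]
    refine Finset.sum_congr rfl fun k _ => ?_
    unfold lc
    push_cast
    rw [Finset.sum_smul]
  rw [h3]
  ring

/-- the predicate for the checker -/
def DelP (L : AddSubgroup E5) (w : Fin 6 → E5) (x : Fin 6 → Fin 6 → ℤ) : Prop :=
  (∀ i, ∑ k, x i k = 1) ∧ IsDel L (pts w x)

lemma hom_add_sub_smul (y : E5) (a : Fin 6 → ℝ) (w : Fin 6 → E5) (h : hom y = ∑ k, a k • hom (w k)) :
    y = ∑ k, a k • w k ∧ ∑ k, a k = 1 := by
  constructor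
  · ext j
    have := congrFun h j.succ
    rw [hom_succ, Finset.sum_apply] at this
    rw [this, WithLp.ofLp_sum, Finset.sum_apply]
    rfl
  · have := congrFun h 0
    rw [hom_zero', Finset.sum_apply] at this
    simpa [hom_zero'] using this.symm

lemma hom_sum {a : Fin 6 → ℝ} (ha : ∑ k, a k = 1) (w : Fin 6 → E5) :
    hom (∑ k, a k • w k) = ∑ k, a k • hom (w k) := by
  funext j
  rw [Finset.sum_apply]
  refine Fin.cases ?_ (fun j => ?_) j
  · simpa [hom_zero'] using ha.symm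
  · rw [hom_succ, WithLp.ofLp_sum, Finset.sum_apply]
    rfl

lemma rho_le {L : AddSubgroup E5} (hL : Lat L) {c : E5} {ρ : ℝ}
    (h : ∀ y ∈ L, ρ ≤ ‖y - c‖ ^ 2) : ρ ≤ 152 / 75 := by
  obtain ⟨y, hy, hy2⟩ := hL.cov c
  have := h y hy
  rw [norm_sub_rev] at this
  linarith

lemma Hm_inj {w : Fin 6 → E5} (h : (Hm w).det ≠ 0) {a : Fin 6 → ℝ} (ha : ∑ k, a k = 0)
    (ha2 : ∑ k, a k • w k = 0) : a = 0 := by
  have h1 : Matrix.vecMul a (Hm w) = 0 := by
    funext j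
    rw [Matrix.vecMul, dotProduct]
    refine Fin.cases ?_ (fun j => ?_) j
    · simpa [Hm, hom_zero'] using ha
    · have := congrArg (fun y : E5 => y j) ha2
      simp only [WithLp.ofLp_sum, Finset.sum_apply] at this
      simpa [Hm, hom_succ] using this
  exact Matrix.eq_zero_of_vecMul_eq_zero h h1

lemma zsum_mem {L : AddSubgroup E5} {w : Fin 6 → E5} (hw : ∀ i, w i ∈ L) (a : Fin 6 → ℤ) :
    ∑ i, (a i : ℝ) • w i ∈ L := by
  refine AddSubgroup.sum_mem _ fun i _ => ?_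
  rw [Int.cast_smul_eq_zsmul]
  exact AddSubgroup.zsmul_mem _ (hw i) _

lemma item_fact {L : AddSubgroup E5} (hL : Lat L) (w : Fin 6 → E5) {x : Fin 6 → Fin 6 → ℤ}
    (hx : DelP L w x) (v : Fin 6 → ℤ) : 75 * Phi (dd w) (Mat x v) ≤ rhsR v := by
  obtain ⟨hx1, hx2⟩ := hx
  obtain ⟨c, ρ, hc1, hc2⟩ := hx2.sphere
  have hρ := rho_le hL hc2
  rw [Phi_Mat w c hx1 v]
  simp only [hc1]
  rw [← Finset.sum_mul]
  have hW : ∑ i, (v i : ℝ) = ((∑ i, v i : ℤ) : ℝ) := by push_cast; rfl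
  rw [hW]
  have e := sum_smul_sub (a := v) (pts w x) c
  unfold rhsR
  by_cases h0 : ∑ i, v i = 0
  · rw [if_pos h0, h0]
    rw [e, h0]
    simp only [Int.cast_zero, zero_mul, zero_smul, sub_zero, zero_sub]
    by_cases hv : v = 0
    · rw [if_pos hv]
      have := sq_nonneg ‖∑ i, (v i : ℝ) • pts w x i‖
      push_cast
      linarith
    · rw [if_neg hv]
      have hmem := zsum_mem hx2.mem v
      have hne : ∑ i, (v i : ℝ) • pts w x i ≠ 0 := by
        intro h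
        apply hv
        have h2 := Hm_inj hx2.det (a := fun i => (v i : ℝ)) (by rw [hW, h0]; simp) h
        funext i
        have := congrFun h2 i
        simpa using this
      have := hL.min _ hmem hne
      push_cast
      nlinarith
  · rw [if_neg h0]
    by_cases h1 : ∑ i, v i = 1
    · rw [if_pos h1, h1]
      rw [e, h1]
      simp only [Int.cast_one, one_mul, one_smul]
      have := hc2 _ (zsum_mem hx2.mem v)
      push_cast
      linarith
    · rw [if_neg h1]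
      have h2 := sq_nonneg ‖∑ i, (v i : ℝ) • (pts w x i - c)‖
      push_cast
      have h3 : (∑ i, (v i : ℝ)) * ((∑ i, (v i : ℝ)) * ρ) ≤ (∑ i, (v i : ℝ)) ^ 2 * (152 / 75) := by
        nlinarith [sq_nonneg (∑ i, (v i : ℝ))]
      linarith

lemma pts_idm (w : Fin 6 → E5) : pts w idm = w := by
  funext i
  simp [pts, idm]

lemma DelP_idm {L : AddSubgroup E5} {w : Fin 6 → E5} (hw : IsDel L w) : DelP L w idm := by
  refine ⟨fun i => ?_, ?_⟩
  · simp [idm]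
  · rw [pts_idm]; exact hw

lemma w_inj {w : Fin 6 → E5} (h : (Hm w).det ≠ 0) {k l : Fin 6} (hkl : k ≠ l) : w k ≠ w l := by
  intro he
  apply h
  apply Matrix.det_zero_of_row_eq hkl
  funext j
  simp [Hm, he]

lemma Ctx_of {L : AddSubgroup E5} (hL : Lat L) {w : Fin 6 → E5} (hw : IsDel L w) :
    Ctx (dd w) (DelP L w) where
  lo := by
    intro k l hkl
    have h1 := hL.min (w k - w l) (L.sub_mem (hw.mem k) (hw.mem l))
      (sub_ne_zero.2 (w_inj hw.det hkl.ne))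
    unfold dd
    nlinarith
  hi := by
    intro k l hkl
    obtain ⟨c, ρ, hc1, hc2⟩ := hw.sphere
    have hρ := rho_le hL hc2
    have h1 : ‖w k - w l‖ ≤ ‖w k - c‖ + ‖w l - c‖ := by
      have := norm_sub_le (w k - c) (w l - c)
      simpa using this
    have h2 := hc1 k
    have h3 := hc1 l
    unfold dd
    nlinarith [norm_nonneg (w k - w l), norm_nonneg (w k - c), norm_nonneg (w l - c),
      sq_nonneg (‖w k - c‖ - ‖w l - c‖)]
  item := fun x hx v => item_fact hL w hx v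

end Pool.Agent.Lib_helper17.Rogers
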