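import Pool.Agent.Lib_helper17.Rogers.Geo3

set_option autoImplicit false

open Finset

namespace Pool.Agent.Lib_helper17.Rogers

/-- right hand side of an item for the index lemma -/
def rhsI (p : ℤ) (a v : Fin 6 → ℤ) : ℤ :=
  if (∀ i, (v i - a i) % p = 0) ∧ ∑ i, v i = 0 ∧ v ≠ 0 then -75 * p ^ 2 else rhsR v

/-- sum of the products -/
def sumT (L : List (ℕ × (Fin 6 → ℤ))) (k l : Fin 6) : ℤ :=
  (L.map fun q => (q.1 : ℤ) * (q.2 k * q.2 l)).sum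

/-- sum of the right hand sides -/
def sumB (p : ℤ) (a : Fin 6 → ℤ) (L : List (ℕ × (Fin 6 → ℤ))) : ℤ :=
  (L.map fun q => (q.1 : ℤ) * rhsI p a q.2).sum

/-- the lower bound for the linear form -/
def low15 (A : Fin 6 → Fin 6 → ℤ) : ℤ :=
  lowv (A 0 1) + lowv (A 0 2) + lowv (A 1 2) + lowv (A 0 3) + lowv (A 1 3) + lowv (A 2 3) +
  lowv (A 0 4) + lowv (A 1 4) + lowv (A 2 4) + lowv (A 3 4) + lowv (A 0 5) + lowv (A 1 5) +
  lowv (A 2 5) + lowv (A 3 5) + lowv (A 4 5)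

/-- check a certificate for the index lemma -/
def chkI (p : ℤ) (a : Fin 6 → ℤ) (L : List (ℕ × (Fin 6 → ℤ))) : Bool :=
  decide (sumB p a L < low15 (sumT L))

lemma low15_le {d : Fin 6 → Fin 6 → ℝ} (lo : ∀ k l, k < l → 1 ≤ d k l)
    (hi : ∀ k l, k < l → d k l ≤ 152 / 75) (A : Fin 6 → Fin 6 → ℤ) :
    ((low15 A : ℤ) : ℝ) ≤ 75 * Phi d A := by
  have g : ∀ k l : Fin 6, k < l → (lowv (A k l) : ℝ) ≤ 75 * (A k l * d k l) :=
    fun k l hkl => lowv_le (lo k l hkl) (hi k l hkl)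
  have g01 := g 0 1 (by decide); have g02 := g 0 2 (by decide); have g12 := g 1 2 (by decide)
  have g03 := g 0 3 (by decide); have g13 := g 1 3 (by decide); have g23 := g 2 3 (by decide)
  have g04 := g 0 4 (by decide); have g14 := g 1 4 (by decide); have g24 := g 2 4 (by decide)
  have g34 := g 3 4 (by decide); have g05 := g 0 5 (by decide); have g15 := g 1 5 (by decide)
  have g25 := g 2 5 (by decide); have g35 := g 3 5 (by decide); have g45 := g 4 5 (by decide)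
  unfold low15 Phi
  push_cast
  linarith

lemma Mat_idm (v : Fin 6 → ℤ) {k l : Fin 6} (hkl : k ≠ l) : Mat idm v k l = v k * v l := by
  have h1 : ∀ k, lc v idm k = v k := by
    intro k
    unfold lc idm
    simp
  have h2 : ∑ i, v i * (idm i k * idm i l) = 0 := by
    refine Finset.sum_eq_zero fun i _ => ?_
    unfold idm
    by_cases h : k = i
    · have : l ≠ i := fun h' => hkl (h.trans h'.symm)
      simp [this]
    · simp [h]
  unfold Mat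
  rw [h1, h1, h2]
  ring

lemma Phi_idm (d : Fin 6 → Fin 6 → ℝ) (v : Fin 6 → ℤ) :
    Phi d (Mat idm v) = Phi d (fun k l => v k * v l) := by
  unfold Phi
  rw [Mat_idm v (show (0 : Fin 6) ≠ 1 by decide), Mat_idm v (show (0 : Fin 6) ≠ 2 by decide),
    Mat_idm v (show (1 : Fin 6) ≠ 2 by decide), Mat_idm v (show (0 : Fin 6) ≠ 3 by decide),
    Mat_idm v (show (1 : Fin 6) ≠ 3 by decide), Mat_idm v (show (2 : Fin 6) ≠ 3 by decide),
    Mat_idm v (show (0 : Fin 6) ≠ 4 by decide), Mat_idm v (show (1 : Fin 6) ≠ 4 by decide),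
    Mat_idm v (show (2 : Fin 6) ≠ 4 by decide), Mat_idm v (show (3 : Fin 6) ≠ 4 by decide),
    Mat_idm v (show (0 : Fin 6) ≠ 5 by decide), Mat_idm v (show (1 : Fin 6) ≠ 5 by decide),
    Mat_idm v (show (2 : Fin 6) ≠ 5 by decide), Mat_idm v (show (3 : Fin 6) ≠ 5 by decide),
    Mat_idm v (show (4 : Fin 6) ≠ 5 by decide)]

/-- every vector in the class is long -/
def ClsG (w : Fin 6 → E5) (p : ℤ) (a : Fin 6 → ℤ) : Prop :=
  ∀ v : Fin 6 → ℤ, (∀ i, (v i - a i) % p = 0) → ∑ i, v i = 0 → v ≠ 0 →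
    4 * (p : ℝ) ^ 2 ≤ ‖∑ i, (v i : ℝ) • w i‖ ^ 2

lemma rhsI_fact {L : AddSubgroup E5} (hL : Lat L) {w : Fin 6 → E5} (hw : IsDel L w) {p : ℤ}
    {a : Fin 6 → ℤ} (hcls : ClsG w p a) (v : Fin 6 → ℤ) :
    75 * Phi (dd w) (fun k l => v k * v l) ≤ rhsI p a v := by
  rw [← Phi_idm]
  unfold rhsI
  split_ifs with h
  · obtain ⟨h1, h2, h3⟩ := h
    have h4 := hcls v h1 h2 h3
    rw [Phi_Mat w 0 (DelP_idm hw).1 v, pts_idm, h2]
    simp only [sub_zero, Int.cast_zero, zero_mul]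
    push_cast
    linarith
  · exact item_fact hL w (DelP_idm hw) v

lemma Phi_sumT {d : Fin 6 → Fin 6 → ℝ} {p : ℤ} {a : Fin 6 → ℤ}
    (h : ∀ v : Fin 6 → ℤ, 75 * Phi d (fun k l => v k * v l) ≤ rhsI p a v)
    (L : List (ℕ × (Fin 6 → ℤ))) : 75 * Phi d (sumT L) ≤ sumB p a L := by
  induction L with
  | nil =>
    simp [sumT, sumB, Phi]
  | cons q L ih =>
    have e : sumT (q :: L) = fun k l => sumT L k l + (q.1 : ℤ) * (fun k l => q.2 k * q.2 l) k l := by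
      funext k l
      simp only [sumT, List.map_cons, List.sum_cons]
      ring
    rw [e, Phi_addmul]
    simp only [sumB, List.map_cons, List.sum_cons] at ih ⊢
    have h1 := h q.2
    have h2 : (0 : ℝ) ≤ (q.1 : ℝ) := Nat.cast_nonneg _
    push_cast at ih ⊢
    nlinarith

lemma chkI_sound {L : AddSubgroup E5} (hL : Lat L) {w : Fin 6 → E5} (hw : IsDel L w) {p : ℤ}
    {a : Fin 6 → ℤ} (hcls : ClsG w p a) {C : List (ℕ × (Fin 6 → ℤ))} (h : chkI p a C = true) :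
    False := by
  have h1 := Phi_sumT (d := dd w) (rhsI_fact hL hw hcls) C
  have hC := Ctx_of hL hw
  have h2 := low15_le hC.lo hC.hi (sumT C)
  unfold chkI at h
  have h3 := of_decide_eq_true h
  have h4 : ((sumB p a C : ℤ) : ℝ) < ((low15 (sumT C) : ℤ) : ℝ) := by exact_mod_cast h3
  linarith

def ic0 : List (ℕ × (Fin 6 → ℤ)) := [
  (1, ![0, 0, 0, 0, 1, -1])]

def ic1 : List (ℕ × (Fin 6 → ℤ)) := [
  (1, ![0, 0, 1, -1, -1, 1]),
  (1, ![0, 0, 1, -1, 1, -1]),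
  (1, ![0, 0, 1, 1, -1, -1]),
  (1, ![0, 0, 1, 1, 1, 1])]

def ic2 : List (ℕ × (Fin 6 → ℤ)) := [
  (1, ![1, -1, -1, -1, 1, 1]),
  (1, ![1, -1, -1, 1, -1, 1]),
  (1, ![1, -1, -1, 1, 1, -1]),
  (1, ![1, -1, 1, -1, -1, 1]),
  (1, ![1, -1, 1, -1, 1, -1]),
  (1, ![1, -1, 1, 1, -1, -1]),
  (1, ![1, 1, -1, -1, -1, 1]),
  (1, ![1, 1, -1, -1, 1, -1]),
  (1, ![1, 1, -1, 1, -1, -1]),
  (1, ![1, 1, 1, -1, -1, -1]),
  (2, ![1, 1, 1, 1, 1, 1])]

def ic3 : List (ℕ × (Fin 6 → ℤ)) := [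
  (1, ![0, 0, 0, 0, 1, -1])]

def ic4 : List (ℕ × (Fin 6 → ℤ)) := [
  (1, ![0, 0, 0, -2, 1, 1]),
  (1, ![0, 0, 0, 1, -2, 1]),
  (1, ![0, 0, 0, 1, 1, -2])]

def ic5 : List (ℕ × (Fin 6 → ℤ)) := [
  (1, ![0, 0, 0, -1, -1, 2]),
  (1, ![0, 0, 0, -1, 2, -1]),
  (1, ![0, 0, 0, 2, -1, -1])]

def ic6 : List (ℕ × (Fin 6 → ℤ)) := [
  (1, ![0, 0, 1, 1, -1, -1])]

def ic7 : List (ℕ × (Fin 6 → ℤ)) := [
  (1, ![0, -2, 1, 1, 1, -1]),
  (1, ![0, 1, -2, 1, 1, -1]),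
  (1, ![0, 1, 1, -2, 1, -1]),
  (1, ![0, 1, 1, 1, -2, -1])]

def ic8 : List (ℕ × (Fin 6 → ℤ)) := [
  (1, ![0, 1, -1, -1, -1, 2]),
  (1, ![0, 1, -1, -1, 2, -1]),
  (1, ![0, 1, -1, 2, -1, -1]),
  (1, ![0, 1, 2, -1, -1, -1])]

def ic9 : List (ℕ × (Fin 6 → ℤ)) := [
  (1, ![-2, -2, 1, 1, 1, 1]),
  (1, ![-2, 1, -2, 1, 1, 1]),
  (1, ![-2, 1, 1, -2, 1, 1]),
  (1, ![-2, 1, 1, 1, -2, 1]),
  (1, ![-2, 1, 1, 1, 1, -2]),
  (1, ![1, -2, -2, 1, 1, 1]),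
  (1, ![1, -2, 1, -2, 1, 1]),
  (1, ![1, -2, 1, 1, -2, 1]),
  (1, ![1, -2, 1, 1, 1, -2]),
  (1, ![1, 1, -2, -2, 1, 1]),
  (1, ![1, 1, -2, 1, -2, 1]),
  (1, ![1, 1, -2, 1, 1, -2]),
  (1, ![1, 1, 1, -2, -2, 1]),
  (1, ![1, 1, 1, -2, 1, -2]),
  (1, ![1, 1, 1, 1, -2, -2]),
  (4, ![1, 1, 1, 1, 1, 1])]

def ic10 : List (ℕ × (Fin 6 → ℤ)) := [
  (1, ![-1, -1, -1, -1, 2, 2]),
  (1, ![-1, -1, -1, 2, -1, 2]),
  (1, ![-1, -1, -1, 2, 2, -1]),
  (1, ![-1, -1, 2, -1, -1, 2]),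
  (1, ![-1, -1, 2, -1, 2, -1]),
  (1, ![-1, -1, 2, 2, -1, -1]),
  (1, ![-1, 2, -1, -1, -1, 2]),
  (1, ![-1, 2, -1, -1, 2, -1]),
  (1, ![-1, 2, -1, 2, -1, -1]),
  (1, ![-1, 2, 2, -1, -1, -1]),
  (1, ![2, -1, -1, -1, -1, 2]),
  (1, ![2, -1, -1, -1, 2, -1]),
  (1, ![2, -1, -1, 2, -1, -1]),
  (1, ![2, -1, 2, -1, -1, -1]),
  (1, ![2, 2, -1, -1, -1, -1]),
  (4, ![1, 1, 1, 1, 1, 1])]

def ic11 : List (ℕ × (Fin 6 → ℤ)) := [
  (1, ![1, 1, 1, -1, -1, -1]),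
  (1, ![1, 1, 1, 1, 1, 1])]

/-- certificates for `p = 2` -/
def certs2 : List (List (ℕ × (Fin 6 → ℤ))) := [ic0, ic1, ic2]

/-- certificates for `p = 3` -/
def certs3 : List (List (ℕ × (Fin 6 → ℤ))) := [ic3, ic4, ic5, ic6, ic7, ic8, ic9, ic10, ic11]

/-- all the residues are covered -/
def allOK (p : ℕ) (C : List (List (ℕ × (Fin 6 → ℤ)))) : Bool :=
  (List.range p).all fun a => (List.range p).all fun b => (!(Nat.ble a b)) ||
    ((List.range p).all fun c => (!(Nat.ble b c)) ||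
    ((List.range p).all fun d => (!(Nat.ble c d)) ||
    ((List.range p).all fun e => (!(Nat.ble d e)) ||
    ((List.range p).all fun f => (!(Nat.ble e f)) ||
      ((!(Nat.beq (Nat.mod (Nat.add a (Nat.add b (Nat.add c (Nat.add d (Nat.add e f))))) p) 0)) ||
      (Nat.beq f 0 || C.any fun L => chkI p ![a, b, c, d, e, f] L))))))

theorem all2 : allOK 2 certs2 = true := by decide +kernel

theorem all3 : allOK 3 certs3 = true := by decide +kernel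

lemma allOK_spec {p : ℕ} {C : List (List (ℕ × (Fin 6 → ℤ)))} (h : allOK p C = true)
    {a b c d e f : ℕ} (hab : a ≤ b) (hbc : b ≤ c) (hcd : c ≤ d) (hde : d ≤ e) (hef : e ≤ f)
    (hf : f < p) (hs : (a + (b + (c + (d + (e + f))))) % p = 0) (hf0 : f ≠ 0) :
    ∃ L ∈ C, chkI p ![a, b, c, d, e, f] L = true := by
  unfold allOK at h
  have h1 := List.all_eq_true.1 h a (List.mem_range.2 (by omega))
  have h2 := List.all_eq_true.1 h1 b (List.mem_range.2 (by omega))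
  rw [Nat.ble_eq_true_of_le hab] at h2
  have h3 := List.all_eq_true.1 h2 c (List.mem_range.2 (by omega))
  rw [Nat.ble_eq_true_of_le hbc] at h3
  have h4 := List.all_eq_true.1 h3 d (List.mem_range.2 (by omega))
  rw [Nat.ble_eq_true_of_le hcd] at h4
  have h5 := List.all_eq_true.1 h4 e (List.mem_range.2 (by omega))
  rw [Nat.ble_eq_true_of_le hde] at h5
  have h6 := List.all_eq_true.1 h5 f (List.mem_range.2 (by omega))
  rw [Nat.ble_eq_true_of_le hef] at h6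
  have h7 : Nat.beq (Nat.mod (Nat.add a (Nat.add b (Nat.add c (Nat.add d (Nat.add e f))))) p) 0
      = true := beq_true hs
  have h8 : Nat.beq f 0 = false := beq_false hf0
  rw [h7, h8] at h6
  simp only [Bool.not_true, Bool.false_or] at h6
  obtain ⟨L, hL1, hL2⟩ := List.any_eq_true.1 h6
  exact ⟨L, hL1, hL2⟩

end Pool.Agent.Lib_helper17.Rogers
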