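import Pool.Agent.Lib_helper17.Rogers.Apex
import Pool.Agent.Lib_helper17.Rogers.TreeData
import Pool.Agent.Lib_helper17.Rogers.Defs

set_option autoImplicit false

open Finset

namespace Pool.Agent.Lib_helper17.Rogers

attribute [local irreducible] MM BB HH OFF

/-- the two encodings at the root -/
def n1 : ℕ := 0x8018018018007ff7ff

/-- the two encodings at the root -/
def n2 : ℕ := 0x8018018008008007ff

lemma wt_n1 : wt n1 = ![-1, -1, 0, 1, 1, 1] := by
  have h : n1 = enc6 2047 2047 2048 2049 2049 2049 := by decide +kernel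
  rw [h, wt_enc6 (by norm_num) (by norm_num) (by norm_num) (by norm_num) (by norm_num)
    (by norm_num)]
  norm_num

lemma wt_n2 : wt n2 = ![-1, 0, 0, 0, 1, 1] := by
  have h : n2 = enc6 2047 2048 2048 2048 2049 2049 := by decide +kernel
  rw [h, wt_enc6 (by norm_num) (by norm_num) (by norm_num) (by norm_num) (by norm_num)
    (by norm_num)]
  norm_num

lemma root_bound : ∀ n ∈ [n1, n2], ∑ j, |wt n j| ≤ 26 := by
  intro n hn
  simp only [List.mem_cons, List.not_mem_nil, or_false] at hn
  rcases hn with rfl | rfl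
  · rw [wt_n1, Fin.sum_univ_six]; decide
  · rw [wt_n2, Fin.sum_univ_six]; decide

theorem tree_ok' : chkT TreeData.tr87 [PS.base] PS.base 0 [n1, n2] = true := TreeData.tree_ok

lemma root_excluded {L : AddSubgroup E5} (hL : LatB L) {w : Fin 6 → E5} (hw : IsDel L w) {n : ℕ}
    (hn : n ∈ [n1, n2]) : ¬ DelP L w (Function.update idm 0 (lc (wt n) idm)) := by
  obtain ⟨m, hm⟩ : ∃ m, m = MM := ⟨_, rfl⟩
  have hbd : ∀ i k, |idm i k| ≤ bd [PS.base].length := by
    intro i k
    unfold idm
    split_ifs <;> simp [bd]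
  exact chkT_sound (Ctx_of hL.lat hw) (Nb_of hL w) hm TreeData.tr87 [PS.base] PS.base 0 [n1, n2]
    tree_ok' (by simp) (by simp)
    (by
      intro Y hY
      rcases List.mem_cons.1 hY with rfl | hY
      · exact ⟨idm, base_rep hm, DelP_idm hw, hbd⟩
      · simp at hY)
    (by
      intro n hn
      have := root_bound n hn
      simpa [bd] using this)
    idm (base_rep hm) (DelP_idm hw) hbd (by norm_num) n hn

theorem no_lattice {L : AddSubgroup E5} (hL : LatB L) : False := by
  obtain ⟨w, hw⟩ := exists_del hL.lat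
  obtain ⟨z, hz1, hz2, a, ha, ha0⟩ := neighbour_int hL hw 0
  have hsmall := apex_small hL hw hz2 ha ha0
  obtain ⟨σ, hσ, h12, h23, h34, h45⟩ := exists_sort a 0
  have hw1 := hw.perm σ
  have hz3 : IsDel L (Function.update (w ∘ σ) 0 z) := by
    rw [update_perm, hσ]; exact hz2.perm σ
  have ha1 := hom_perm σ ha
  have hsum := (hom_add_sub_smul z (fun k => ((a ∘ σ) k : ℝ)) _ ha1).2
  have hsum' : ∑ k, (a ∘ σ) k = 1 := by exact_mod_cast hsum
  have hb : ∀ j, -1 ≤ (a ∘ σ) j ∧ (a ∘ σ) j ≤ 1 := fun j => abs_le.1 (hsmall _)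
  have h0 : (a ∘ σ) 0 = -1 := by simp [hσ, ha0]
  have g12 : (a ∘ σ) 1 ≤ (a ∘ σ) 2 := h12
  have g23 : (a ∘ σ) 2 ≤ (a ∘ σ) 3 := h23
  have g34 : (a ∘ σ) 3 ≤ (a ∘ σ) 4 := h34
  have g45 : (a ∘ σ) 4 ≤ (a ∘ σ) 5 := h45
  generalize a ∘ σ = b at *
  generalize w ∘ σ = v at *
  have hD : DelP L v (Function.update idm 0 (lc b idm)) := by
    refine DelP_update (DelP_idm hw1) (z := z) ?_ ?_
    · rw [pts_idm]; exact hz3
    · rw [pts_idm]; exact ha1
  rw [Fin.sum_univ_six] at hsum'
  have b1 := hb 1; have b2 := hb 2; have b3 := hb 3; have b4 := hb 4; have b5 := hb 5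
  have hcase : b = ![-1, -1, 0, 1, 1, 1] ∨ b = ![-1, 0, 0, 0, 1, 1] := by
    by_cases h : b 1 = -1
    · left
      have e2 : b 2 = 0 := by omega
      have e3 : b 3 = 1 := by omega
      have e4 : b 4 = 1 := by omega
      have e5 : b 5 = 1 := by omega
      funext i
      fin_cases i <;> simp [*]
    · right
      have e1 : b 1 = 0 := by omega
      have e2 : b 2 = 0 := by omega
      have e3 : b 3 = 0 := by omega
      have e4 : b 4 = 1 := by omega
      have e5 : b 5 = 1 := by omega
      funext i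
      fin_cases i <;> simp [*]
  rcases hcase with h | h
  · apply root_excluded hL hw1 (n := n1) (by simp)
    rw [wt_n1, ← h]
    exact hD
  · apply root_excluded hL hw1 (n := n2) (by simp)
    rw [wt_n2, ← h]
    exact hD

lemma finite_of_discrete {L : AddSubgroup E5} (hd : DiscreteTopology L) (R : ℝ) :
    {y : E5 | y ∈ L ∧ ‖y‖ ≤ R}.Finite := by
  have hcl : IsClosed (L : Set E5) := AddSubgroup.isClosed_of_discrete
  have := Metric.finite_isBounded_inter_isClosed (K := Metric.closedBall (0 : E5) R)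
    (s := (L : Set E5)) (isDiscrete_iff_discreteTopology.2 hd) Metric.isBounded_closedBall hcl
  refine this.subset ?_
  rintro y ⟨h1, h2⟩
  exact ⟨by simpa using h2, h1⟩

/-- Every lattice in `ℝ⁵` whose unit balls form a packing has covering radius at least
`√(152/75)`. -/
theorem lattice_lower {L : AddSubgroup E5} (hd : DiscreteTopology L)
    (hp : IsPacking (Metric.closedBall (0 : E5) 1) (L : Set E5)) {r : ℝ} (hr : 0 < r)
    (hc : IsCovering (Metric.closedBall (0 : E5) 1) (L : Set E5) r) : √(152 / 75) ≤ r := by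
  by_contra hcon
  push Not at hcon
  have hr2 : r ^ 2 ≤ 152 / 75 := by
    have := (Real.lt_sqrt hr.le).1 hcon
    exact this.le
  rw [isPacking_iff] at hp
  rw [isCovering_iff _ hr] at hc
  have hL : Lat L := by
    refine ⟨finite_of_discrete hd, fun y hy hy0 => ?_, fun x => ?_⟩
    · have := hp (show y ∈ (L : Set E5) from hy) (show (0 : E5) ∈ (L : Set E5) from L.zero_mem) hy0
      simpa using this
    · obtain ⟨y, hy, hxy⟩ := hc x
      refine ⟨y, hy, ?_⟩
      rw [dist_eq_norm] at hxy
      exact (pow_le_pow_left₀ (norm_nonneg _) hxy 2).trans hr2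
  exact no_lattice ⟨hL, exists_basis hd hL⟩

/-- the lattice of vectors with even coordinates -/
def evenLattice : AddSubgroup E5 where
  carrier := {y | ∀ i, ∃ n : ℤ, y i = 2 * n}
  zero_mem' := fun i => ⟨0, by simp⟩
  add_mem' := by
    intro x y hx hy i
    obtain ⟨n, hn⟩ := hx i
    obtain ⟨m, hm⟩ := hy i
    exact ⟨n + m, by rw [PiLp.add_apply, hn, hm]; push_cast; ring⟩
  neg_mem' := by
    intro x hx i
    obtain ⟨n, hn⟩ := hx i
    exact ⟨-n, by rw [PiLp.neg_apply, hn]; push_cast; ring⟩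

lemma even_norm {y : E5} (hy : y ∈ evenLattice) (h0 : y ≠ 0) : 2 ≤ ‖y‖ := by
  obtain ⟨i, hi⟩ : ∃ i, y i ≠ 0 := by
    by_contra hcon
    push Not at hcon
    apply h0
    ext i
    simpa using hcon i
  obtain ⟨n, hn⟩ := hy i
  have hn0 : n ≠ 0 := by
    rintro rfl
    apply hi
    rw [hn]; simp
  have h1 : (1 : ℝ) ≤ |(n : ℝ)| := by
    have : (1 : ℤ) ≤ |n| := Int.one_le_abs hn0
    exact_mod_cast this
  have h2 : ‖y i‖ ≤ ‖y‖ := PiLp.norm_apply_le y i
  rw [hn, Real.norm_eq_abs, abs_mul] at h2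
  norm_num at h2
  linarith

lemma even_discrete : DiscreteTopology evenLattice := by
  refine discreteTopology_of_isOpen_singleton_zero ?_
  rw [Metric.isOpen_singleton_iff]
  refine ⟨1, one_pos, fun y hy => ?_⟩
  by_contra h0
  have h1 : (y : E5) ≠ 0 := by simpa using h0
  have h2 := even_norm y.2 h1
  have h3 : ‖(y : E5)‖ < 1 := by
    rw [Subtype.dist_eq, dist_eq_norm] at hy
    simpa using hy
  linarith

lemma lattice_set_nonempty : {r : ℝ | 0 < r ∧ ∃ L : AddSubgroup E5, DiscreteTopology L ∧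
    IsPacking (Metric.closedBall (0 : E5) 1) (L : Set E5) ∧
      IsCovering (Metric.closedBall (0 : E5) 1) (L : Set E5) r}.Nonempty := by
  refine ⟨3, by norm_num, evenLattice, even_discrete, ?_, ?_⟩
  · rw [isPacking_iff]
    intro a ha b hb hab
    rw [dist_eq_norm]
    exact even_norm (evenLattice.sub_mem ha hb) (sub_ne_zero.2 hab)
  · rw [isCovering_iff _ (by norm_num)]
    intro x
    refine ⟨WithLp.toLp 2 (fun i => 2 * (round (x i / 2) : ℝ)), ?_, ?_⟩
    · intro i
      exact ⟨round (x i / 2), rfl⟩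
    · rw [EuclideanSpace.dist_eq]
      rw [Real.sqrt_le_left (by norm_num)]
      have h : ∀ i, dist (x i) ((WithLp.toLp 2 (fun i => 2 * (round (x i / 2) : ℝ)) : E5) i) ^ 2 ≤
          1 := by
        intro i
        have h1 := abs_sub_round (x i / 2)
        rw [Real.dist_eq, sq_abs]
        have h2 := abs_le.1 h1
        simp only
        nlinarith
      calc _ ≤ ∑ _i : Fin 5, (1 : ℝ) := Finset.sum_le_sum fun i _ => h i
        _ ≤ 3 ^ 2 := by simp; norm_num

/-- the lattice constant of the five-dimensional ball -/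
theorem packCoverLattice_five_ge :
    √(152 / 75) ≤ packCoverLattice (Metric.closedBall (0 : E5) 1) := by
  unfold packCoverLattice
  refine le_csInf lattice_set_nonempty ?_
  rintro r ⟨hr, L, hd, hp, hc⟩
  exact lattice_lower hd hp hr hc

end Pool.Agent.Lib_helper17.Rogers
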