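import Pool.Agent.Lib_helper17.Rogers.Unimod
import Pool.Agent.Lib_helper17.Rogers.ApexData

set_option autoImplicit false

open Finset

namespace Pool.Agent.Lib_helper17.Rogers

attribute [local irreducible] MM BB HH OFF

lemma Hm_update (w : Fin 6 → E5) (i : Fin 6) (z : E5) :
    Hm (Function.update w i z) = (Hm w).updateRow i (hom z) := by
  ext k j
  by_cases hk : k = i
  · subst hk
    simp [Hm]
  · simp [Hm, hk]

lemma det_update {w : Fin 6 → E5} (i : Fin 6) {z : E5} {a : Fin 6 → ℝ}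
    (h : hom z = ∑ k, a k • hom (w k)) :
    (Hm (Function.update w i z)).det = a i * (Hm w).det := by
  rw [Hm_update, h]
  exact Matrix.det_updateRow_sum (Hm w) i a

lemma neighbour_real {L : AddSubgroup E5} (hL : Lat L) {w : Fin 6 → E5} (hw : IsDel L w)
    (i : Fin 6) : ∃ z ∈ L, IsDel L (Function.update w i z) ∧
      ∀ α : Fin 6 → ℝ, hom z = ∑ k, α k • hom (w k) → α i < 0 := by
  let h : Fin 6 → ℝ := Matrix.mulVec (Hm w)⁻¹ (fun k => if k = i then -1 else 0)
  have hh : Matrix.mulVec (Hm w) h = fun k => if k = i then -1 else 0 := by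
    simp only [h]
    rw [Matrix.mulVec_mulVec, Matrix.mul_nonsing_inv _ (isUnit_iff_ne_zero.2 hw.det),
      Matrix.one_mulVec]
  obtain ⟨u, τ, hu⟩ := aff_of h
  have hk : ∀ k, inner ℝ (w k) u + τ = if k = i then -1 else 0 := by
    intro k
    rw [hu]
    exact congrFun hh k
  obtain ⟨c, ρ, hc1, hc2⟩ := hw.sphere
  have hex : ∃ z ∈ L, 0 < inner ℝ z u + τ := by
    have hne : i + 1 ≠ i := (by decide : ∀ i : Fin 6, i + 1 ≠ i) i
    refine ⟨w (i + 1) + (w (i + 1) - w i), L.add_mem (hw.mem _) (L.sub_mem (hw.mem _) (hw.mem _)),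
      ?_⟩
    have h1 := hk (i + 1)
    have h2 := hk i
    rw [if_neg hne] at h1
    rw [if_pos rfl] at h2
    rw [inner_add_left, inner_sub_left]
    linarith
  obtain ⟨c', ρ', z, hz1, hz2, hz3, hz4, hz5⟩ := grow hL.fin c u ρ τ hc2 hex
  have hneg : ∀ α : Fin 6 → ℝ, hom z = ∑ k, α k • hom (w k) → α i < 0 := by
    intro α hα
    rw [hu, hα, sum_dotProduct] at hz2
    have : ∑ k, (α k • hom (w k)) ⬝ᵥ h = -α i := by
      have h1 : ∀ k, (α k • hom (w k)) ⬝ᵥ h = α k * (if k = i then -1 else 0) := by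
        intro k
        rw [smul_dotProduct, ← hu, hk k]
        rfl
      simp only [h1]
      simp
    rw [this] at hz2
    linarith
  refine ⟨z, hz1, ⟨?_, ?_, c', ρ', ?_, hz4⟩, hneg⟩
  · intro k
    by_cases hki : k = i
    · subst hki; simpa using hz1
    · rw [Function.update_of_ne hki]; exact hw.mem k
  · obtain ⟨α, hα⟩ : ∃ α : Fin 6 → ℝ, hom z = ∑ k, α k • hom (w k) := by
      refine ⟨Matrix.vecMul (hom z) (Hm w)⁻¹, ?_⟩
      have h1 : ∑ k, (Matrix.vecMul (hom z) (Hm w)⁻¹) k • hom (w k) =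
          Matrix.vecMul (Matrix.vecMul (hom z) (Hm w)⁻¹) (Hm w) := by
        funext j
        rw [Finset.sum_apply]
        conv_rhs => rw [Matrix.vecMul, dotProduct]
        rfl
      rw [h1, Matrix.vecMul_vecMul, Matrix.nonsing_inv_mul _ (isUnit_iff_ne_zero.2 hw.det),
        Matrix.vecMul_one]
    rw [det_update i hα]
    exact mul_ne_zero (hneg α hα).ne hw.det
  · intro k
    by_cases hki : k = i
    · subst hki; simpa using hz3
    · rw [Function.update_of_ne hki]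
      refine hz5 (w k) (hc1 k) ?_
      rw [hk k, if_neg hki]

/-- the lattice together with its properties -/
structure LatB (L : AddSubgroup E5) : Prop where
  lat : Lat L
  basis : ∃ b : Module.Basis (Fin 5) ℝ E5, (Submodule.span ℤ (Set.range b)).toAddSubgroup = L

lemma neighbour_int {L : AddSubgroup E5} (hL : LatB L) {w : Fin 6 → E5} (hw : IsDel L w)
    (i : Fin 6) : ∃ z ∈ L, IsDel L (Function.update w i z) ∧
      ∃ a : Fin 6 → ℤ, hom z = ∑ k, (a k : ℝ) • hom (w k) ∧ a i = -1 := by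
  obtain ⟨z, hz, hz2, hz3⟩ := neighbour_real hL.lat hw i
  obtain ⟨b, hb⟩ := hL.basis
  obtain ⟨a, ha⟩ := integral hL.lat b hb hw hz
  have h1 := hz3 _ ha
  have h1' : a i < 0 := by exact_mod_cast h1
  obtain ⟨A, hA0, hA⟩ := int_matrix b hb hw.mem
  obtain ⟨A', hA0', hA'⟩ := int_matrix b hb hz2.mem
  have h2 := unimodular hL.lat b hb hw hA0 hA
  have h3 := unimodular hL.lat b hb hz2 hA0' hA'
  have h4 := det_update i ha
  rw [det_int_matrix hA, det_int_matrix hA'] at h4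
  have hD : D5 b ≠ 0 := by
    have := minkowski hL.lat.min b hb
    intro h0
    rw [h0] at this
    norm_num at this
  have h5 : (A'.det : ℝ) = (a i : ℝ) * A.det := by
    have : (A'.det : ℝ) * D5 b = ((a i : ℝ) * A.det) * D5 b := by rw [h4]; ring
    exact mul_right_cancel₀ hD this
  have h6 : A'.det = a i * A.det := by exact_mod_cast h5
  have h7 : |a i| = 1 := by
    have := congrArg abs h6
    rw [abs_mul, h2, h3, mul_one] at this
    exact this.symm
  refine ⟨z, hz, hz2, a, ha, ?_⟩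
  rcases abs_cases (a i) with ⟨h8, -⟩ | ⟨h8, -⟩ <;> omega

lemma centroid_bound {L : AddSubgroup E5} (hL : Lat L) {w : Fin 6 → E5} (hw : IsDel L w)
    {c : E5} {ρ : ℝ} (hρ : ρ ≤ 152 / 75) (hc : ∀ i : Fin 5, ‖w i.succ - c‖ ^ 2 = ρ) :
    ‖c - (1 / 5 : ℝ) • ∑ i : Fin 5, w i.succ‖ ^ 2 ≤ 32 / 75 := by
  let u : Fin 5 → E5 := fun i => w i.succ - c
  have hu : ∀ i, ‖u i‖ ^ 2 = ρ := hc
  have hd : ∀ k l, k ≠ l → inner ℝ (u k) (u l) ≤ ρ - 2 := by
    intro k l hkl
    have h1 : 2 ≤ ‖u k - u l‖ := by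
      have h2 := hL.min (w k.succ - w l.succ) (L.sub_mem (hw.mem _) (hw.mem _))
        (sub_ne_zero.2 (w_inj hw.det (fun h => hkl (Fin.succ_injective _ h))))
      simpa [u] using h2
    have h3 := norm_sub_sq_real (u k) (u l)
    rw [hu, hu] at h3
    nlinarith
  have hs : ‖∑ i, u i‖ ^ 2 ≤ 25 * ρ - 40 := by
    rw [← real_inner_self_eq_norm_sq, sum_inner]
    have h1 : ∀ k, inner ℝ (u k) (∑ l, u l) ≤ 5 * ρ - 8 := by
      intro k
      rw [inner_sum, ← Finset.add_sum_erase _ _ (Finset.mem_univ k), real_inner_self_eq_norm_sq,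
        hu k]
      have h2 : ∑ l ∈ Finset.univ.erase k, inner ℝ (u k) (u l) ≤
          ∑ _l ∈ (Finset.univ : Finset (Fin 5)).erase k, (ρ - 2) :=
        Finset.sum_le_sum fun l hl => hd k l (Finset.ne_of_mem_erase hl).symm
      rw [Finset.sum_const, Finset.card_erase_of_mem (Finset.mem_univ k)] at h2
      simp only [Finset.card_univ, Fintype.card_fin, nsmul_eq_mul] at h2
      have h4 : ((5 - 1 : ℕ) : ℝ) = 4 := by norm_num
      rw [h4] at h2
      linarith
    calc ∑ k, inner ℝ (u k) (∑ l, u l) ≤ ∑ _k : Fin 5, (5 * ρ - 8) :=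
          Finset.sum_le_sum fun k _ => h1 k
      _ = 25 * ρ - 40 := by simp; ring
  have e : c - (1 / 5 : ℝ) • ∑ i : Fin 5, w i.succ = -((1 / 5 : ℝ) • ∑ i, u i) := by
    simp only [u, Finset.sum_sub_distrib, Finset.sum_const, Finset.card_univ, Fintype.card_fin,
      smul_sub]
    have : (1 / 5 : ℝ) • (5 : ℕ) • c = c := by
      rw [← Nat.cast_smul_eq_nsmul ℝ, smul_smul]; norm_num
    rw [this]
    abel
  rw [e, norm_neg, norm_smul, mul_pow]
  norm_num
  linarith

lemma coord_bound {L : AddSubgroup E5} (hL : LatB L) {w : Fin 6 → E5} (hw : IsDel L w)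
    {z : E5} (hz : IsDel L (Function.update w 0 z)) {a : Fin 6 → ℤ}
    (ha : hom z = ∑ k, (a k : ℝ) • hom (w k)) (j : Fin 6) : |a j| ≤ 7 := by
  by_contra hcon
  push Not at hcon
  have h8 : (8 : ℤ) ≤ |a j| := hcon
  have h8' : (8 : ℝ) ≤ |(a j : ℝ)| := by exact_mod_cast h8
  obtain ⟨b, hb⟩ := hL.basis
  have hD := minkowski hL.lat.min b hb
  obtain ⟨A, hA0, hA⟩ := int_matrix b hb hw.mem
  have hA1 := unimodular hL.lat b hb hw hA0 hA
  have hA1' : |(A.det : ℝ)| = 1 := by exact_mod_cast hA1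
  obtain ⟨c, ρ, hc1, hc2⟩ := hw.sphere
  obtain ⟨c', ρ', hc1', hc2'⟩ := hz.sphere
  have hρ := rho_le hL.lat hc2
  have hρ' := rho_le hL.lat hc2'
  have hρ0 : 0 ≤ ρ := by rw [← hc1 0]; positivity
  have g1 := centroid_bound hL.lat hw hρ (fun i => hc1 _)
  have g2 := centroid_bound hL.lat hw (c := c') hρ' (fun i => by
    have := hc1' i.succ
    rwa [Function.update_of_ne (Fin.succ_ne_zero i)] at this)
  have hz1 : ‖z - c'‖ ^ 2 = ρ' := by
    have := hc1' 0
    rwa [Function.update_self] at this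
  generalize (1 / 5 : ℝ) • ∑ i : Fin 5, w i.succ = g at g1 g2
  have t1 : ‖z - c‖ ≤ ‖z - c'‖ + ‖c' - g‖ + ‖c - g‖ := by
    have e : z - c = (z - c') + (c' - g) - (c - g) := by abel
    rw [e]
    exact (norm_sub_le _ _).trans (by linarith [norm_add_le (z - c') (c' - g)])
  have n1 : ‖z - c'‖ ≤ 14237 / 10000 := by
    apply le_of_sq_le_sq _ (by norm_num)
    rw [hz1]; norm_num; linarith
  have n2 : ‖c' - g‖ ≤ 65321 / 100000 := by
    apply le_of_sq_le_sq _ (by norm_num)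
    norm_num; linarith
  have n3 : ‖c - g‖ ≤ 65321 / 100000 := by
    apply le_of_sq_le_sq _ (by norm_num)
    norm_num; linarith
  have t2 : ‖z - c‖ ^ 2 ≤ 15 / 2 := by
    have : ‖z - c‖ ≤ 14237 / 10000 + 65321 / 100000 + 65321 / 100000 := by linarith
    nlinarith [norm_nonneg (z - c)]
  have hdet := det_update j ha
  rw [det_int_matrix hA] at hdet
  have hb1 := Hm_det_bound (Function.update w j z) c
  rw [hdet, ← Finset.mul_prod_erase _ _ (Finset.mem_univ j), Function.update_self] at hb1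
  have hprod : ∏ k ∈ Finset.univ.erase j, (‖Function.update w j z k - c‖ ^ 2 + 1 / 2) =
      (ρ + 1 / 2) ^ 5 := by
    have : ∀ k ∈ Finset.univ.erase j, ‖Function.update w j z k - c‖ ^ 2 + 1 / 2 = ρ + 1 / 2 := by
      intro k hk
      rw [Function.update_of_ne (Finset.ne_of_mem_erase hk), hc1]
    rw [Finset.prod_congr rfl this, Finset.prod_const,
      Finset.card_erase_of_mem (Finset.mem_univ j)]
    simp
  rw [hprod] at hb1
  have h2 : (ρ + 1 / 2) ^ 5 ≤ (152 / 75 + 1 / 2) ^ 5 :=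
    pow_le_pow_left₀ (by positivity) (by linarith) 5
  have h3 : ((a j : ℝ) * ((A.det : ℝ) * D5 b)) ^ 2 = |(a j : ℝ)| ^ 2 * |D5 b| ^ 2 := by
    rw [mul_pow, mul_pow, sq_abs, sq_abs]
    have : (A.det : ℝ) ^ 2 = 1 := by rw [← sq_abs, hA1']; norm_num
    rw [this, one_mul]
  have h4 : (8 : ℝ) ^ 2 * (26 / 5) ^ 2 ≤ |(a j : ℝ)| ^ 2 * |D5 b| ^ 2 := by
    apply mul_le_mul
    · exact pow_le_pow_left₀ (by norm_num) h8' 2
    · exact pow_le_pow_left₀ (by norm_num) hD 2
    · positivity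
    · positivity
  rw [h3] at hb1
  have h5 : (‖z - c‖ ^ 2 + 1 / 2) * (ρ + 1 / 2) ^ 5 ≤ 8 * (152 / 75 + 1 / 2) ^ 5 := by
    apply mul_le_mul _ h2 (by positivity) (by norm_num)
    linarith
  have h6 : (8 : ℝ) ^ 2 * (26 / 5) ^ 2 = 1730 + 14 / 25 := by norm_num
  rw [h6] at h4
  norm_num at h5
  linarith

end Pool.Agent.Lib_helper17.Rogers
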