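import Pool.Agent.Lib_helper17.Rogers.Index

set_option autoImplicit false

open Finset

namespace Pool.Agent.Lib_helper17.Rogers

lemma Hm_perm (w : Fin 6 → E5) (σ : Equiv.Perm (Fin 6)) :
    (Hm (w ∘ σ)).det = (Equiv.Perm.sign σ : ℤ) * (Hm w).det := by
  rw [← Matrix.det_permute σ (Hm w)]
  rfl

lemma IsDel.perm {L : AddSubgroup E5} {w : Fin 6 → E5} (h : IsDel L w)
    (σ : Equiv.Perm (Fin 6)) : IsDel L (w ∘ σ) := by
  obtain ⟨c, ρ, h1, h2⟩ := h.sphere
  refine ⟨fun i => h.mem _, ?_, c, ρ, fun i => h1 _, h2⟩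
  rw [Hm_perm]
  refine mul_ne_zero ?_ h.det
  rcases Int.units_eq_one_or (Equiv.Perm.sign σ) with h | h <;> rw [h] <;> simp

lemma ClsG_perm {w : Fin 6 → E5} {p : ℤ} {a : Fin 6 → ℤ} (h : ClsG w p a)
    (σ : Equiv.Perm (Fin 6)) : ClsG (w ∘ σ) p (a ∘ σ) := by
  intro v hv hs hne
  have h1 := h (v ∘ σ.symm) ?_ ?_ ?_
  · have : ∑ i, (v i : ℝ) • (w ∘ σ) i = ∑ i, ((v ∘ σ.symm) i : ℝ) • w i := by
      rw [← Equiv.sum_comp σ (fun i => ((v ∘ σ.symm) i : ℝ) • w i)]
      refine Finset.sum_congr rfl fun i _ => ?_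
      simp
    rw [this]
    exact h1
  · intro j
    have := hv (σ.symm j)
    simpa using this
  · rw [← hs]
    exact Equiv.sum_comp σ.symm v
  · intro h0
    apply hne
    funext i
    have := congrFun h0 (σ i)
    simpa using this

lemma index_contra {L : AddSubgroup E5} (hL : Lat L) {w : Fin 6 → E5} (hw : IsDel L w) {p : ℕ}
    (hp : p = 2 ∨ p = 3) {a : Fin 6 → ℤ} (ha : ∀ i, 0 ≤ a i ∧ a i < p) (hne : a ≠ 0)
    (hs : (∑ i, a i) % p = 0) (hcls : ClsG w p a) : False := by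
  let σ := Tuple.sort a
  have hmono : Monotone (a ∘ σ) := Tuple.monotone_sort a
  have hcls' := ClsG_perm hcls σ
  have hw' := hw.perm σ
  have hs' : (∑ i, (a ∘ σ) i) % p = 0 := by
    rw [← hs]
    congr 1
    exact Equiv.sum_comp σ a
  have ha' : ∀ i, 0 ≤ (a ∘ σ) i ∧ (a ∘ σ) i < p := fun i => ha _
  have hne' : a ∘ σ ≠ 0 := by
    intro h0
    apply hne
    funext i
    have := congrFun h0 (σ.symm i)
    simpa using this
  generalize a ∘ σ = b at *
  have h0 := ha' 0; have h1 := ha' 1; have h2 := ha' 2; have h3 := ha' 3; have h4 := ha' 4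
  have h5 := ha' 5
  have m01 := hmono (show (0 : Fin 6) ≤ 1 by decide)
  have m12 := hmono (show (1 : Fin 6) ≤ 2 by decide)
  have m23 := hmono (show (2 : Fin 6) ≤ 3 by decide)
  have m34 := hmono (show (3 : Fin 6) ≤ 4 by decide)
  have m45 := hmono (show (4 : Fin 6) ≤ 5 by decide)
  rw [Fin.sum_univ_six] at hs'
  have hf : b 5 ≠ 0 := by
    intro h
    apply hne'
    funext i
    fin_cases i <;> simp <;> omega
  have key : ∀ C, allOK p C = true → False := by
    intro C hC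
    obtain ⟨Q, -, hQ⟩ := allOK_spec hC (a := (b 0).toNat) (b := (b 1).toNat) (c := (b 2).toNat)
      (d := (b 3).toNat) (e := (b 4).toNat) (f := (b 5).toNat) (by omega) (by omega) (by omega)
      (by omega) (by omega) (by omega) (by
        have : (((b 0).toNat + ((b 1).toNat + ((b 2).toNat + ((b 3).toNat + ((b 4).toNat +
          (b 5).toNat)))) : ℕ) : ℤ) = b 0 + b 1 + b 2 + b 3 + b 4 + b 5 := by
          push_cast
          rw [Int.toNat_of_nonneg h0.1, Int.toNat_of_nonneg h1.1, Int.toNat_of_nonneg h2.1,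
            Int.toNat_of_nonneg h3.1, Int.toNat_of_nonneg h4.1, Int.toNat_of_nonneg h5.1]
          ring
        have h6 : ((((b 0).toNat + ((b 1).toNat + ((b 2).toNat + ((b 3).toNat + ((b 4).toNat +
          (b 5).toNat)))) : ℕ) : ℤ)) % (p : ℤ) = 0 := by rw [this]; exact hs'
        exact_mod_cast h6) (by omega)
    have e : (![((b 0).toNat : ℤ), ((b 1).toNat : ℤ), ((b 2).toNat : ℤ), ((b 3).toNat : ℤ),
        ((b 4).toNat : ℤ), ((b 5).toNat : ℤ)] : Fin 6 → ℤ) = b := by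
      rw [Int.toNat_of_nonneg h0.1, Int.toNat_of_nonneg h1.1, Int.toNat_of_nonneg h2.1,
            Int.toNat_of_nonneg h3.1, Int.toNat_of_nonneg h4.1, Int.toNat_of_nonneg h5.1]
      funext i
      fin_cases i <;> rfl
    rw [e] at hQ
    exact chkI_sound hL hw' hcls' hQ
  rcases hp with rfl | rfl
  · exact key _ all2
  · exact key _ all3

/-- the matrix of a basis in homogeneous coordinates -/
def Bm (b : Fin 5 → E5) : Matrix (Fin 6) (Fin 6) ℝ :=
  Matrix.of (Fin.cons (Fin.cons 1 (fun _ => 0)) (fun i => Fin.cons 0 (fun j => b i j)))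

lemma Bm_det (b : Fin 5 → E5) : (Bm b).det = D5 b := by
  rw [Matrix.det_succ_row_zero, Fin.sum_univ_succ]
  have h0 : Bm b 0 0 = 1 := rfl
  have h1 : ∀ j : Fin 5, Bm b 0 j.succ = 0 := fun j => rfl
  simp only [h0, h1, mul_zero, zero_mul, Finset.sum_const_zero, add_zero]
  simp only [Fin.val_zero, pow_zero, one_mul]
  unfold D5
  congr 1

lemma int_row {L : AddSubgroup E5} (b : Module.Basis (Fin 5) ℝ E5)
    (hb : (Submodule.span ℤ (Set.range b)).toAddSubgroup = L) {y : E5} (hy : y ∈ L) :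
    ∃ n : Fin 6 → ℤ, n 0 = 1 ∧ hom y = Matrix.vecMul (fun k => (n k : ℝ)) (Bm b) := by
  have h1 : y ∈ Submodule.span ℤ (Set.range b) := by rw [← hb] at hy; exact hy
  obtain ⟨n, hn⟩ := (Submodule.mem_span_range_iff_exists_fun ℤ).1 h1
  refine ⟨Fin.cons 1 n, rfl, ?_⟩
  funext j
  rw [Matrix.vecMul, dotProduct, Fin.sum_univ_succ]
  simp only [Fin.cons_zero, Fin.cons_succ]
  refine Fin.cases ?_ (fun j => ?_) j
  · simp [hom_zero', Bm]
  · rw [hom_succ, ← hn, WithLp.ofLp_sum, Finset.sum_apply]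
    simp [Bm]

lemma row_mem {L : AddSubgroup E5} (b : Module.Basis (Fin 5) ℝ E5)
    (hb : (Submodule.span ℤ (Set.range b)).toAddSubgroup = L) (n : Fin 6 → ℤ) :
    ∃ y ∈ L, ∀ j : Fin 5, y j = Matrix.vecMul (fun k => (n k : ℝ)) (Bm b) j.succ := by
  refine ⟨∑ i : Fin 5, n i.succ • b i, ?_, fun j => ?_⟩
  · rw [← hb]
    exact Submodule.sum_mem _ fun i _ => Submodule.smul_mem _ _ (Submodule.subset_span ⟨i, rfl⟩)
  · rw [WithLp.ofLp_sum, Finset.sum_apply]
    conv_rhs => rw [Matrix.vecMul, dotProduct, Fin.sum_univ_succ]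
    simp [Bm]

lemma int_matrix {L : AddSubgroup E5} (b : Module.Basis (Fin 5) ℝ E5)
    (hb : (Submodule.span ℤ (Set.range b)).toAddSubgroup = L) {w : Fin 6 → E5}
    (hw : ∀ i, w i ∈ L) : ∃ A : Matrix (Fin 6) (Fin 6) ℤ, (∀ i, A i 0 = 1) ∧
      Hm w = A.map (Int.cast : ℤ → ℝ) * Bm b := by
  choose n hn1 hn2 using fun i => int_row b hb (hw i)
  refine ⟨Matrix.of n, hn1, ?_⟩
  ext i j
  have := congrFun (hn2 i) j
  simpa [Hm, Matrix.mul_apply, Matrix.vecMul, dotProduct] using this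

lemma det_int_matrix {b : Fin 5 → E5} {w : Fin 6 → E5} {A : Matrix (Fin 6) (Fin 6) ℤ}
    (h : Hm w = A.map (Int.cast : ℤ → ℝ) * Bm b) : (Hm w).det = (A.det : ℝ) * D5 b := by
  rw [h, Matrix.det_mul, Bm_det]
  congr 1
  exact (Int.cast_det A).symm

/-- the determinant is not divisible by `2` or `3` -/
lemma not_dvd {L : AddSubgroup E5} (hL : Lat L) (b : Module.Basis (Fin 5) ℝ E5)
    (hb : (Submodule.span ℤ (Set.range b)).toAddSubgroup = L) {w : Fin 6 → E5}
    (hw : IsDel L w) {A : Matrix (Fin 6) (Fin 6) ℤ} (hA0 : ∀ i, A i 0 = 1)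
    (hA : Hm w = A.map (Int.cast : ℤ → ℝ) * Bm b) {p : ℕ} (hp : p = 2 ∨ p = 3) :
    ¬ (p : ℤ) ∣ A.det := by
  intro hdvd
  have hpr : Fact p.Prime := ⟨by rcases hp with rfl | rfl <;> norm_num⟩
  have hdet : (A.map (Int.cast : ℤ → ZMod p)).det = 0 := by
    have : (A.map (Int.cast : ℤ → ZMod p)).det = ((A.det : ℤ) : ZMod p) := (Int.cast_det A).symm
    rw [this]
    exact (ZMod.intCast_zmod_eq_zero_iff_dvd _ _).2 hdvd
  obtain ⟨c, hc0, hc⟩ := Matrix.exists_vecMul_eq_zero_iff.2 hdet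
  let a : Fin 6 → ℤ := fun i => ((c i).val : ℤ)
  have hac : ∀ i, ((a i : ℤ) : ZMod p) = c i := by
    intro i
    simp [a]
  have ha : ∀ i, 0 ≤ a i ∧ a i < p := by
    intro i
    refine ⟨Int.natCast_nonneg _, ?_⟩
    have := ZMod.val_lt (c i)
    show ((c i).val : ℤ) < p
    exact_mod_cast this
  have hane : a ≠ 0 := by
    intro h0
    apply hc0
    funext i
    rw [← hac i, h0]
    simp
  -- vectors congruent to `a` are multiples of `p`
  have hrow : ∀ v : Fin 6 → ℤ, (∀ i, (v i - a i) % p = 0) → ∀ k, (p : ℤ) ∣ Matrix.vecMul v A k := by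
    intro v hv k
    rw [← ZMod.intCast_zmod_eq_zero_iff_dvd]
    have h1 := congrFun hc k
    rw [Pi.zero_apply] at h1
    rw [← h1, Matrix.vecMul, Matrix.vecMul, dotProduct, dotProduct]
    push_cast
    refine Finset.sum_congr rfl fun i _ => ?_
    have h2 : ((v i : ℤ) : ZMod p) = c i := by
      rw [← hac i]
      have h3 : (p : ℤ) ∣ v i - a i := Int.dvd_of_emod_eq_zero (hv i)
      have h4 := (ZMod.intCast_zmod_eq_zero_iff_dvd _ p).2 h3
      push_cast at h4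
      exact sub_eq_zero.1 h4
    rw [h2]
    rfl
  have hsum : (∑ i, a i) % p = 0 := by
    have h1 := hrow a (fun i => by simp) 0
    have h2 : Matrix.vecMul a A 0 = ∑ i, a i := by
      rw [Matrix.vecMul, dotProduct]
      exact Finset.sum_congr rfl fun i _ => by rw [hA0 i, mul_one]
    rw [h2] at h1
    exact Int.emod_eq_zero_of_dvd h1
  apply index_contra hL hw hp ha hane hsum
  intro v hv hs hv0
  choose n hn using hrow v hv
  obtain ⟨y, hyL, hy⟩ := row_mem b hb n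
  have e1 : ∑ i, (v i : ℝ) • w i = (p : ℝ) • y := by
    ext j
    rw [WithLp.ofLp_sum, Finset.sum_apply]
    have h1 : ∑ i, ((v i : ℝ) • w i) j = Matrix.vecMul (fun i => (v i : ℝ)) (Hm w) j.succ := by
      rw [Matrix.vecMul, dotProduct]
      rfl
    rw [PiLp.smul_apply, hy j]
    refine h1.trans ?_
    rw [hA, ← Matrix.vecMul_vecMul]
    have h2 : Matrix.vecMul (fun i => (v i : ℝ)) (A.map (Int.cast : ℤ → ℝ)) =
        (p : ℝ) • (fun k => (n k : ℝ)) := by
      funext k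
      have h3 := hn k
      have h4 : Matrix.vecMul (fun i => (v i : ℝ)) (A.map (Int.cast : ℤ → ℝ)) k =
          ((Matrix.vecMul v A k : ℤ) : ℝ) := by
        rw [Matrix.vecMul, Matrix.vecMul, dotProduct, dotProduct]
        push_cast
        rfl
      rw [h4, h3]
      push_cast
      rfl
    rw [h2, Matrix.smul_vecMul]
    rfl
  have hp0 : (0 : ℝ) < p := by
    rcases hp with rfl | rfl <;> norm_num
  have hy0 : y ≠ 0 := by
    intro h0
    rw [h0, smul_zero] at e1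
    apply hv0
    have h2 := Hm_inj hw.det (a := fun i => (v i : ℝ)) (by
      have : ((∑ i, v i : ℤ) : ℝ) = 0 := by rw [hs]; simp
      push_cast at this
      exact this) e1
    funext i
    have := congrFun h2 i
    simpa using this
  rw [e1, norm_smul, mul_pow]
  have h5 := hL.min y hyL hy0
  have h6 : ‖(p : ℝ)‖ = p := by rw [Real.norm_eq_abs, abs_of_pos hp0]
  rw [h6]
  have h7 : 4 ≤ ‖y‖ ^ 2 := by nlinarith
  have h8 := mul_le_mul_of_nonneg_left h7 (sq_nonneg (p : ℝ))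
  push_cast
  linarith

lemma det_abs_le {L : AddSubgroup E5} (hL : Lat L) (b : Module.Basis (Fin 5) ℝ E5)
    (hb : (Submodule.span ℤ (Set.range b)).toAddSubgroup = L) {w : Fin 6 → E5}
    (hw : IsDel L w) {A : Matrix (Fin 6) (Fin 6) ℤ}
    (hA : Hm w = A.map (Int.cast : ℤ → ℝ) * Bm b) : |A.det| ≤ 4 := by
  by_contra hcon
  push Not at hcon
  have h5 : (5 : ℤ) ≤ |A.det| := hcon
  have h5' : (5 : ℝ) ≤ |(A.det : ℝ)| := by exact_mod_cast h5
  have hD := minkowski hL.min b hb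
  have hdet := det_int_matrix hA
  obtain ⟨c, ρ, hc1, hc2⟩ := hw.sphere
  have hρ := rho_le hL hc2
  have hρ0 : 0 ≤ ρ := by rw [← hc1 0]; positivity
  have h1 := Hm_det_bound w c
  simp only [hc1, Finset.prod_const, Finset.card_univ, Fintype.card_fin] at h1
  have h2 : (ρ + 1 / 2) ^ 6 ≤ (152 / 75 + 1 / 2) ^ 6 :=
    pow_le_pow_left₀ (by positivity) (by linarith) 6
  have h3 : (Hm w).det ^ 2 = |(A.det : ℝ)| ^ 2 * |D5 b| ^ 2 := by
    rw [hdet, mul_pow, sq_abs, sq_abs]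
  have h4 : (5 : ℝ) ^ 2 * (26 / 5) ^ 2 ≤ |(A.det : ℝ)| ^ 2 * |D5 b| ^ 2 := by
    apply mul_le_mul
    · exact pow_le_pow_left₀ (by norm_num) h5' 2
    · exact pow_le_pow_left₀ (by norm_num) hD 2
    · positivity
    · positivity
  rw [h3] at h1
  have h6 : (5 : ℝ) ^ 2 * (26 / 5) ^ 2 = 676 := by norm_num
  rw [h6] at h4
  norm_num at h2
  linarith

/-- empty sphere simplices are unimodular -/
lemma unimodular {L : AddSubgroup E5} (hL : Lat L) (b : Module.Basis (Fin 5) ℝ E5)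
    (hb : (Submodule.span ℤ (Set.range b)).toAddSubgroup = L) {w : Fin 6 → E5}
    (hw : IsDel L w) {A : Matrix (Fin 6) (Fin 6) ℤ} (hA0 : ∀ i, A i 0 = 1)
    (hA : Hm w = A.map (Int.cast : ℤ → ℝ) * Bm b) : |A.det| = 1 := by
  have h1 := det_abs_le hL b hb hw hA
  have h2 := not_dvd hL b hb hw hA0 hA (Or.inl rfl : 2 = 2 ∨ 2 = 3)
  have h3 := not_dvd hL b hb hw hA0 hA (Or.inr rfl : 3 = 2 ∨ 3 = 3)
  have h4 : A.det ≠ 0 := by
    intro h0
    apply h2
    rw [h0]
    exact dvd_zero _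
  push_cast at h2 h3
  have h5 := abs_pos.2 h4
  rcases abs_cases A.det with ⟨h6, -⟩ | ⟨h6, -⟩ <;> omega

/-- every lattice point is an integral affine combination -/
lemma integral {L : AddSubgroup E5} (hL : Lat L) (b : Module.Basis (Fin 5) ℝ E5)
    (hb : (Submodule.span ℤ (Set.range b)).toAddSubgroup = L) {w : Fin 6 → E5}
    (hw : IsDel L w) {z : E5} (hz : z ∈ L) :
    ∃ a : Fin 6 → ℤ, hom z = ∑ k, (a k : ℝ) • hom (w k) := by
  obtain ⟨A, hA0, hA⟩ := int_matrix b hb hw.mem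
  obtain ⟨n, -, hn⟩ := int_row b hb hz
  have h1 := unimodular hL b hb hw hA0 hA
  have h2 : IsUnit A.det := Int.isUnit_iff_abs_eq.2 h1
  refine ⟨Matrix.vecMul n A⁻¹, ?_⟩
  have h3 : ∑ k, ((Matrix.vecMul n A⁻¹ k : ℤ) : ℝ) • hom (w k) =
      Matrix.vecMul (fun k => ((Matrix.vecMul n A⁻¹ k : ℤ) : ℝ)) (Hm w) := by
    funext j
    rw [Finset.sum_apply, Matrix.vecMul, dotProduct]
    rfl
  rw [h3, hA, ← Matrix.vecMul_vecMul, hn]
  congr 1
  funext k
  have h4 : Matrix.vecMul (Matrix.vecMul n A⁻¹) A = n := by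
    rw [Matrix.vecMul_vecMul, Matrix.nonsing_inv_mul _ h2, Matrix.vecMul_one]
  have h5 : Matrix.vecMul (fun k => ((Matrix.vecMul n A⁻¹ k : ℤ) : ℝ))
      (A.map (Int.cast : ℤ → ℝ)) k = ((Matrix.vecMul (Matrix.vecMul n A⁻¹) A k : ℤ) : ℝ) := by
    rw [Matrix.vecMul, Matrix.vecMul, dotProduct, dotProduct]
    push_cast
    rfl
  rw [h5, h4]

end Pool.Agent.Lib_helper17.Rogers
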