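import Pool.Agent.Lib_helper17.Rogers.UpperReal

namespace Pool.Agent.Lib_helper17.Rogers

lemma key_real' {S b1 b2 b3 b4 th : ℝ} (h1 : 0 ≤ b1) (h2 : 0 ≤ b2) (h3 : 0 ≤ b3) (h4 : 0 ≤ b4)
    (hSe : S = b1 ^ 2 + b2 ^ 2 + b3 ^ 2 + b4 ^ 2)
    (hS : S ≤ 1 / 2) (ht0 : 0 ≤ th) (ht1 : th ≤ 1 / 2)
    (c1 : b1 < S / 2 + th ^ 2 / 15 - 1 / 25)
    (c2 : b2 < S / 2 + (1 - th) ^ 2 / 15 - 1 / 25)
    (c3 : b3 < S / 2 + (1 + th) ^ 2 / 15 - 1 / 25)
    (c4 : b4 < S / 2 + (2 - th) ^ 2 / 15 - 1 / 25) : False := by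
  subst hSe
  exact key_real h1 h2 h3 h4 hS ht0 ht1 c1 c2 c3 c4

/-- The point set condition on the integer data `(t; z)`. -/
def Adm (t z1 z2 z3 z4 : ℤ) : Prop :=
  ((Even z1 ∧ Even z2 ∧ Even z3 ∧ Even z4) ∧ (4 : ℤ) ∣ t - (z1 + z2 + z3 + z4)) ∨
  ((Odd z1 ∧ Odd z2 ∧ Odd z3 ∧ Odd z4) ∧ (4 : ℤ) ∣ t - (z1 + z2 + z3 + z4) + 1)

lemma sign_choice (u : ℝ) : ∃ σ : ℤ, (σ = 1 ∨ σ = -1) ∧ (σ : ℝ) * u = |u| := by
  rcases le_total 0 u with h | h
  · exact ⟨1, Or.inl rfl, by rw [abs_of_nonneg h]; simp⟩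
  · exact ⟨-1, Or.inr rfl, by rw [abs_of_nonpos h]; simp⟩

lemma near_int (X : ℝ) : ∃ n s : ℤ, ∃ th : ℝ, (s = 1 ∨ s = -1) ∧ 0 ≤ th ∧ th ≤ 1 / 2 ∧
    (X - n) ^ 2 = th ^ 2 ∧ (X - ((n + s : ℤ) : ℝ)) ^ 2 = (1 - th) ^ 2 ∧
    (X - ((n - s : ℤ) : ℝ)) ^ 2 = (1 + th) ^ 2 ∧
    (X - ((n + 2 * s : ℤ) : ℝ)) ^ 2 = (2 - th) ^ 2 := by
  have hr := abs_sub_round X
  rcases le_total 0 (X - round X) with h | h
  · rw [abs_of_nonneg h] at hr
    exact ⟨round X, 1, X - round X, Or.inl rfl, h, hr, rfl, by push_cast; ring,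
      by push_cast; ring, by push_cast; ring⟩
  · rw [abs_of_nonpos h] at hr
    exact ⟨round X, -1, -(X - round X), Or.inr rfl, by linarith, hr, by ring, by push_cast; ring,
      by push_cast; ring, by push_cast; ring⟩

lemma core_two_odd (X yi yj yk yl : ℝ) (wi wj wk wl : ℤ) (hi : Odd wi) (hj : Odd wj)
    (hk : Even wk) (hl : Even wl)
    (he : (yi - wi) ^ 2 + (yj - wj) ^ 2 + (yk - wk) ^ 2 + (yl - wl) ^ 2 ≤ 1) :
    ∃ t zi zj zk zl : ℤ, Adm t zi zj zk zl ∧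
      (X - t) ^ 2 / 4 + 15 / 16 * ((yi - zi) ^ 2 + (yj - zj) ^ 2 + (yk - zk) ^ 2 + (yl - zl) ^ 2)
        ≤ 81 / 40 := by
  by_contra hcon
  push Not at hcon
  obtain ⟨ei, hei⟩ : ∃ e, e = yi - wi := ⟨_, rfl⟩
  obtain ⟨ej, hej⟩ : ∃ e, e = yj - wj := ⟨_, rfl⟩
  obtain ⟨ek, hek⟩ : ∃ e, e = yk - wk := ⟨_, rfl⟩
  obtain ⟨el, hel⟩ : ∃ e, e = yl - wl := ⟨_, rfl⟩
  rw [← hei, ← hej, ← hek, ← hel] at he
  obtain ⟨S, hS⟩ : ∃ S, S = (ei ^ 2 + ej ^ 2 + ek ^ 2 + el ^ 2) / 2 := ⟨_, rfl⟩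
  obtain ⟨W, hW⟩ : ∃ W, W = wi + wj + wk + wl := ⟨_, rfl⟩
  have F1 : ∀ t : ℤ, (4 : ℤ) ∣ t - (W + 2) →
      |ei + ej| / 2 < S / 2 + (X - t) ^ 2 / 15 - 1 / 25 := by
    intro t ht
    obtain ⟨σ, hσ, hσ'⟩ := sign_choice (ei + ej)
    have h := hcon t (wi + σ) (wj + σ) wk wl (by
      left
      refine ⟨⟨?_, ?_, hk, hl⟩, ?_⟩
      · rcases hσ with h | h <;> subst h
        · exact hi.add_odd odd_one
        · exact hi.add_odd (by decide)
      · rcases hσ with h | h <;> subst h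
        · exact hj.add_odd odd_one
        · exact hj.add_odd (by decide)
      · rcases hσ with h | h <;> subst h <;> omega)
    have e1 : yi - ((wi + σ : ℤ) : ℝ) = ei - σ := by rw [hei]; push_cast; ring
    have e2 : yj - ((wj + σ : ℤ) : ℝ) = ej - σ := by rw [hej]; push_cast; ring
    rw [e1, e2, ← hek, ← hel] at h
    have hs2 : (σ : ℝ) ^ 2 = 1 := by rcases hσ with h | h <;> rw [h] <;> norm_num
    have : (ei - σ) ^ 2 + (ej - σ) ^ 2 + ek ^ 2 + el ^ 2 = 2 * S + 2 * (σ : ℝ) ^ 2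
      - 2 * (σ * (ei + ej)) := by rw [hS]; ring
    rw [this, hs2, hσ'] at h
    linarith
  have F2 : ∀ t : ℤ, (4 : ℤ) ∣ t - W →
      |ei - ej| / 2 < S / 2 + (X - t) ^ 2 / 15 - 1 / 25 := by
    intro t ht
    obtain ⟨σ, hσ, hσ'⟩ := sign_choice (ei - ej)
    have h := hcon t (wi + σ) (wj - σ) wk wl (by
      left
      refine ⟨⟨?_, ?_, hk, hl⟩, ?_⟩
      · rcases hσ with h | h <;> subst h
        · exact hi.add_odd odd_one
        · exact hi.add_odd (by decide)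
      · rcases hσ with h | h <;> subst h
        · exact hj.sub_odd odd_one
        · exact hj.sub_odd (by decide)
      · rcases hσ with h | h <;> subst h <;> omega)
    have e1 : yi - ((wi + σ : ℤ) : ℝ) = ei - σ := by rw [hei]; push_cast; ring
    have e2 : yj - ((wj - σ : ℤ) : ℝ) = ej + σ := by rw [hej]; push_cast; ring
    rw [e1, e2, ← hek, ← hel] at h
    have hs2 : (σ : ℝ) ^ 2 = 1 := by rcases hσ with h | h <;> rw [h] <;> norm_num
    have : (ei - σ) ^ 2 + (ej + σ) ^ 2 + ek ^ 2 + el ^ 2 = 2 * S + 2 * (σ : ℝ) ^ 2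
      - 2 * (σ * (ei - ej)) := by rw [hS]; ring
    rw [this, hs2, hσ'] at h
    linarith
  have F3 : ∀ t : ℤ, (4 : ℤ) ∣ t - (W + 1) →
      |ek + el| / 2 < S / 2 + (X - t) ^ 2 / 15 - 1 / 25 := by
    intro t ht
    obtain ⟨σ, hσ, hσ'⟩ := sign_choice (ek + el)
    have h := hcon t wi wj (wk + σ) (wl + σ) (by
      right
      refine ⟨⟨hi, hj, ?_, ?_⟩, ?_⟩
      · rcases hσ with h | h <;> subst h
        · exact hk.add_odd odd_one
        · exact hk.add_odd (by decide)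
      · rcases hσ with h | h <;> subst h
        · exact hl.add_odd odd_one
        · exact hl.add_odd (by decide)
      · rcases hσ with h | h <;> subst h <;> omega)
    have e1 : yk - ((wk + σ : ℤ) : ℝ) = ek - σ := by rw [hek]; push_cast; ring
    have e2 : yl - ((wl + σ : ℤ) : ℝ) = el - σ := by rw [hel]; push_cast; ring
    rw [e1, e2, ← hei, ← hej] at h
    have hs2 : (σ : ℝ) ^ 2 = 1 := by rcases hσ with h | h <;> rw [h] <;> norm_num
    have : ei ^ 2 + ej ^ 2 + (ek - σ) ^ 2 + (el - σ) ^ 2 = 2 * S + 2 * (σ : ℝ) ^ 2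
      - 2 * (σ * (ek + el)) := by rw [hS]; ring
    rw [this, hs2, hσ'] at h
    linarith
  have F4 : ∀ t : ℤ, (4 : ℤ) ∣ t - (W - 1) →
      |ek - el| / 2 < S / 2 + (X - t) ^ 2 / 15 - 1 / 25 := by
    intro t ht
    obtain ⟨σ, hσ, hσ'⟩ := sign_choice (ek - el)
    have h := hcon t wi wj (wk + σ) (wl - σ) (by
      right
      refine ⟨⟨hi, hj, ?_, ?_⟩, ?_⟩
      · rcases hσ with h | h <;> subst h
        · exact hk.add_odd odd_one
        · exact hk.add_odd (by decide)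
      · rcases hσ with h | h <;> subst h
        · exact hl.sub_odd odd_one
        · exact hl.sub_odd (by decide)
      · rcases hσ with h | h <;> subst h <;> omega)
    have e1 : yk - ((wk + σ : ℤ) : ℝ) = ek - σ := by rw [hek]; push_cast; ring
    have e2 : yl - ((wl - σ : ℤ) : ℝ) = el + σ := by rw [hel]; push_cast; ring
    rw [e1, e2, ← hei, ← hej] at h
    have hs2 : (σ : ℝ) ^ 2 = 1 := by rcases hσ with h | h <;> rw [h] <;> norm_num
    have : ei ^ 2 + ej ^ 2 + (ek - σ) ^ 2 + (el + σ) ^ 2 = 2 * S + 2 * (σ : ℝ) ^ 2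
      - 2 * (σ * (ek - el)) := by rw [hS]; ring
    rw [this, hs2, hσ'] at h
    linarith
  have hSsum : S = (|ei + ej| / 2) ^ 2 + (|ei - ej| / 2) ^ 2 + (|ek + el| / 2) ^ 2 +
      (|ek - el| / 2) ^ 2 := by
    rw [div_pow, div_pow, div_pow, div_pow, sq_abs, sq_abs, sq_abs, sq_abs, hS]; ring
  have hSle : S ≤ 1 / 2 := by rw [hS]; linarith
  obtain ⟨b1, hb1⟩ : ∃ b, b = |ei + ej| / 2 := ⟨_, rfl⟩
  obtain ⟨b2, hb2⟩ : ∃ b, b = |ei - ej| / 2 := ⟨_, rfl⟩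
  obtain ⟨b3, hb3⟩ : ∃ b, b = |ek + el| / 2 := ⟨_, rfl⟩
  obtain ⟨b4, hb4⟩ : ∃ b, b = |ek - el| / 2 := ⟨_, rfl⟩
  have p1 : 0 ≤ b1 := by rw [hb1]; positivity
  have p2 : 0 ≤ b2 := by rw [hb2]; positivity
  have p3 : 0 ≤ b3 := by rw [hb3]; positivity
  have p4 : 0 ≤ b4 := by rw [hb4]; positivity
  rw [← hb1] at F1
  rw [← hb2] at F2
  rw [← hb3] at F3
  rw [← hb4] at F4
  rw [← hb1, ← hb2, ← hb3, ← hb4] at hSsum
  obtain ⟨n, s, th, hs, ht0, ht1, g0, g1, g2, g3⟩ := near_int X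
  have hcase : (4 : ℤ) ∣ n - W ∨ (4 : ℤ) ∣ n - (W + 1) ∨ (4 : ℤ) ∣ n - (W + 2) ∨
      (4 : ℤ) ∣ n - (W - 1) := by omega
  rcases hs with rfl | rfl
  · rcases hcase with h | h | h | h
    · have a1 := F2 n (by omega)
      have a2 := F3 (n + 1) (by omega)
      have a3 := F4 (n - 1) (by omega)
      have a4 := F1 (n + 2 * 1) (by omega)
      rw [g0] at a1; rw [g1] at a2; rw [g2] at a3; rw [g3] at a4
      exact key_real' p2 p3 p4 p1 (by linarith) hSle ht0 ht1 a1 a2 a3 a4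
    · have a1 := F3 n (by omega)
      have a2 := F1 (n + 1) (by omega)
      have a3 := F2 (n - 1) (by omega)
      have a4 := F4 (n + 2 * 1) (by omega)
      rw [g0] at a1; rw [g1] at a2; rw [g2] at a3; rw [g3] at a4
      exact key_real' p3 p1 p2 p4 (by linarith) hSle ht0 ht1 a1 a2 a3 a4
    · have a1 := F1 n (by omega)
      have a2 := F4 (n + 1) (by omega)
      have a3 := F3 (n - 1) (by omega)
      have a4 := F2 (n + 2 * 1) (by omega)
      rw [g0] at a1; rw [g1] at a2; rw [g2] at a3; rw [g3] at a4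
      exact key_real' p1 p4 p3 p2 (by linarith) hSle ht0 ht1 a1 a2 a3 a4
    · have a1 := F4 n (by omega)
      have a2 := F2 (n + 1) (by omega)
      have a3 := F1 (n - 1) (by omega)
      have a4 := F3 (n + 2 * 1) (by omega)
      rw [g0] at a1; rw [g1] at a2; rw [g2] at a3; rw [g3] at a4
      exact key_real' p4 p2 p1 p3 (by linarith) hSle ht0 ht1 a1 a2 a3 a4
  · rcases hcase with h | h | h | h
    · have a1 := F2 n (by omega)
      have a2 := F4 (n + -1) (by omega)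
      have a3 := F3 (n - -1) (by omega)
      have a4 := F1 (n + 2 * -1) (by omega)
      rw [g0] at a1; rw [g1] at a2; rw [g2] at a3; rw [g3] at a4
      exact key_real' p2 p4 p3 p1 (by linarith) hSle ht0 ht1 a1 a2 a3 a4
    · have a1 := F3 n (by omega)
      have a2 := F2 (n + -1) (by omega)
      have a3 := F1 (n - -1) (by omega)
      have a4 := F4 (n + 2 * -1) (by omega)
      rw [g0] at a1; rw [g1] at a2; rw [g2] at a3; rw [g3] at a4
      exact key_real' p3 p2 p1 p4 (by linarith) hSle ht0 ht1 a1 a2 a3 a4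
    · have a1 := F1 n (by omega)
      have a2 := F3 (n + -1) (by omega)
      have a3 := F4 (n - -1) (by omega)
      have a4 := F2 (n + 2 * -1) (by omega)
      rw [g0] at a1; rw [g1] at a2; rw [g2] at a3; rw [g3] at a4
      exact key_real' p1 p3 p4 p2 (by linarith) hSle ht0 ht1 a1 a2 a3 a4
    · have a1 := F4 n (by omega)
      have a2 := F1 (n + -1) (by omega)
      have a3 := F2 (n - -1) (by omega)
      have a4 := F3 (n + 2 * -1) (by omega)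
      rw [g0] at a1; rw [g1] at a2; rw [g2] at a3; rw [g3] at a4
      exact key_real' p4 p1 p2 p3 (by linarith) hSle ht0 ht1 a1 a2 a3 a4

lemma exists_adm (X y1 y2 y3 y4 : ℝ) :
    ∃ t z1 z2 z3 z4 : ℤ, Adm t z1 z2 z3 z4 ∧
      (X - t) ^ 2 / 4 + 15 / 16 * ((y1 - z1) ^ 2 + (y2 - z2) ^ 2 + (y3 - z3) ^ 2 + (y4 - z4) ^ 2)
        ≤ 81 / 40 := by
  obtain ⟨w1, w2, w3, w4, hw, he⟩ := round_even y1 y2 y3 y4
  -- the easy case: a point of the finer lattice which is itself a column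
  have easy : ∀ c : ℤ, ∃ t : ℤ, (4 : ℤ) ∣ t - c ∧ (X - t) ^ 2 ≤ 4 := by
    intro c
    have hr := abs_sub_round ((X - c) / 4)
    refine ⟨c + 4 * round ((X - c) / 4), ⟨round ((X - c) / 4), by ring⟩, ?_⟩
    push_cast
    have h1 : (X - (c + 4 * (round ((X - c) / 4) : ℝ))) =
      4 * ((X - c) / 4 - (round ((X - c) / 4) : ℝ)) := by ring
    rw [h1, mul_pow]
    have h2 : ((X - c) / 4 - (round ((X - c) / 4) : ℝ)) ^ 2 ≤ (1 / 2) ^ 2 := by
      rw [← sq_abs]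
      exact pow_le_pow_left₀ (abs_nonneg _) hr 2
    linarith
  rcases Int.even_or_odd w1 with h1 | h1 <;> rcases Int.even_or_odd w2 with h2 | h2 <;>
    rcases Int.even_or_odd w3 with h3 | h3 <;> rcases Int.even_or_odd w4 with h4 | h4
  · obtain ⟨t, ht, ht'⟩ := easy (w1 + w2 + w3 + w4)
    exact ⟨t, w1, w2, w3, w4, Or.inl ⟨⟨h1, h2, h3, h4⟩, ht⟩, by linarith⟩
  · exfalso; exact Int.not_even_iff_odd.2 (((h1.add h2).add h3).add_odd h4) hw
  · exfalso; exact Int.not_even_iff_odd.2 (((h1.add h2).add_odd h3).add_even h4) hw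
  · -- 3,4 odd
    obtain ⟨t, z3, z4, z1, z2, hA, hc⟩ := core_two_odd X y3 y4 y1 y2 w3 w4 w1 w2 h3 h4 h1 h2
      (by linarith)
    refine ⟨t, z1, z2, z3, z4, ?_, by linarith⟩
    rcases hA with ⟨⟨a, b, c, d⟩, e⟩ | ⟨⟨a, b, c, d⟩, e⟩
    · exact Or.inl ⟨⟨c, d, a, b⟩, by have : z1 + z2 + z3 + z4 = z3 + z4 + z1 + z2 := by ring
                                     rwa [this]⟩
    · exact Or.inr ⟨⟨c, d, a, b⟩, by have : z1 + z2 + z3 + z4 = z3 + z4 + z1 + z2 := by ring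
                                     rwa [this]⟩
  · exfalso; exact Int.not_even_iff_odd.2 (((h1.add_odd h2).add_even h3).add_even h4) hw
  · -- 2,4 odd
    obtain ⟨t, z2, z4, z1, z3, hA, hc⟩ := core_two_odd X y2 y4 y1 y3 w2 w4 w1 w3 h2 h4 h1 h3
      (by linarith)
    refine ⟨t, z1, z2, z3, z4, ?_, by linarith⟩
    rcases hA with ⟨⟨a, b, c, d⟩, e⟩ | ⟨⟨a, b, c, d⟩, e⟩
    · exact Or.inl ⟨⟨c, a, d, b⟩, by have : z1 + z2 + z3 + z4 = z2 + z4 + z1 + z3 := by ring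
                                     rwa [this]⟩
    · exact Or.inr ⟨⟨c, a, d, b⟩, by have : z1 + z2 + z3 + z4 = z2 + z4 + z1 + z3 := by ring
                                     rwa [this]⟩
  · -- 2,3 odd
    obtain ⟨t, z2, z3, z1, z4, hA, hc⟩ := core_two_odd X y2 y3 y1 y4 w2 w3 w1 w4 h2 h3 h1 h4
      (by linarith)
    refine ⟨t, z1, z2, z3, z4, ?_, by linarith⟩
    rcases hA with ⟨⟨a, b, c, d⟩, e⟩ | ⟨⟨a, b, c, d⟩, e⟩
    · exact Or.inl ⟨⟨c, a, b, d⟩, by have : z1 + z2 + z3 + z4 = z2 + z3 + z1 + z4 := by ring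
                                     rwa [this]⟩
    · exact Or.inr ⟨⟨c, a, b, d⟩, by have : z1 + z2 + z3 + z4 = z2 + z3 + z1 + z4 := by ring
                                     rwa [this]⟩
  · exfalso; exact Int.not_even_iff_odd.2 (((h1.add_odd h2).add_odd h3).add_odd h4) hw
  · exfalso; exact Int.not_even_iff_odd.2 (((h1.add_even h2).add_even h3).add_even h4) hw
  · -- 1,4 odd
    obtain ⟨t, z1, z4, z2, z3, hA, hc⟩ := core_two_odd X y1 y4 y2 y3 w1 w4 w2 w3 h1 h4 h2 h3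
      (by linarith)
    refine ⟨t, z1, z2, z3, z4, ?_, by linarith⟩
    rcases hA with ⟨⟨a, b, c, d⟩, e⟩ | ⟨⟨a, b, c, d⟩, e⟩
    · exact Or.inl ⟨⟨a, c, d, b⟩, by have : z1 + z2 + z3 + z4 = z1 + z4 + z2 + z3 := by ring
                                     rwa [this]⟩
    · exact Or.inr ⟨⟨a, c, d, b⟩, by have : z1 + z2 + z3 + z4 = z1 + z4 + z2 + z3 := by ring
                                     rwa [this]⟩
  · -- 1,3 odd
    obtain ⟨t, z1, z3, z2, z4, hA, hc⟩ := core_two_odd X y1 y3 y2 y4 w1 w3 w2 w4 h1 h3 h2 h4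
      (by linarith)
    refine ⟨t, z1, z2, z3, z4, ?_, by linarith⟩
    rcases hA with ⟨⟨a, b, c, d⟩, e⟩ | ⟨⟨a, b, c, d⟩, e⟩
    · exact Or.inl ⟨⟨a, c, b, d⟩, by have : z1 + z2 + z3 + z4 = z1 + z3 + z2 + z4 := by ring
                                     rwa [this]⟩
    · exact Or.inr ⟨⟨a, c, b, d⟩, by have : z1 + z2 + z3 + z4 = z1 + z3 + z2 + z4 := by ring
                                     rwa [this]⟩
  · exfalso; exact Int.not_even_iff_odd.2 (((h1.add_even h2).add_odd h3).add_odd h4) hw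
  · -- 1,2 odd
    obtain ⟨t, z1, z2, z3, z4, hA, hc⟩ := core_two_odd X y1 y2 y3 y4 w1 w2 w3 w4 h1 h2 h3 h4
      (by linarith)
    exact ⟨t, z1, z2, z3, z4, hA, by linarith⟩
  · exfalso; exact Int.not_even_iff_odd.2 (((h1.add_odd h2).add h3).add_odd h4) hw
  · exfalso; exact Int.not_even_iff_odd.2 (((h1.add_odd h2).add_odd h3).add_even h4) hw
  · obtain ⟨t, ht, ht'⟩ := easy (w1 + w2 + w3 + w4 - 1)
    refine ⟨t, w1, w2, w3, w4, Or.inr ⟨⟨h1, h2, h3, h4⟩, ?_⟩, by linarith⟩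
    have : t - (w1 + w2 + w3 + w4) + 1 = t - (w1 + w2 + w3 + w4 - 1) := by ring
    rwa [this]

end Pool.Agent.Lib_helper17.Rogers
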