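import Pool.Agent.Lib_helper17.Rogers.Defs
import Pool.Agent.Lib_helper17.Rogers.UpperCore

open Metric Set

namespace Pool.Agent.Lib_helper17.Rogers

/-- The points of the non-lattice arrangement. -/
noncomputable def pt (t z1 z2 z3 z4 : ℤ) : EuclideanSpace ℝ (Fin 5) :=
  !₂[(t : ℝ) / 2, √15 / 4 * z1, √15 / 4 * z2, √15 / 4 * z3, √15 / 4 * z4]

/-- The non-lattice arrangement. -/
def arr : Set (EuclideanSpace ℝ (Fin 5)) :=
  {p | ∃ t z1 z2 z3 z4 : ℤ, Adm t z1 z2 z3 z4 ∧ p = pt t z1 z2 z3 z4}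

lemma dist_sq_pt (t z1 z2 z3 z4 t' z1' z2' z3' z4' : ℤ) :
    dist (pt t z1 z2 z3 z4) (pt t' z1' z2' z3' z4') ^ 2 =
      ((t : ℝ) - t') ^ 2 / 4 + 15 / 16 * (((z1 : ℝ) - z1') ^ 2 + ((z2 : ℝ) - z2') ^ 2 +
        ((z3 : ℝ) - z3') ^ 2 + ((z4 : ℝ) - z4') ^ 2) := by
  have h15 : (√15 : ℝ) ^ 2 = 15 := Real.sq_sqrt (by norm_num)
  rw [EuclideanSpace.dist_eq, Real.sq_sqrt (by positivity), Fin.sum_univ_five]
  simp only [pt, Real.dist_eq, sq_abs]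
  simp
  linear_combination (((z1 : ℝ) - z1') ^ 2 + ((z2 : ℝ) - z2') ^ 2 +
        ((z3 : ℝ) - z3') ^ 2 + ((z4 : ℝ) - z4') ^ 2) / 16 * h15

lemma int_sq_ge_one {n : ℤ} (h : n ≠ 0) : (1 : ℤ) ≤ n ^ 2 := by
  have := Int.one_le_abs h
  nlinarith [abs_nonneg n, sq_abs n]

/-- the integer inequality behind the packing property -/
lemma pack_int {t z1 z2 z3 z4 t' z1' z2' z3' z4' : ℤ} (h : Adm t z1 z2 z3 z4)
    (h' : Adm t' z1' z2' z3' z4')
    (hne : ¬ (t = t' ∧ z1 = z1' ∧ z2 = z2' ∧ z3 = z3' ∧ z4 = z4')) :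
    64 ≤ 4 * (t - t') ^ 2 + 15 * ((z1 - z1') ^ 2 + (z2 - z2') ^ 2 + (z3 - z3') ^ 2 +
      (z4 - z4') ^ 2) := by
  -- case of the same parity type
  have same : ∀ d k1 k2 k3 k4 : ℤ, (4 : ℤ) ∣ d - (2 * k1 + 2 * k2 + 2 * k3 + 2 * k4) →
      ¬ (d = 0 ∧ k1 = 0 ∧ k2 = 0 ∧ k3 = 0 ∧ k4 = 0) →
      64 ≤ 4 * d ^ 2 + 15 * ((2 * k1) ^ 2 + (2 * k2) ^ 2 + (2 * k3) ^ 2 + (2 * k4) ^ 2) := by
    intro d k1 k2 k3 k4 hd hn
    have e : 4 * d ^ 2 + 15 * ((2 * k1) ^ 2 + (2 * k2) ^ 2 + (2 * k3) ^ 2 + (2 * k4) ^ 2) =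
      4 * d ^ 2 + 60 * (k1 ^ 2 + k2 ^ 2 + k3 ^ 2 + k4 ^ 2) := by ring
    rw [e]
    have n1 := sq_nonneg k1
    have n2 := sq_nonneg k2
    have n3 := sq_nonneg k3
    have n4 := sq_nonneg k4
    have nd := sq_nonneg d
    by_cases hk : k1 ^ 2 + k2 ^ 2 + k3 ^ 2 + k4 ^ 2 = 0
    · have a1 : k1 = 0 := by
        by_contra h0; have := int_sq_ge_one h0; omega
      have a2 : k2 = 0 := by
        by_contra h0; have := int_sq_ge_one h0; omega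
      have a3 : k3 = 0 := by
        by_contra h0; have := int_sq_ge_one h0; omega
      have a4 : k4 = 0 := by
        by_contra h0; have := int_sq_ge_one h0; omega
      subst a1 a2 a3 a4
      have hd0 : d ≠ 0 := fun h0 => hn ⟨h0, rfl, rfl, rfl, rfl⟩
      obtain ⟨c, hc⟩ : (4 : ℤ) ∣ d := by simpa using hd
      have hc0 : c ≠ 0 := by rintro rfl; simp at hc; exact hd0 hc
      have := int_sq_ge_one hc0
      subst hc
      nlinarith
    · by_cases hk1 : 2 ≤ k1 ^ 2 + k2 ^ 2 + k3 ^ 2 + k4 ^ 2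
      · omega
      · have hk2 : k1 ^ 2 + k2 ^ 2 + k3 ^ 2 + k4 ^ 2 = 1 := by omega
        rw [hk2]
        have hd0 : d ≠ 0 := by
          rintro rfl
          -- parity of k1+...+k4 is that of the sum of squares
          have hpar : ∀ k : ℤ, Even (k ^ 2 - k) := by
            intro k
            have : k ^ 2 - k = (k - 1) * ((k - 1) + 1) := by ring
            rw [this]; exact Int.even_mul_succ_self (k - 1)
          obtain ⟨r1, hr1⟩ := hpar k1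
          obtain ⟨r2, hr2⟩ := hpar k2
          obtain ⟨r3, hr3⟩ := hpar k3
          obtain ⟨r4, hr4⟩ := hpar k4
          omega
        have := int_sq_ge_one hd0
        omega
  rcases h with ⟨⟨a1, a2, a3, a4⟩, hd⟩ | ⟨⟨a1, a2, a3, a4⟩, hd⟩ <;>
    rcases h' with ⟨⟨b1, b2, b3, b4⟩, hd'⟩ | ⟨⟨b1, b2, b3, b4⟩, hd'⟩
  · obtain ⟨k1, hk1⟩ := (a1.sub b1).two_dvd
    obtain ⟨k2, hk2⟩ := (a2.sub b2).two_dvd
    obtain ⟨k3, hk3⟩ := (a3.sub b3).two_dvd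
    obtain ⟨k4, hk4⟩ := (a4.sub b4).two_dvd
    rw [hk1, hk2, hk3, hk4]
    apply same
    · omega
    · rintro ⟨r0, r1, r2, r3, r4⟩
      subst r1 r2 r3 r4
      exact hne ⟨by omega, by omega, by omega, by omega, by omega⟩
  · -- mixed
    have o1 := a1.sub_odd b1
    have o2 := a2.sub_odd b2
    have o3 := a3.sub_odd b3
    have o4 := a4.sub_odd b4
    have od : Odd (t - t') := by
      obtain ⟨c1, hc1⟩ := a1
      obtain ⟨c2, hc2⟩ := a2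
      obtain ⟨c3, hc3⟩ := a3
      obtain ⟨c4, hc4⟩ := a4
      obtain ⟨e1, he1⟩ := b1
      obtain ⟨e2, he2⟩ := b2
      obtain ⟨e3, he3⟩ := b3
      obtain ⟨e4, he4⟩ := b4
      rw [Int.odd_iff]; omega
    have nz : ∀ n : ℤ, Odd n → (1 : ℤ) ≤ n ^ 2 := fun n hn =>
      int_sq_ge_one (by rintro rfl; exact absurd hn (by decide))
    have := nz _ o1
    have := nz _ o2
    have := nz _ o3
    have := nz _ o4
    have := nz _ od
    omega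
  · have o1 := a1.sub_even b1
    have o2 := a2.sub_even b2
    have o3 := a3.sub_even b3
    have o4 := a4.sub_even b4
    have od : Odd (t - t') := by
      obtain ⟨c1, hc1⟩ := a1
      obtain ⟨c2, hc2⟩ := a2
      obtain ⟨c3, hc3⟩ := a3
      obtain ⟨c4, hc4⟩ := a4
      obtain ⟨e1, he1⟩ := b1
      obtain ⟨e2, he2⟩ := b2
      obtain ⟨e3, he3⟩ := b3
      obtain ⟨e4, he4⟩ := b4
      rw [Int.odd_iff]; omega
    have nz : ∀ n : ℤ, Odd n → (1 : ℤ) ≤ n ^ 2 := fun n hn =>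
      int_sq_ge_one (by rintro rfl; exact absurd hn (by decide))
    have := nz _ o1
    have := nz _ o2
    have := nz _ o3
    have := nz _ o4
    have := nz _ od
    omega
  · obtain ⟨k1, hk1⟩ := (a1.sub_odd b1).two_dvd
    obtain ⟨k2, hk2⟩ := (a2.sub_odd b2).two_dvd
    obtain ⟨k3, hk3⟩ := (a3.sub_odd b3).two_dvd
    obtain ⟨k4, hk4⟩ := (a4.sub_odd b4).two_dvd
    rw [hk1, hk2, hk3, hk4]
    apply same
    · omega
    · rintro ⟨r0, r1, r2, r3, r4⟩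
      subst r1 r2 r3 r4
      exact hne ⟨by omega, by omega, by omega, by omega, by omega⟩

lemma arr_packing : IsPacking (closedBall (0 : EuclideanSpace ℝ (Fin 5)) 1) arr := by
  rw [isPacking_iff]
  rintro p ⟨t, z1, z2, z3, z4, hA, rfl⟩ q ⟨t', z1', z2', z3', z4', hA', rfl⟩ hne
  have h := pack_int hA hA' (by
    rintro ⟨rfl, rfl, rfl, rfl, rfl⟩
    exact hne rfl)
  have hR : (64 : ℝ) ≤ 4 * ((t : ℝ) - t') ^ 2 + 15 * (((z1 : ℝ) - z1') ^ 2 +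
      ((z2 : ℝ) - z2') ^ 2 + ((z3 : ℝ) - z3') ^ 2 + ((z4 : ℝ) - z4') ^ 2) := by exact_mod_cast h
  have h2 := dist_sq_pt t z1 z2 z3 z4 t' z1' z2' z3' z4'
  have h4 : (2 : ℝ) ^ 2 ≤ dist (pt t z1 z2 z3 z4) (pt t' z1' z2' z3' z4') ^ 2 := by
    rw [h2]; linarith
  exact (sq_le_sq₀ (by norm_num) dist_nonneg).1 h4

lemma arr_covering {r : ℝ} (hr : 0 < r) (hr2 : 81 / 40 ≤ r ^ 2) :
    IsCovering (closedBall (0 : EuclideanSpace ℝ (Fin 5)) 1) arr r := by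
  rw [isCovering_iff _ hr]
  intro x
  have hs : (0 : ℝ) < √15 := Real.sqrt_pos.2 (by norm_num)
  obtain ⟨t, z1, z2, z3, z4, hA, hc⟩ := exists_adm (2 * x 0) (4 / √15 * x 1) (4 / √15 * x 2)
    (4 / √15 * x 3) (4 / √15 * x 4)
  refine ⟨pt t z1 z2 z3 z4, ⟨t, z1, z2, z3, z4, hA, rfl⟩, ?_⟩
  have h15 : (√15 : ℝ) ^ 2 = 15 := Real.sq_sqrt (by norm_num)
  have h1 : dist x (pt t z1 z2 z3 z4) ^ 2 =
      (2 * x 0 - t) ^ 2 / 4 + 15 / 16 * ((4 / √15 * x 1 - z1) ^ 2 + (4 / √15 * x 2 - z2) ^ 2 +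
        (4 / √15 * x 3 - z3) ^ 2 + (4 / √15 * x 4 - z4) ^ 2) := by
    rw [EuclideanSpace.dist_eq, Real.sq_sqrt (by positivity), Fin.sum_univ_five]
    simp only [pt, Real.dist_eq, sq_abs]
    have hk : ∀ a : ℝ, ∀ z : ℤ, (a - √15 / 4 * z) ^ 2 = 15 / 16 * (4 / √15 * a - z) ^ 2 := by
      intro a z
      have : a - √15 / 4 * z = √15 / 4 * (4 / √15 * a - z) := by field_simp
      rw [this, mul_pow, div_pow, h15]; norm_num
    simp
    rw [hk, hk, hk, hk]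
    ring
  have h2 : dist x (pt t z1 z2 z3 z4) ^ 2 ≤ r ^ 2 := by rw [h1]; linarith
  exact (sq_le_sq₀ dist_nonneg hr.le).1 h2

/-- **Upper bound**: `γ₅ ≤ 9 / (2√10)`, so that `γ₅² ≤ 81/40`. -/
theorem packCover_five_le :
    packCover (closedBall (0 : EuclideanSpace ℝ (Fin 5)) 1) ≤ 9 / (2 * √10) := by
  have h10 : (√10 : ℝ) ^ 2 = 10 := Real.sq_sqrt (by norm_num)
  have hs : (0 : ℝ) < √10 := Real.sqrt_pos.2 (by norm_num)
  have hpos : (0 : ℝ) < 9 / (2 * √10) := by positivity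
  apply csInf_le ⟨0, fun r hr => hr.1.le⟩
  refine ⟨hpos, arr, arr_packing, arr_covering hpos ?_⟩
  rw [div_pow, mul_pow, h10]; norm_num

end Pool.Agent.Lib_helper17.Rogers
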