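import Mathlib

namespace Pool.Agent.Lib_helper17.Rogers

/-- The one-variable inequality behind the covering radius. -/
lemma key_real {b1 b2 b3 b4 th : ℝ} (h1 : 0 ≤ b1) (h2 : 0 ≤ b2) (h3 : 0 ≤ b3) (h4 : 0 ≤ b4)
    (hS : b1 ^ 2 + b2 ^ 2 + b3 ^ 2 + b4 ^ 2 ≤ 1 / 2) (ht0 : 0 ≤ th) (ht1 : th ≤ 1 / 2)
    (c1 : b1 < (b1 ^ 2 + b2 ^ 2 + b3 ^ 2 + b4 ^ 2) / 2 + th ^ 2 / 15 - 1 / 25)
    (c2 : b2 < (b1 ^ 2 + b2 ^ 2 + b3 ^ 2 + b4 ^ 2) / 2 + (1 - th) ^ 2 / 15 - 1 / 25)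
    (c3 : b3 < (b1 ^ 2 + b2 ^ 2 + b3 ^ 2 + b4 ^ 2) / 2 + (1 + th) ^ 2 / 15 - 1 / 25)
    (c4 : b4 < (b1 ^ 2 + b2 ^ 2 + b3 ^ 2 + b4 ^ 2) / 2 + (2 - th) ^ 2 / 15 - 1 / 25) : False := by
  obtain ⟨S, hSdef⟩ : ∃ S, S = b1 ^ 2 + b2 ^ 2 + b3 ^ 2 + b4 ^ 2 := ⟨_, rfl⟩
  rw [← hSdef] at c1 c2 c3 c4 hS
  obtain ⟨β1, hβ1⟩ : ∃ β1, β1 = th ^ 2 / 15 - 1 / 25 := ⟨_, rfl⟩
  obtain ⟨β2, hβ2⟩ : ∃ β2, β2 = (1 - th) ^ 2 / 15 - 1 / 25 := ⟨_, rfl⟩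
  obtain ⟨β3, hβ3⟩ : ∃ β3, β3 = (1 + th) ^ 2 / 15 - 1 / 25 := ⟨_, rfl⟩
  obtain ⟨β4, hβ4⟩ : ∃ β4, β4 = (2 - th) ^ 2 / 15 - 1 / 25 := ⟨_, rfl⟩
  have d1 : b1 < S / 2 + β1 := by linarith
  have d2 : b2 < S / 2 + β2 := by linarith
  have d3 : b3 < S / 2 + β3 := by linarith
  have d4 : b4 < S / 2 + β4 := by linarith
  have e1 : b1 ^ 2 ≤ (S / 2 + β1) ^ 2 := pow_le_pow_left₀ h1 d1.le 2
  have e2 : b2 ^ 2 ≤ (S / 2 + β2) ^ 2 := pow_le_pow_left₀ h2 d2.le 2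
  have e3 : b3 ^ 2 ≤ (S / 2 + β3) ^ 2 := pow_le_pow_left₀ h3 d3.le 2
  have e4 : b4 ^ 2 < (S / 2 + β4) ^ 2 := pow_lt_pow_left₀ d4 h4 (by norm_num)
  have hpos : 0 < S + 2 * β1 := by linarith
  have hle : 0 ≤ (S + 2 * β1) * (1 / 2 - S) := mul_nonneg hpos.le (by linarith)
  have hsum : S < S ^ 2 + S * (β1 + β2 + β3 + β4) + (β1 ^ 2 + β2 ^ 2 + β3 ^ 2 + β4 ^ 2) := by
    have : (S / 2 + β1) ^ 2 + (S / 2 + β2) ^ 2 + (S / 2 + β3) ^ 2 + (S / 2 + β4) ^ 2 =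
      S ^ 2 + S * (β1 + β2 + β3 + β4) + (β1 ^ 2 + β2 ^ 2 + β3 ^ 2 + β4 ^ 2) := by ring
    rw [← this]
    linarith
  have hle' : S ^ 2 ≤ (1 / 2 - 2 * β1) * S + β1 := by
    have : (S + 2 * β1) * (1 / 2 - S) = (1 / 2 - 2 * β1) * S + β1 - S ^ 2 := by ring
    linarith
  have hlin : 0 < (-(1 / 2) - β1 + β2 + β3 + β4) * S + β1 +
      (β1 ^ 2 + β2 ^ 2 + β3 ^ 2 + β4 ^ 2) := by
    have : (-(1 / 2) - β1 + β2 + β3 + β4) * S + β1 + (β1 ^ 2 + β2 ^ 2 + β3 ^ 2 + β4 ^ 2)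
      = ((1 / 2 - 2 * β1) * S + β1) + S * (β1 + β2 + β3 + β4) - S
        + (β1 ^ 2 + β2 ^ 2 + β3 ^ 2 + β4 ^ 2) := by ring
    rw [this]
    linarith
  have hc : -(1 / 2) - β1 + β2 + β3 + β4 ≤ 0 := by
    have : -(1 / 2) - β1 + β2 + β3 + β4 = -(9 / 50) - (2 / 15) * (th * (2 - th)) := by
      rw [hβ1, hβ2, hβ3, hβ4]; ring
    rw [this]
    have : 0 ≤ th * (2 - th) := mul_nonneg ht0 (by linarith)
    linarith
  have hend : (-(1 / 2) - β1 + β2 + β3 + β4) * (-2 * β1) + β1 +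
      (β1 ^ 2 + β2 ^ 2 + β3 ^ 2 + β4 ^ 2) = th * (54 * th - 32) / 225 := by
    rw [hβ1, hβ2, hβ3, hβ4]; ring
  have hend2 : th * (54 * th - 32) / 225 ≤ 0 := by
    have : 0 ≤ th * (32 - 54 * th) := mul_nonneg ht0 (by linarith)
    linarith
  have hfin : (-(1 / 2) - β1 + β2 + β3 + β4) * S ≤
      (-(1 / 2) - β1 + β2 + β3 + β4) * (-2 * β1) := by
    have : 0 ≤ (-(-(1 / 2) - β1 + β2 + β3 + β4)) * (S + 2 * β1) :=
      mul_nonneg (by linarith) hpos.le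
    linarith
  linarith

/-- Rounding a point of `ℝ⁴` to an integer vector with even coordinate sum. -/
lemma round_even (y1 y2 y3 y4 : ℝ) : ∃ w1 w2 w3 w4 : ℤ, Even (w1 + w2 + w3 + w4) ∧
    (y1 - w1) ^ 2 + (y2 - w2) ^ 2 + (y3 - w3) ^ 2 + (y4 - w4) ^ 2 ≤ 1 := by
  have key : ∀ y : ℝ, ∃ w w' : ℤ, ∃ m : ℝ, 0 ≤ m ∧ m ≤ 1 / 2 ∧ (y - w) ^ 2 = m ^ 2 ∧
      (y - w') ^ 2 = (1 - m) ^ 2 ∧ Odd (w - w') := by
    intro y
    have hr := abs_sub_round y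
    rcases le_total 0 (y - round y) with h | h
    · rw [abs_of_nonneg h] at hr
      refine ⟨round y, round y + 1, y - round y, h, hr, rfl, ?_, ?_⟩
      · push_cast; ring
      · exact ⟨-1, by ring⟩
    · rw [abs_of_nonpos h] at hr
      refine ⟨round y, round y - 1, -(y - round y), by linarith, hr, by ring, ?_, ?_⟩
      · push_cast; ring
      · exact ⟨0, by ring⟩
  obtain ⟨a1, a1', m1, p1, q1, r1, s1, o1⟩ := key y1
  obtain ⟨a2, a2', m2, p2, q2, r2, s2, o2⟩ := key y2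
  obtain ⟨a3, a3', m3, p3, q3, r3, s3, o3⟩ := key y3
  obtain ⟨a4, a4', m4, p4, q4, r4, s4, o4⟩ := key y4
  by_cases hE : Even (a1 + a2 + a3 + a4)
  · refine ⟨a1, a2, a3, a4, hE, ?_⟩
    rw [r1, r2, r3, r4]
    have g : ∀ m : ℝ, 0 ≤ m → m ≤ 1 / 2 → m ^ 2 ≤ 1 / 4 := by
      intro m h h'
      nlinarith only [h, h']
    linarith [g _ p1 q1, g _ p2 q2, g _ p3 q3, g _ p4 q4]
  · have hO : Odd (a1 + a2 + a3 + a4) := Int.not_even_iff_odd.1 hE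
    -- change the coordinate with the largest error
    have main : ∀ m1 m2 m3 m4 : ℝ, 0 ≤ m1 → m1 ≤ 1 / 2 → 0 ≤ m2 → m2 ≤ m1 → 0 ≤ m3 → m3 ≤ m1 →
        0 ≤ m4 → m4 ≤ m1 → (1 - m1) ^ 2 + m2 ^ 2 + m3 ^ 2 + m4 ^ 2 ≤ 1 := by
      intro m1 m2 m3 m4 h1 h1' h2 h2' h3 h3' h4 h4'
      have g : ∀ m : ℝ, 0 ≤ m → m ≤ m1 → m ^ 2 ≤ m1 / 2 := by
        intro m h h'
        nlinarith only [h, h', h1, h1']
      have f1 : m1 ^ 2 ≤ m1 / 2 := by nlinarith only [h1, h1']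
      have e : (1 - m1) ^ 2 = 1 - 2 * m1 + m1 ^ 2 := by ring
      rw [e]
      linarith [g _ h2 h2', g _ h3 h3', g _ h4 h4']
    rcases le_total m2 m1 with h12 | h12 <;> rcases le_total m4 m3 with h34 | h34
    · rcases le_total m3 m1 with h | h
      · refine ⟨a1', a2, a3, a4, ?_, ?_⟩
        · have : a1' + a2 + a3 + a4 = (a1 + a2 + a3 + a4) - (a1 - a1') := by ring
          rw [this]; exact hO.sub_odd o1
        · rw [s1, r2, r3, r4]; exact main m1 m2 m3 m4 p1 q1 p2 h12 p3 h p4 (h34.trans h)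
      · refine ⟨a1, a2, a3', a4, ?_, ?_⟩
        · have : a1 + a2 + a3' + a4 = (a1 + a2 + a3 + a4) - (a3 - a3') := by ring
          rw [this]; exact hO.sub_odd o3
        · rw [r1, r2, s3, r4]
          have := main m3 m1 m2 m4 p3 q3 p1 h p2 (h12.trans h) p4 h34
          linarith
    · rcases le_total m4 m1 with h | h
      · refine ⟨a1', a2, a3, a4, ?_, ?_⟩
        · have : a1' + a2 + a3 + a4 = (a1 + a2 + a3 + a4) - (a1 - a1') := by ring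
          rw [this]; exact hO.sub_odd o1
        · rw [s1, r2, r3, r4]; exact main m1 m2 m3 m4 p1 q1 p2 h12 p3 (h34.trans h) p4 h
      · refine ⟨a1, a2, a3, a4', ?_, ?_⟩
        · have : a1 + a2 + a3 + a4' = (a1 + a2 + a3 + a4) - (a4 - a4') := by ring
          rw [this]; exact hO.sub_odd o4
        · rw [r1, r2, r3, s4]
          have := main m4 m1 m2 m3 p4 q4 p1 h p2 (h12.trans h) p3 h34
          linarith
    · rcases le_total m3 m2 with h | h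
      · refine ⟨a1, a2', a3, a4, ?_, ?_⟩
        · have : a1 + a2' + a3 + a4 = (a1 + a2 + a3 + a4) - (a2 - a2') := by ring
          rw [this]; exact hO.sub_odd o2
        · rw [r1, s2, r3, r4]
          have := main m2 m1 m3 m4 p2 q2 p1 h12 p3 h p4 (h34.trans h)
          linarith
      · refine ⟨a1, a2, a3', a4, ?_, ?_⟩
        · have : a1 + a2 + a3' + a4 = (a1 + a2 + a3 + a4) - (a3 - a3') := by ring
          rw [this]; exact hO.sub_odd o3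
        · rw [r1, r2, s3, r4]
          have := main m3 m1 m2 m4 p3 q3 p1 (h12.trans h) p2 h p4 h34
          linarith
    · rcases le_total m4 m2 with h | h
      · refine ⟨a1, a2', a3, a4, ?_, ?_⟩
        · have : a1 + a2' + a3 + a4 = (a1 + a2 + a3 + a4) - (a2 - a2') := by ring
          rw [this]; exact hO.sub_odd o2
        · rw [r1, s2, r3, r4]
          have := main m2 m1 m3 m4 p2 q2 p1 h12 p3 (h34.trans h) p4 h
          linarith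
      · refine ⟨a1, a2, a3, a4', ?_, ?_⟩
        · have : a1 + a2 + a3 + a4' = (a1 + a2 + a3 + a4) - (a4 - a4') := by ring
          rw [this]; exact hO.sub_odd o4
        · rw [r1, r2, r3, s4]
          have := main m4 m1 m2 m3 p4 q4 p1 (h12.trans h) p2 h p3 h34
          linarith

end Pool.Agent.Lib_helper17.Rogers
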